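import Pool.Agent.H811.Tan.Core

/-!
# The case of order four on the unit circle
-/

namespace Pool.Agent.H811.Tan

open Matrix ComplexConjugate

set_option linter.unusedVariables false

/-- The number `c = 2 Re w`. -/
noncomputable def cc (F H : SL2) : ℝ := 2 * (ww F H).re

theorem cc_sq_le {F H : SL2} (hw : ‖ww F H‖ = 1) : cc F H ^ 2 ≤ 4 := by
  have h1 : |(ww F H).re| ≤ 1 := by
    rw [← hw]; exact Complex.abs_re_le_norm _
  have h2 := abs_le.1 h1
  unfold cc
  nlinarith [h2.1, h2.2]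

theorem circle_one {Γ : Subgroup SL2} (hΓ : Disc Γ) {F H : SL2} (hF : F ∈ Γ) (hH : H ∈ Γ)
    (h : tr H = tr F) (hs : ss F = 0) (hw : ‖ww F H‖ = 1) :
    cc F H ^ 2 = 0 ∨ 1 ≤ cc F H ^ 2 := by
  have ht : tr F ^ 2 = 2 := by unfold ss at hs; linear_combination hs
  have hword := word_one (F := F) (H := H) rfl h rfl ht
  have hF' := Γ.inv_mem hF
  have hH' := Γ.inv_mem hH
  have hK : (H * (F * (H⁻¹ * (F⁻¹ * (H * 1))))) ∈ Γ :=
    Γ.mul_mem hH (Γ.mul_mem hF (Γ.mul_mem hH' (Γ.mul_mem hF' (Γ.mul_mem hH Γ.one_mem))))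
  have hnn := normsq_one hw
  have e : tr (F * H) - 1 = ww F H := rfl
  rw [e] at hword
  have hy4 := cc_sq_le hw
  have hy0 : 0 ≤ cc F H ^ 2 := sq_nonneg _
  have hn2 : ‖ww F H ^ 6 + ww F H ^ 4 - 1‖ ^ 2
      = 1 - cc F H ^ 2 * (1 - cc F H ^ 2) * (4 - cc F H ^ 2) := by
    rw [hnn]; unfold cc; ring
  generalize cc F H ^ 2 = y at *
  have hne : ww F H ^ 6 + ww F H ^ 4 - 1 ≠ 0 := by
    intro h0
    rw [h0] at hn2
    norm_num at hn2
    nlinarith [sq_nonneg (y - 1/2), mul_nonneg hy0 (sq_nonneg (y - 1/2)), mul_nonneg (sub_nonneg.2 hy4) (sq_nonneg (y-1/2)), sq_nonneg (y-7/15), mul_nonneg hy0 (sq_nonneg (y - 7/15))]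
  have h1 := strict_four hΓ hF (Ks_one_mem hF hK) (tr_word F _) hs (by rw [hword]; exact hne)
  rw [hword] at h1
  have h2 : 1 ≤ 1 - y * (1 - y) * (4 - y) := by
    rw [← hn2]
    nlinarith
  by_contra hcon
  push Not at hcon
  obtain ⟨hc1, hc2⟩ := hcon
  have hy : 0 < y := lt_of_le_of_ne hy0 (Ne.symm hc1)
  have : 0 < y * (1 - y) * (4 - y) := by
    apply mul_pos (mul_pos hy (by linarith)) (by linarith)
  linarith

/-- Doubling. -/
theorem ww_double {F H : SL2} (h : tr H = tr F) (hs : ss F = 0) :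
    ww F (Ks F H 1) = ww F H ^ 2 := by
  have h3 := ww_Ks F H h 0
  rw [hs, zero_mul, sub_zero, add_zero] at h3
  exact h3

theorem cc_double {F H : SL2} (h : tr H = tr F) (hs : ss F = 0) (hw : ‖ww F H‖ = 1) :
    cc F (Ks F H 1) = cc F H ^ 2 - 2 := by
  unfold cc
  rw [ww_double h hs]
  have h1 : (ww F H).re ^ 2 + (ww F H).im ^ 2 = 1 := by
    have : ‖ww F H‖ ^ 2 = 1 := by rw [hw]; norm_num
    rw [← Complex.normSq_eq_norm_sq, Complex.normSq_apply] at this
    linarith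
  rw [pow_two (ww F H), Complex.mul_re]
  linear_combination (-2) * h1

theorem norm_double {F H : SL2} (h : tr H = tr F) (hs : ss F = 0) (hw : ‖ww F H‖ = 1) :
    ‖ww F (Ks F H 1)‖ = 1 := by
  rw [ww_double h hs, norm_pow, hw, one_pow]

theorem circle_two {Γ : Subgroup SL2} (hΓ : Disc Γ) {F H : SL2} (hF : F ∈ Γ) (hH : H ∈ Γ)
    (h : tr H = tr F) (hs : ss F = 0) (hw : ‖ww F H‖ = 1) :
    cc F H ^ 2 = 0 ∨ cc F H ^ 2 = 1 ∨ cc F H ^ 2 = 2 ∨ 3 ≤ cc F H ^ 2 := by
  have h1 := circle_one hΓ hF hH h hs hw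
  have h2 := circle_one hΓ hF (Ks_mem hF hH 1) (tr_Ks F H h 1) hs (norm_double h hs hw)
  rw [cc_double h hs hw] at h2
  rcases h1 with h1 | h1
  · exact Or.inl h1
  · rcases h2 with h2 | h2
    · right; right; left
      have := pow_eq_zero_iff (two_ne_zero) |>.1 h2
      linarith
    · by_cases hy : 3 ≤ cc F H ^ 2
      · exact Or.inr (Or.inr (Or.inr hy))
      · right; left
        push Not at hy
        nlinarith

theorem circle_pos {Γ : Subgroup SL2} (hΓ : Disc Γ) {F H : SL2} (hF : F ∈ Γ) (hH : H ∈ Γ)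
    (h : tr H = tr F) (hs : ss F = 0) (hw : ‖ww F H‖ = 1) :
    ¬ (0 < 5 - 4 * cc F H - cc F H ^ 2 + cc F H ^ 3 ∧
      5 - 4 * cc F H - cc F H ^ 2 + cc F H ^ 3 < 1) := by
  rintro ⟨hp1, hp2⟩
  have ht : tr F ^ 2 = 2 := by unfold ss at hs; linear_combination hs
  have hword := word_two (F := F) (H := H) rfl h rfl ht
  have hF' := Γ.inv_mem hF
  have hH' := Γ.inv_mem hH
  have hK : (H * (F⁻¹ * (H * (F * (H⁻¹ * 1))))) ∈ Γ :=
    Γ.mul_mem hH (Γ.mul_mem hF' (Γ.mul_mem hH (Γ.mul_mem hF (Γ.mul_mem hH' Γ.one_mem))))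
  have hnn := normsq_two hw
  have e : tr (F * H) - 1 = ww F H := rfl
  rw [e] at hword
  have hnn' : ‖(ww F H ^ 3 - ww F H ^ 2 + 1) ^ 2‖ = 5 - 4 * cc F H - cc F H ^ 2 + cc F H ^ 3 := by
    rw [norm_pow, hnn]; rfl
  have h1 := strict_four hΓ hF (Ks_one_mem hF hK) (tr_word F _) hs (by
    rw [hword]
    intro h0
    rw [h0, norm_zero] at hnn'
    linarith)
  rw [hword, hnn'] at h1
  linarith

theorem circle_neg {Γ : Subgroup SL2} (hΓ : Disc Γ) {F H : SL2} (hF : F ∈ Γ) (hH : H ∈ Γ)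
    (h : tr H = tr F) (hs : ss F = 0) (hw : ‖ww F H‖ = 1) :
    ¬ (0 < 5 + 4 * cc F H - cc F H ^ 2 - cc F H ^ 3 ∧
      5 + 4 * cc F H - cc F H ^ 2 - cc F H ^ 3 < 1) := by
  rintro ⟨hp1, hp2⟩
  have ht : tr F ^ 2 = 2 := by unfold ss at hs; linear_combination hs
  have hword := word_three (F := F) (H := H) rfl h rfl ht
  have hF' := Γ.inv_mem hF
  have hH' := Γ.inv_mem hH
  have hK : (H * (F * (H * (F⁻¹ * (H⁻¹ * 1))))) ∈ Γ :=
    Γ.mul_mem hH (Γ.mul_mem hF (Γ.mul_mem hH (Γ.mul_mem hF' (Γ.mul_mem hH' Γ.one_mem))))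
  have hnn := normsq_three hw
  have e : tr (F * H) - 1 = ww F H := rfl
  rw [e] at hword
  have hnn' : ‖(ww F H ^ 3 + ww F H ^ 2 - 1) ^ 2‖ = 5 + 4 * cc F H - cc F H ^ 2 - cc F H ^ 3 := by
    rw [norm_pow, hnn]; rfl
  have h1 := strict_four hΓ hF (Ks_one_mem hF hK) (tr_word F _) hs (by
    rw [hword]
    intro h0
    rw [h0, norm_zero] at hnn'
    linarith)
  rw [hword, hnn'] at h1
  linarith

theorem circle_three {Γ : Subgroup SL2} (hΓ : Disc Γ) {F H : SL2} (hF : F ∈ Γ) (hH : H ∈ Γ)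
    (h : tr H = tr F) (hs : ss F = 0) (hw : ‖ww F H‖ = 1) :
    cc F H ^ 2 = 0 ∨ cc F H ^ 2 = 1 ∨ 3 < cc F H ^ 2 := by
  have hpos := circle_pos hΓ hF hH h hs hw
  have hneg := circle_neg hΓ hF hH h hs hw
  rcases circle_two hΓ hF hH h hs hw with h1 | h1 | h1 | h1
  · exact Or.inl h1
  · exact Or.inr (Or.inl h1)
  · exfalso
    rcases le_total 0 (cc F H) with hc | hc
    · apply hpos
      have e : 5 - 4 * cc F H - cc F H ^ 2 + cc F H ^ 3 = 3 - 2 * cc F H := by
        have : cc F H ^ 3 = cc F H * cc F H ^ 2 := by ring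
        rw [this, h1]; ring
      rw [e]
      constructor <;> nlinarith
    · apply hneg
      have e : 5 + 4 * cc F H - cc F H ^ 2 - cc F H ^ 3 = 3 + 2 * cc F H := by
        have : cc F H ^ 3 = cc F H * cc F H ^ 2 := by ring
        rw [this, h1]; ring
      rw [e]
      constructor <;> nlinarith
  · rcases h1.eq_or_lt with h1 | h1
    · exfalso
      rcases le_total 0 (cc F H) with hc | hc
      · apply hpos
        have e : 5 - 4 * cc F H - cc F H ^ 2 + cc F H ^ 3 = 2 - cc F H := by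
          have : cc F H ^ 3 = cc F H * cc F H ^ 2 := by ring
          rw [this, ← h1]; ring
        rw [e]
        constructor <;> nlinarith
      · apply hneg
        have e : 5 + 4 * cc F H - cc F H ^ 2 - cc F H ^ 3 = 2 + cc F H := by
          have : cc F H ^ 3 = cc F H * cc F H ^ 2 := by ring
          rw [this, ← h1]; ring
        rw [e]
        constructor <;> nlinarith
    · exact Or.inr (Or.inr h1)

theorem circle_iter {Γ : Subgroup SL2} (hΓ : Disc Γ) {F : SL2} (hF : F ∈ Γ) (hs : ss F = 0)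
    (n : ℕ) : ∀ H ∈ Γ, tr H = tr F → ‖ww F H‖ = 1 → 3 < cc F H ^ 2 → cc F H ^ 2 < 4 →
      (4 - cc F H ^ 2) * 3 ^ n < 1 := by
  induction n with
  | zero =>
    intro H hH h hw h3 h4
    linarith
  | succ n ih =>
    intro H hH h hw h3 h4
    have e : 4 - cc F (Ks F H 1) ^ 2 = (4 - cc F H ^ 2) * cc F H ^ 2 := by
      rw [cc_double h hs hw]; ring
    have hpos : 0 < 4 - cc F (Ks F H 1) ^ 2 := by
      rw [e]; apply mul_pos <;> linarith
    have hlt : 4 - cc F (Ks F H 1) ^ 2 < 3 := by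
      rw [e]; nlinarith
    have h3' : 3 < cc F (Ks F H 1) ^ 2 := by
      rcases circle_three hΓ hF (Ks_mem hF hH 1) (tr_Ks F H h 1) hs (norm_double h hs hw)
        with h5 | h5 | h5
      · rw [h5] at hlt; linarith
      · rw [h5] at hlt; linarith
      · exact h5
    have h6 := ih _ (Ks_mem hF hH 1) (tr_Ks F H h 1) (norm_double h hs hw) h3' (by linarith)
    have h7 : (4 - cc F H ^ 2) * 3 ≤ 4 - cc F (Ks F H 1) ^ 2 := by
      rw [e]; nlinarith
    calc (4 - cc F H ^ 2) * 3 ^ (n + 1) = ((4 - cc F H ^ 2) * 3) * 3 ^ n := by ring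
      _ ≤ (4 - cc F (Ks F H 1) ^ 2) * 3 ^ n := by gcongr
      _ < 1 := h6

theorem circle_four {Γ : Subgroup SL2} (hΓ : Disc Γ) {F H : SL2} (hF : F ∈ Γ) (hH : H ∈ Γ)
    (h : tr H = tr F) (hs : ss F = 0) (hw : ‖ww F H‖ = 1) :
    cc F H ^ 2 = 0 ∨ cc F H ^ 2 = 1 ∨ cc F H ^ 2 = 4 := by
  rcases circle_three hΓ hF hH h hs hw with h1 | h1 | h1
  · exact Or.inl h1
  · exact Or.inr (Or.inl h1)
  · right; right
    rcases (cc_sq_le hw).eq_or_lt with h4 | h4
    · exact h4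
    · exfalso
      have hδ : 0 < 4 - cc F H ^ 2 := by linarith
      obtain ⟨n, hn⟩ := exists_nat_gt (4 - cc F H ^ 2)⁻¹
      have h5 := circle_iter hΓ hF hs n H hH h hw h1 h4
      have h6 : (n : ℝ) ≤ 3 ^ n := by
        have : n < 3 ^ n := Nat.lt_pow_self (by norm_num)
        exact_mod_cast this.le
      have h7 : 1 < (4 - cc F H ^ 2) * 3 ^ n := by
        calc (1 : ℝ) = (4 - cc F H ^ 2) * (4 - cc F H ^ 2)⁻¹ := (mul_inv_cancel₀ hδ.ne').symm
          _ < (4 - cc F H ^ 2) * n := by gcongr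
          _ ≤ (4 - cc F H ^ 2) * 3 ^ n := by gcongr
      linarith

/-- The circle lemma: in the case of order four with `|w| = 1`, `w` is a fourth or sixth root
of unity. -/
theorem circle {Γ : Subgroup SL2} (hΓ : Disc Γ) {F H : SL2} (hF : F ∈ Γ) (hH : H ∈ Γ)
    (h : tr H = tr F) (hs : ss F = 0) (hw : ‖ww F H‖ = 1) :
    ww F H ^ 4 = 1 ∨ ww F H ^ 6 = 1 := by
  have h2 : ww F H ^ 2 - ((cc F H : ℝ) : ℂ) * ww F H + 1 = 0 := (conj_eq_of_norm_one hw).2
  rcases circle_four hΓ hF hH h hs hw with h1 | h1 | h1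
  · left
    have h3 : cc F H = 0 := pow_eq_zero_iff (two_ne_zero) |>.1 h1
    rw [h3, Complex.ofReal_zero, zero_mul, sub_zero] at h2
    linear_combination (ww F H ^ 2 - 1) * h2
  · right
    have h3 : (cc F H - 1) * (cc F H + 1) = 0 := by linear_combination h1
    rcases mul_eq_zero.1 h3 with h4 | h4
    · have h5 : cc F H = 1 := by linarith
      rw [h5, Complex.ofReal_one, one_mul] at h2
      linear_combination (ww F H + 1) * (ww F H ^ 3 - 1) * h2
    · have h5 : cc F H = -1 := by linarith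
      rw [h5, Complex.ofReal_neg, Complex.ofReal_one] at h2
      linear_combination (ww F H - 1) * (ww F H ^ 3 + 1) * h2
  · left
    have h3 : (cc F H - 2) * (cc F H + 2) = 0 := by linear_combination h1
    rcases mul_eq_zero.1 h3 with h4 | h4
    · have h5 : cc F H = 2 := by linarith
      rw [h5] at h2
      have h6 : (ww F H - 1) ^ 2 = 0 := by push_cast at h2; linear_combination h2
      have h7 := pow_eq_zero_iff (two_ne_zero) |>.1 h6
      linear_combination (ww F H ^ 3 + ww F H ^ 2 + ww F H + 1) * h7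
    · have h5 : cc F H = -2 := by linarith
      rw [h5] at h2
      have h6 : (ww F H + 1) ^ 2 = 0 := by push_cast at h2; linear_combination h2
      have h7 := pow_eq_zero_iff (two_ne_zero) |>.1 h6
      linear_combination (ww F H ^ 3 - ww F H ^ 2 + ww F H - 1) * h7

end Pool.Agent.H811.Tan
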