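import Pool.Agent.H811.Tan.Words

/-!
# The extremal pairs
-/

namespace Pool.Agent.H811.Tan

open Matrix ComplexConjugate

set_option linter.unusedVariables false

theorem ss_ne {F : SL2} (h : ‖ss F‖ < 1) : tr F ^ 2 ≠ 4 := by
  intro h4
  have : ss F = 2 := by unfold ss; rw [h4]; norm_num
  rw [this] at h
  norm_num at h

theorem Ks_one_mem {Γ : Subgroup SL2} {F K : SL2} (hF : F ∈ Γ) (hK : K ∈ Γ) :
    K * F⁻¹ * K⁻¹ ∈ Γ := Γ.mul_mem (Γ.mul_mem hK (Γ.inv_mem hF)) (Γ.inv_mem hK)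

/-- If `0 < |v| < |s|` and `|v| + |s| < 1` then the group is not discrete. -/
theorem near_fixed {Γ : Subgroup SL2} (hΓ : Disc Γ) {F H : SL2} (hF : F ∈ Γ) (hH : H ∈ Γ)
    (h : tr H = tr F) (h0 : ww F H - ss F ≠ 0) (h1 : ‖ww F H - ss F‖ < ‖ss F‖)
    (h2 : ‖ww F H - ss F‖ + ‖ss F‖ < 1) : False := by
  have hs : ‖ss F‖ < 1 := by linarith [norm_nonneg (ww F H - ss F)]
  have key : ∀ n, ‖ww F (Ks F H n) - ss F‖ ≤ ‖ww F H - ss F‖ ∧ ww F (Ks F H n) - ss F ≠ 0 := by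
    intro n
    induction n with
    | zero => exact ⟨le_rfl, h0⟩
    | succ n ih =>
      have hw : ‖ww F (Ks F H n)‖ ≤ 1 := by
        have : ww F (Ks F H n) = (ww F (Ks F H n) - ss F) + ss F := by ring
        rw [this]
        exact (norm_add_le _ _).trans (by linarith [ih.1])
      have hw0 : ww F (Ks F H n) ≠ 0 := by
        intro hz
        have h3 := ih.1
        rw [hz, zero_sub, norm_neg] at h3
        linarith
      rw [vv_Ks F H h n]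
      refine ⟨?_, mul_ne_zero ih.2 hw0⟩
      rw [norm_mul]
      calc ‖ww F (Ks F H n) - ss F‖ * ‖ww F (Ks F H n)‖
          ≤ ‖ww F H - ss F‖ * 1 := mul_le_mul ih.1 hw (norm_nonneg _) (norm_nonneg _)
        _ = _ := mul_one _
  obtain ⟨n, hn⟩ := iter hΓ hF hH (ss_ne hs) h h2 0 (by
    intro n _
    have : ww F (Ks F H n) = (ww F (Ks F H n) - ss F) + ss F := by ring
    rw [this]
    exact (norm_add_le _ _).trans (by linarith [(key n).1]))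
  exact (key n).2 (by rw [hn, sub_self])

/-- There is no discrete group with `tr (F H) = tr² F - 1` and `0 < |tr² F - 2| ≤ 1/2`. -/
theorem no_braid {Γ : Subgroup SL2} (hΓ : Disc Γ) {F H : SL2} (hF : F ∈ Γ) (hH : H ∈ Γ)
    (h : tr H = tr F) (hw : ww F H = ss F) (h0 : ss F ≠ 0) (h1 : ‖ss F‖ ≤ 1 / 2) : False := by
  have hz : tr (F * H) = tr F ^ 2 - 1 := by
    unfold ww ss at hw
    linear_combination hw
  have hword := word_braid (F := F) (H := H) rfl h hz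
  set K : SL2 := (H⁻¹ * (H⁻¹ * (H⁻¹ * (F⁻¹ * (F⁻¹ * (H⁻¹ * (H⁻¹ * (F⁻¹ * (H * (H * 1))))))))))
    with hKdef
  have hK : K ∈ Γ := by
    have hF' := Γ.inv_mem hF
    have hH' := Γ.inv_mem hH
    exact Γ.mul_mem hH' (Γ.mul_mem hH' (Γ.mul_mem hH' (Γ.mul_mem hF' (Γ.mul_mem hF'
      (Γ.mul_mem hH' (Γ.mul_mem hH' (Γ.mul_mem hF' (Γ.mul_mem hH (Γ.mul_mem hH Γ.one_mem)))))))))
  have hs0 : 0 < ‖ss F‖ := norm_pos_iff.2 h0
  have hs2 : ‖ss F‖ ^ 2 ≤ 1 / 4 := by nlinarith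
  have hs3 : ‖ss F‖ ^ 3 ≤ 1 / 8 := by
    calc ‖ss F‖ ^ 3 ≤ (1 / 2) ^ 3 := by gcongr
      _ = 1 / 8 := by norm_num
  have hs4 : ‖ss F‖ ^ 4 ≤ 1 / 16 := by
    calc ‖ss F‖ ^ 4 ≤ (1 / 2) ^ 4 := by gcongr
      _ = 1 / 16 := by norm_num
  have hs5 : ‖ss F‖ ^ 5 ≤ 1 / 32 := by
    calc ‖ss F‖ ^ 5 ≤ (1 / 2) ^ 5 := by gcongr
      _ = 1 / 32 := by norm_num
  set q : ℂ := ss F + 5 * ss F ^ 2 - 3 * ss F ^ 4 - ss F ^ 5 with hq
  have hqn : ‖q‖ ≤ 63 / 32 := by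
    calc ‖q‖ ≤ ‖ss F + 5 * ss F ^ 2 - 3 * ss F ^ 4‖ + ‖ss F ^ 5‖ := norm_sub_le _ _
      _ ≤ (‖ss F + 5 * ss F ^ 2‖ + ‖3 * ss F ^ 4‖) + ‖ss F ^ 5‖ := by
        gcongr; exact norm_sub_le _ _
      _ ≤ ((‖ss F‖ + ‖5 * ss F ^ 2‖) + ‖3 * ss F ^ 4‖) + ‖ss F ^ 5‖ := by
        gcongr; exact norm_add_le _ _
      _ = ‖ss F‖ + 5 * ‖ss F‖ ^ 2 + 3 * ‖ss F‖ ^ 4 + ‖ss F‖ ^ 5 := by
        simp only [norm_mul, norm_pow]
        norm_num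
      _ ≤ 1 / 2 + 5 * (1 / 4) + 3 * (1 / 16) + 1 / 32 := by gcongr
      _ = 63 / 32 := by norm_num
  have hfac : (2 - ss F - 5 * ss F ^ 2 + 3 * ss F ^ 4 + ss F ^ 5) = 2 - q := by rw [hq]; ring
  rw [hfac] at hword
  have hne : (2 : ℂ) - q ≠ 0 := by
    intro h3
    have : q = 2 := by linear_combination -h3
    rw [this] at hqn
    norm_num at hqn
  have hle : ‖(2 : ℂ) - q‖ < 4 := by
    calc ‖(2 : ℂ) - q‖ ≤ ‖(2 : ℂ)‖ + ‖q‖ := norm_sub_le _ _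
      _ ≤ 2 + 63 / 32 := by
        gcongr
        norm_num
      _ < 4 := by norm_num
  have hv : ‖ww F (K * F⁻¹ * K⁻¹) - ss F‖ < (1 / 2) * ‖ss F‖ := by
    rw [hword, norm_mul, norm_pow]
    calc ‖ss F‖ ^ 4 * ‖(2 : ℂ) - q‖ < ‖ss F‖ ^ 4 * 4 := by
          apply mul_lt_mul_of_pos_left hle (by positivity)
      _ = 4 * ‖ss F‖ ^ 3 * ‖ss F‖ := by ring
      _ ≤ 4 * (1 / 8) * ‖ss F‖ := by gcongr
      _ = (1 / 2) * ‖ss F‖ := by ring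
  refine near_fixed hΓ hF (Ks_one_mem hF hK) (tr_word F K) ?_ ?_ ?_
  · rw [hword]
    exact mul_ne_zero (pow_ne_zero _ h0) hne
  · linarith
  · linarith

/-- The strict inequality in the case of order four. -/
theorem strict_four {Γ : Subgroup SL2} (hΓ : Disc Γ) {F H : SL2} (hF : F ∈ Γ) (hH : H ∈ Γ)
    (h : tr H = tr F) (hs : ss F = 0) (h0 : ww F H ≠ 0) : 1 ≤ ‖ww F H‖ := by
  by_contra hlt
  push Not at hlt
  have key : ∀ n, ‖ww F (Ks F H n)‖ ≤ ‖ww F H‖ ∧ ww F (Ks F H n) ≠ 0 := by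
    intro n
    induction n with
    | zero => exact ⟨le_rfl, h0⟩
    | succ n ih =>
      have h3 := ww_Ks F H h n
      rw [hs, zero_mul, sub_zero, add_zero] at h3
      rw [h3]
      refine ⟨?_, pow_ne_zero _ ih.2⟩
      rw [norm_pow]
      nlinarith [norm_nonneg (ww F (Ks F H n)), ih.1]
  obtain ⟨n, hn⟩ := iter hΓ hF hH (ss_ne (by rw [hs]; norm_num)) h hlt 0 (fun n _ => (key n).1)
  exact (key n).2 (by rw [hn, hs])

theorem conj_eq_of_norm_one {w : ℂ} (hw : ‖w‖ = 1) :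
    conj w = ((2 * w.re : ℝ) : ℂ) - w ∧ w ^ 2 - ((2 * w.re : ℝ) : ℂ) * w + 1 = 0 := by
  have h1 : w + conj w = ((2 * w.re : ℝ) : ℂ) := Complex.add_conj w
  have h2 : w * conj w = 1 := by
    rw [Complex.mul_conj, Complex.normSq_eq_norm_sq, hw]; norm_num
  refine ⟨by linear_combination h1, ?_⟩
  have h3 : conj w = ((2 * w.re : ℝ) : ℂ) - w := by linear_combination h1
  rw [h3] at h2
  linear_combination -h2

theorem normsq_one {w : ℂ} (hw : ‖w‖ = 1) :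
    ‖w ^ 6 + w ^ 4 - 1‖ ^ 2 = 1 - 4 * (2 * w.re) ^ 2 + 5 * (2 * w.re) ^ 4 - (2 * w.re) ^ 6 := by
  obtain ⟨h1, h2⟩ := conj_eq_of_norm_one hw
  have h3 : ((‖w ^ 6 + w ^ 4 - 1‖ ^ 2 : ℝ) : ℂ) = (w ^ 6 + w ^ 4 - 1) * conj (w ^ 6 + w ^ 4 - 1) := by
    rw [Complex.mul_conj, Complex.normSq_eq_norm_sq]
  rw [map_sub, map_add, map_pow, map_pow, map_one, h1] at h3
  generalize 2 * w.re = c at *
  have h4 : ((‖w ^ 6 + w ^ 4 - 1‖ ^ 2 : ℝ) : ℂ)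
      = ((1 - 4 * c ^ 2 + 5 * c ^ 4 - c ^ 6 : ℝ) : ℂ) := by
    rw [h3]
    push_cast
    generalize (c : ℂ) = c at *
    linear_combination (4 * c^2 + (-6) * c^4 + 8 * w * c^3 + (-10) * w^2 * c^2 + (-1) * w^2 * c^4
      + 4 * w^3 * c + 2 * w^3 * c^3 + (-1) * w^3 * c^5 + (-2) * w^4 + (-1) * w^4 * c^2
      + 4 * w^4 * c^4 + (-7) * w^5 * c^3 + (-1) * w^5 * c^5 + 7 * w^6 * c^2 + 5 * w^6 * c^4
      + (-4) * w^7 * c + (-10) * w^7 * c^3 + 1 * w^8 + 10 * w^8 * c^2 + (-5) * w^9 * c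
      + 1 * w^10) * h2
  exact_mod_cast h4

theorem normsq_two {w : ℂ} (hw : ‖w‖ = 1) :
    ‖w ^ 3 - w ^ 2 + 1‖ ^ 2 = 5 - 4 * (2 * w.re) - (2 * w.re) ^ 2 + (2 * w.re) ^ 3 := by
  obtain ⟨h1, h2⟩ := conj_eq_of_norm_one hw
  have h3 : ((‖w ^ 3 - w ^ 2 + 1‖ ^ 2 : ℝ) : ℂ) = (w ^ 3 - w ^ 2 + 1) * conj (w ^ 3 - w ^ 2 + 1) := by
    rw [Complex.mul_conj, Complex.normSq_eq_norm_sq]
  rw [map_add, map_sub, map_pow, map_pow, map_one, h1] at h3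
  generalize 2 * w.re = c at *
  have h4 : ((‖w ^ 3 - w ^ 2 + 1‖ ^ 2 : ℝ) : ℂ)
      = ((5 - 4 * c - c ^ 2 + c ^ 3 : ℝ) : ℂ) := by
    rw [h3]
    push_cast
    generalize (c : ℂ) = c at *
    linear_combination ((-4) + 4 * c + (-2) * w * c + 1 * w * c^2 + 2 * w^2 + (-1) * w^2 * c
      + (-1) * w^2 * c^2 + 2 * w^3 * c + (-1) * w^4) * h2
  exact_mod_cast h4

theorem normsq_three {w : ℂ} (hw : ‖w‖ = 1) :
    ‖w ^ 3 + w ^ 2 - 1‖ ^ 2 = 5 + 4 * (2 * w.re) - (2 * w.re) ^ 2 - (2 * w.re) ^ 3 := by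
  obtain ⟨h1, h2⟩ := conj_eq_of_norm_one hw
  have h3 : ((‖w ^ 3 + w ^ 2 - 1‖ ^ 2 : ℝ) : ℂ) = (w ^ 3 + w ^ 2 - 1) * conj (w ^ 3 + w ^ 2 - 1) := by
    rw [Complex.mul_conj, Complex.normSq_eq_norm_sq]
  rw [map_sub, map_add, map_pow, map_pow, map_one, h1] at h3
  generalize 2 * w.re = c at *
  have h4 : ((‖w ^ 3 + w ^ 2 - 1‖ ^ 2 : ℝ) : ℂ)
      = ((5 + 4 * c - c ^ 2 - c ^ 3 : ℝ) : ℂ) := by
    rw [h3]
    push_cast
    generalize (c : ℂ) = c at *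
    linear_combination ((-4) + (-4) * c + (-2) * w * c + (-1) * w * c^2 + 2 * w^2 + 1 * w^2 * c
      + (-1) * w^2 * c^2 + 2 * w^3 * c + (-1) * w^4) * h2
  exact_mod_cast h4

end Pool.Agent.H811.Tan
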