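import Mathlib

/-!
# Definitions: `PSL(2, ℂ)`, traces, nonelementary groups, and the extremal values

`PSL2` is the group `PSL(2, ℂ)` with its quotient topology, `SL2` is `SL(2, ℂ)` and `tr` is the
usual trace. The functions `trSq` and `trComm` are `tr² f` and `tr [f, g]`, where
`[f, g] = f⁻¹ g⁻¹ f g`; they are computed from any lifts to `SL(2, ℂ)`.
-/

namespace Pool.Agent.H811.Tan

open Matrix Filter Topology
open scoped LinearAlgebra.Projectivization

set_option linter.unusedVariables false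
set_option linter.unusedSimpArgs false

/-- `SL(2, ℂ)`. -/
abbrev SL2 : Type := Matrix.SpecialLinearGroup (Fin 2) ℂ

/-- The trace of an element of `SL(2, ℂ)`. -/
def tr (A : SL2) : ℂ := A 0 0 + A 1 1

theorem det_eq (A : SL2) : A 0 0 * A 1 1 - A 0 1 * A 1 0 = 1 := by
  have := A.det_coe
  rwa [Matrix.det_fin_two] at this

theorem mul_00 (A B : SL2) : (A * B) 0 0 = A 0 0 * B 0 0 + A 0 1 * B 1 0 := by
  simp [Matrix.mul_apply, Fin.sum_univ_two]
theorem mul_01 (A B : SL2) : (A * B) 0 1 = A 0 0 * B 0 1 + A 0 1 * B 1 1 := by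
  simp [Matrix.mul_apply, Fin.sum_univ_two]
theorem mul_10 (A B : SL2) : (A * B) 1 0 = A 1 0 * B 0 0 + A 1 1 * B 1 0 := by
  simp [Matrix.mul_apply, Fin.sum_univ_two]
theorem mul_11 (A B : SL2) : (A * B) 1 1 = A 1 0 * B 0 1 + A 1 1 * B 1 1 := by
  simp [Matrix.mul_apply, Fin.sum_univ_two]
theorem inv_00 (A : SL2) : (A⁻¹) 0 0 = A 1 1 := by
  rw [Matrix.SpecialLinearGroup.SL2_inv_expl]; simp
theorem inv_01 (A : SL2) : (A⁻¹) 0 1 = - A 0 1 := by
  rw [Matrix.SpecialLinearGroup.SL2_inv_expl]; simp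
theorem inv_10 (A : SL2) : (A⁻¹) 1 0 = - A 1 0 := by
  rw [Matrix.SpecialLinearGroup.SL2_inv_expl]; simp
theorem inv_11 (A : SL2) : (A⁻¹) 1 1 = A 0 0 := by
  rw [Matrix.SpecialLinearGroup.SL2_inv_expl]; simp

theorem one_00 : (1 : SL2) 0 0 = 1 := by simp
theorem one_01 : (1 : SL2) 0 1 = 0 := by simp
theorem one_10 : (1 : SL2) 1 0 = 0 := by simp
theorem one_11 : (1 : SL2) 1 1 = 1 := by simp

theorem sl2_ext {A B : SL2} (h00 : A 0 0 = B 0 0) (h01 : A 0 1 = B 0 1)
    (h10 : A 1 0 = B 1 0) (h11 : A 1 1 = B 1 1) : A = B := by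
  ext i j
  fin_cases i <;> fin_cases j <;> assumption

theorem sq_eq_one {u : SL2} (h : u * u = 1) : u = 1 ∨ u = -1 := by
  have hd := det_eq u
  have e00 : u 0 0 * u 0 0 + u 0 1 * u 1 0 = 1 := by rw [← mul_00, h, one_00]
  have e01 : u 0 0 * u 0 1 + u 0 1 * u 1 1 = 0 := by rw [← mul_01, h, one_01]
  have e10 : u 1 0 * u 0 0 + u 1 1 * u 1 0 = 0 := by rw [← mul_10, h, one_10]
  have e11 : u 1 0 * u 0 1 + u 1 1 * u 1 1 = 1 := by rw [← mul_11, h, one_11]
  have ht : (u 0 0 + u 1 1) ^ 2 = 4 := by linear_combination e00 + e11 + 2 * hd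
  have ht0 : u 0 0 + u 1 1 ≠ 0 := by
    intro h0; rw [h0] at ht; norm_num at ht
  have h01 : u 0 1 = 0 := by
    have : (u 0 0 + u 1 1) * u 0 1 = 0 := by linear_combination e01
    exact (mul_eq_zero.1 this).resolve_left ht0
  have h10 : u 1 0 = 0 := by
    have : (u 0 0 + u 1 1) * u 1 0 = 0 := by linear_combination e10
    exact (mul_eq_zero.1 this).resolve_left ht0
  have h3 : (u 0 0 - 1) * (u 0 0 + 1) = 0 := by rw [h01] at e00; linear_combination e00
  rcases mul_eq_zero.1 h3 with h4 | h4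
  · left
    have h5 : u 0 0 = 1 := by linear_combination h4
    have h6 : u 1 1 = 1 := by rw [h5, h01] at hd; linear_combination hd
    exact sl2_ext (by rw [h5, one_00]) (by rw [h01, one_01]) (by rw [h10, one_10])
      (by rw [h6, one_11])
  · right
    have h5 : u 0 0 = -1 := by linear_combination h4
    have h6 : u 1 1 = -1 := by rw [h5, h01] at hd; linear_combination -hd
    refine sl2_ext ?_ ?_ ?_ ?_
    · rw [h5]; simp
    · rw [h01]; simp
    · rw [h10]; simp
    · rw [h6]; simp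

/-- The group `PSL(2, ℂ)`, with its quotient topology. -/
abbrev PSL2 : Type := Matrix.ProjectiveSpecialLinearGroup (Fin 2) ℂ

/-- The Riemann sphere, as the projective line over `ℂ`. -/
abbrev Sphere : Type := ℙ ℂ (Fin 2 → ℂ)

theorem center_cases {c : SL2} (hc : c ∈ Subgroup.center SL2) : c = 1 ∨ c = -1 := by
  rw [Matrix.SpecialLinearGroup.mem_center_iff] at hc
  obtain ⟨r, hr, h⟩ := hc
  have hr2 : r ^ 2 = 1 := by simpa using hr
  have hr3 : r * r = 1 := by linear_combination hr2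
  have e00 : c 0 0 = r := by rw [← h]; simp
  have e01 : c 0 1 = 0 := by rw [← h]; simp
  have e10 : c 1 0 = 0 := by rw [← h]; simp
  have e11 : c 1 1 = r := by rw [← h]; simp
  apply sq_eq_one
  refine sl2_ext ?_ ?_ ?_ ?_
  · rw [mul_00, e00, e01, one_00]; linear_combination hr3
  · rw [mul_01, e00, e01, one_01]; ring
  · rw [mul_10, e10, e00, one_10]; ring
  · rw [mul_11, e11, e10, one_11]; linear_combination hr3

theorem neg_one_mem_center : (-1 : SL2) ∈ Subgroup.center SL2 := by
  rw [Subgroup.mem_center_iff]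
  intro g
  rw [mul_neg_one, neg_one_mul]

theorem tr_neg (A : SL2) : tr (-A) = - tr A := by
  unfold tr
  simp only [Matrix.SpecialLinearGroup.coe_neg, Matrix.neg_apply]
  ring

theorem rel_cases {A B : SL2} (h : (QuotientGroup.leftRel (Subgroup.center SL2)) A B) :
    B = A ∨ B = -A := by
  rw [QuotientGroup.leftRel_apply] at h
  rcases center_cases h with h | h
  · left
    exact (inv_mul_eq_one.1 h).symm
  · right
    have := congrArg (fun X => A * X) h
    simp only [mul_inv_cancel_left] at this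
    rw [this, mul_neg_one]

/-- The square of the trace, on `PSL(2, ℂ)`. -/
def trSq : PSL2 → ℂ :=
  Quotient.lift (fun A : SL2 => tr A ^ 2) (by
    intro A B h
    rcases rel_cases h with rfl | rfl
    · rfl
    · simp only [tr_neg]; ring)

/-- The trace of the commutator `[f, g] = f⁻¹ g⁻¹ f g`, on `PSL(2, ℂ)`. -/
def trComm : PSL2 → PSL2 → ℂ :=
  Quotient.lift₂ (fun A B : SL2 => tr (A⁻¹ * B⁻¹ * A * B)) (by
    intro A B A' B' hA hB
    rcases rel_cases hA with rfl | rfl <;> rcases rel_cases hB with rfl | rfl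
    · rfl
    · simp only [inv_neg, neg_mul, mul_neg, neg_neg]
    · simp only [inv_neg, neg_mul, mul_neg, neg_neg]
    · simp only [inv_neg, neg_mul, mul_neg, neg_neg])

/-- A subgroup of `PSL(2, ℂ)` is nonelementary if it has no finite orbit on the Riemann sphere,
that is, no nonempty finite subset of the sphere is mapped into itself by the group. For a discrete
group this is the usual notion. -/
def Nonelementary (Γ : Subgroup PSL2) : Prop :=
  ∀ S : Set Sphere, S.Finite → S.Nonempty → ∃ γ ∈ Γ, ∃ p ∈ S, γ • p ∉ S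

/-- The seven values of `tr [f, g]`. -/
def tanValues : Set ℂ :=
  {0, 1 + Complex.I, 1 - Complex.I, (1 + Real.sqrt 3 * Complex.I) / 2,
    (1 - Real.sqrt 3 * Complex.I) / 2, (3 + Real.sqrt 3 * Complex.I) / 2,
    (3 - Real.sqrt 3 * Complex.I) / 2}

/-- The eight values of `tr² f`. -/
def gmtValues : Set ℂ :=
  {0, 2, 1 + Complex.I, 1 - Complex.I, (1 + Real.sqrt 3 * Complex.I) / 2,
    (1 - Real.sqrt 3 * Complex.I) / 2, (3 + Real.sqrt 3 * Complex.I) / 2,
    (3 - Real.sqrt 3 * Complex.I) / 2}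

end Pool.Agent.H811.Tan
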