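import Pool.Agent.H811.Tan.Realize

/-!
# Realization of the values
-/

namespace Pool.Agent.H811.Tan

open Matrix Filter Topology

set_option linter.unusedVariables false
set_option linter.unusedSimpArgs false

/-- The Gaussian integers. -/
def gaussRing : Subring ℂ where
  carrier := {r | ∃ a b : ℤ, r = a + b * Complex.I}
  one_mem' := ⟨1, 0, by simp⟩
  zero_mem' := ⟨0, 0, by simp⟩
  add_mem' := by
    rintro _ _ ⟨a, b, rfl⟩ ⟨c, d, rfl⟩
    exact ⟨a + c, b + d, by push_cast; ring⟩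
  neg_mem' := by
    rintro _ ⟨a, b, rfl⟩
    exact ⟨-a, -b, by push_cast; ring⟩
  mul_mem' := by
    rintro _ _ ⟨a, b, rfl⟩ ⟨c, d, rfl⟩
    refine ⟨a * c - b * d, a * d + b * c, ?_⟩
    push_cast
    linear_combination ((b : ℂ) * d) * Complex.I_sq

theorem discRing_gauss : DiscRing gaussRing := by
  rintro _ ⟨a, b, rfl⟩ h
  have h1 : ‖(a : ℂ) + b * Complex.I‖ ^ 2 = (a : ℝ) ^ 2 + (b : ℝ) ^ 2 := by
    rw [← Complex.normSq_eq_norm_sq, Complex.normSq_apply]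
    simp
    ring
  have h2 : (a : ℝ) ^ 2 + (b : ℝ) ^ 2 < 1 := by
    rw [← h1]
    nlinarith [norm_nonneg ((a : ℂ) + b * Complex.I)]
  have h3 : a ^ 2 + b ^ 2 < 1 := by exact_mod_cast h2
  have ha : a = 0 := by
    have : a ^ 2 = 0 := by nlinarith [sq_nonneg a, sq_nonneg b]
    exact pow_eq_zero_iff (two_ne_zero) |>.1 this
  have hb : b = 0 := by
    have : b ^ 2 = 0 := by nlinarith [sq_nonneg a, sq_nonneg b]
    exact pow_eq_zero_iff (two_ne_zero) |>.1 this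
  rw [ha, hb]; simp

/-- The primitive cube root of unity. -/
noncomputable def om : ℂ := (-1 + Real.sqrt 3 * Complex.I) / 2

theorem sqrt3_sq : ((Real.sqrt 3 : ℝ) : ℂ) ^ 2 = 3 := by
  rw [← Complex.ofReal_pow, Real.sq_sqrt (by norm_num)]; norm_num

theorem om_sq : om ^ 2 = -om - 1 := by
  unfold om
  linear_combination (Real.sqrt 3 ^ 2 / 4) * Complex.I_sq - (1 / 4) * sqrt3_sq

/-- The Eisenstein integers. -/
def eisRing : Subring ℂ where
  carrier := {r | ∃ a b : ℤ, r = a + b * om}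
  one_mem' := ⟨1, 0, by simp⟩
  zero_mem' := ⟨0, 0, by simp⟩
  add_mem' := by
    rintro _ _ ⟨a, b, rfl⟩ ⟨c, d, rfl⟩
    exact ⟨a + c, b + d, by push_cast; ring⟩
  neg_mem' := by
    rintro _ ⟨a, b, rfl⟩
    exact ⟨-a, -b, by push_cast; ring⟩
  mul_mem' := by
    rintro _ _ ⟨a, b, rfl⟩ ⟨c, d, rfl⟩
    refine ⟨a * c - b * d, a * d + b * c - b * d, ?_⟩
    push_cast
    linear_combination ((b : ℂ) * d) * om_sq

theorem discRing_eis : DiscRing eisRing := by
  rintro _ ⟨a, b, rfl⟩ h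
  have h1 : ‖(a : ℂ) + b * om‖ ^ 2 = (a : ℝ) ^ 2 - a * b + (b : ℝ) ^ 2 := by
    rw [← Complex.normSq_eq_norm_sq, Complex.normSq_apply]
    unfold om
    simp
    nlinarith [Real.sq_sqrt (show (0 : ℝ) ≤ 3 by norm_num)]
  have h2 : (a : ℝ) ^ 2 - a * b + (b : ℝ) ^ 2 < 1 := by
    rw [← h1]
    nlinarith [norm_nonneg ((a : ℂ) + b * om)]
  have h3 : a ^ 2 - a * b + b ^ 2 < 1 := by exact_mod_cast h2
  have h4 : a ^ 2 - a * b + b ^ 2 ≤ 0 := by omega
  have ha : a = 0 := by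
    have : a ^ 2 = 0 := by nlinarith [sq_nonneg (a - 2 * b), sq_nonneg a]
    exact pow_eq_zero_iff (two_ne_zero) |>.1 this
  subst ha
  have hb : b = 0 := by
    have : b ^ 2 = 0 := by nlinarith [sq_nonneg b]
    exact pow_eq_zero_iff (two_ne_zero) |>.1 this
  rw [hb]; simp

/-- The pair with given traces. -/
theorem exists_pair (t z : ℂ) : ∃ F H : SL2, tr F = t ∧ tr H = t ∧ tr (F * H) = z := by
  obtain ⟨e, he⟩ := IsAlgClosed.exists_pow_nat_eq (z ^ 2 - 4) (n := 2) (by norm_num)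
  refine ⟨mk4 0 1 (-1) t (by ring), mk4 t (-((z + e) / 2)) ((z - e) / 2) 0
    (by linear_combination (-1 / 4) * he), ?_, ?_, ?_⟩
  · unfold tr; simp
  · unfold tr; simp
  · unfold tr
    rw [mul_00, mul_11]
    simp
    ring

theorem tr_fhhf {F H : SL2} {t z : ℂ} (hF : tr F = t) (hH : tr H = t) (hz : tr (F * H) = z) :
    tr ((F * H) * (H * F)) = t ^ 2 * z - 2 * t ^ 2 + 2 := by
  have e : (F * H) * (H * F) = F * (H * (H * (F * 1))) := by group
  rw [e]
  have := tr_of_coe hF hH hz (K := F * (H * (H * (F * 1)))) (by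
    simp only [Matrix.SpecialLinearGroup.coe_mul, one_eq_R F H, F_mul_R hF hH hz,
      H_mul_R hF hH hz, Finv_mul_R hF hH hz, Hinv_mul_R hF hH hz]
    rfl)
  rw [this]
  ring

theorem tr_comm_fricke (A B : SL2) : tr (A⁻¹ * B⁻¹ * A * B)
    = tr A ^ 2 + tr B ^ 2 + tr (A * B) ^ 2 - tr A * tr B * tr (A * B) - 2 := by
  rw [tr_comm_eq, ← fricke]
  congr 1
  group

/-- Realization of irreducible pairs. -/
theorem realize {𝒪 : Subring ℂ} (h𝒪 : DiscRing 𝒪) {x z : ℂ} (hx : x ∈ 𝒪) (hz : z ∈ 𝒪)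
    (h1 : z ≠ 2) (h2 : z + 2 - x ≠ 0) : ∃ F G H : SL2, tr F ^ 2 = x ∧ tr H = tr F ∧
      tr (F * H) = z ∧ G * F⁻¹ * G⁻¹ = H ∧
      DiscreteTopology (Subgroup.closure {(F : PSL2), (G : PSL2)}) := by
  obtain ⟨t, ht⟩ := IsAlgClosed.exists_pow_nat_eq x (n := 2) (by norm_num)
  obtain ⟨F, H, hF, hH, hFH⟩ := exists_pair t z
  have hd := disc_lat h𝒪 hF hH hFH (by rw [ht]; exact hx) hz h1 (by rw [ht]; exact h2)
  have htr : tr F = tr H⁻¹ := by rw [tr_inv, hF, hH]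
  have htr2 : tr (H⁻¹ * F) ≠ 2 := by
    have e : tr (H⁻¹ * F) = x - z := by
      rw [← ht]
      nth_rw 1 [← hF]
      rw [← hFH]
      have : (tr F) ^ 2 = tr F * tr H := by rw [hF, hH]; ring
      rw [this]
      unfold tr
      simp only [mul_00, mul_11, inv_00, inv_01, inv_10, inv_11]
      ring
    rw [e]
    intro h3
    apply h2
    linear_combination -h3
  obtain ⟨G, g1, g2, g3, -⟩ := exists_root htr htr2
  set Γ₀ : Subgroup SL2 := Subgroup.closure {F, H, -1} with hΓ₀def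
  have hF0 : F ∈ Γ₀ := Subgroup.subset_closure (by simp)
  have hH0 : H ∈ Γ₀ := Subgroup.subset_closure (by simp)
  have hm0 : (-1 : SL2) ∈ Γ₀ := Subgroup.subset_closure (by simp)
  have hGG : G * G ∈ Γ₀ := by
    rw [g1, ← neg_one_mul]
    exact Γ₀.mul_mem hm0 (Γ₀.mul_mem (Γ₀.inv_mem hH0) hF0)
  have g4 : G * H * G⁻¹ = (H⁻¹ * F * (H⁻¹)⁻¹)⁻¹ := by
    rw [← g3]; group
  have hn1 : ∀ γ ∈ Γ₀, G * γ * G⁻¹ ∈ Γ₀ := by
    intro γ hγ
    induction hγ using Subgroup.closure_induction with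
    | mem y hy =>
      rcases hy with rfl | rfl | rfl
      · rw [g2]; exact Γ₀.inv_mem hH0
      · rw [g4]
        exact Γ₀.inv_mem (Γ₀.mul_mem (Γ₀.mul_mem (Γ₀.inv_mem hH0) hF0)
          (Γ₀.inv_mem (Γ₀.inv_mem hH0)))
      · have : G * (-1) * G⁻¹ = -1 := by simp
        rw [this]; exact hm0
    | one => rw [mul_one, mul_inv_cancel]; exact Γ₀.one_mem
    | mul a b ha hb iha ihb =>
      have : G * (a * b) * G⁻¹ = (G * a * G⁻¹) * (G * b * G⁻¹) := by group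
      rw [this]; exact Γ₀.mul_mem iha ihb
    | inv a ha ih =>
      have : G * a⁻¹ * G⁻¹ = (G * a * G⁻¹)⁻¹ := by group
      rw [this]; exact Γ₀.inv_mem ih
  have hn2 : ∀ γ ∈ Γ₀, G⁻¹ * γ * G ∈ Γ₀ := by
    intro γ hγ
    have : G⁻¹ * γ * G = (G * G)⁻¹ * (G * γ * G⁻¹) * (G * G) := by group
    rw [this]
    exact Γ₀.mul_mem (Γ₀.mul_mem (Γ₀.inv_mem hGG) (hn1 γ hγ)) hGG
  have hΓ₁ := disc_extend hd hn1 hn2 hGG
  refine ⟨F, G, H, by rw [hF, ht], by rw [hF, hH], hFH, ?_, ?_⟩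
  · have : G * F⁻¹ * G⁻¹ = (G * F * G⁻¹)⁻¹ := by group
    rw [this, g2, inv_inv]
  · exact discrete_closure hΓ₁ (Or.inl hF0) (Or.inr hGG) (Or.inl hm0)

/-- Realization in the first family. -/
theorem realize_tan {𝒪 : Subring ℂ} (h𝒪 : DiscRing 𝒪) {z : ℂ} (hz : z ∈ 𝒪) (him : z.im ≠ 0) :
    ∃ f g : PSL2, DiscreteTopology (Subgroup.closure {f, g}) ∧
      Nonelementary (Subgroup.closure {f, g}) ∧ trSq f = 2 ∧ trComm f g = z := by
  have hz0 : z ≠ 0 := by rintro rfl; exact him rfl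
  have hz2 : z ≠ 2 := by rintro rfl; exact him rfl
  obtain ⟨F, G, H, h1, h2, h3, h4, h5⟩ := realize h𝒪 (x := 2)
    (by have := 𝒪.add_mem 𝒪.one_mem 𝒪.one_mem; rwa [one_add_one_eq_two] at this) hz hz2
    (by rwa [show z + 2 - 2 = z by ring])
  refine ⟨F, G, h5, ?_, h1, ?_⟩
  · have hF : (F : PSL2) ∈ Subgroup.closure {(F : PSL2), (G : PSL2)} :=
      Subgroup.subset_closure (by simp)
    have hG : (G : PSL2) ∈ Subgroup.closure {(F : PSL2), (G : PSL2)} :=
      Subgroup.subset_closure (by simp)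
    have hH : (H : PSL2) ∈ Subgroup.closure {(F : PSL2), (G : PSL2)} := by
      rw [← h4]
      exact Subgroup.mul_mem _ (Subgroup.mul_mem _ hG (Subgroup.inv_mem _ hF))
        (Subgroup.inv_mem _ hG)
    refine nonelementary_of (A := F * H) (B := H * F) (Subgroup.mul_mem _ hF hH)
      (Subgroup.mul_mem _ hH hF) (by rw [h3]; exact him)
      (by rw [tr_mul_comm, h3]; exact him) ?_
    rw [tr_comm_fricke, tr_fhhf rfl h2 h3, h3, tr_mul_comm H F, h3, h1]
    intro h6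
    have : z * (z - 2) ^ 2 = 0 := by linear_combination (-1 / 2) * h6
    rcases mul_eq_zero.1 this with h7 | h7
    · exact hz0 h7
    · exact hz2 (sub_eq_zero.1 (pow_eq_zero_iff (two_ne_zero) |>.1 h7))
  · rw [trComm_mk, tr_comm_eq, h4, h3]

/-- Realization in the second family. -/
theorem realize_gmt {𝒪 : Subring ℂ} (h𝒪 : DiscRing 𝒪) {x : ℂ} (hx : x ∈ 𝒪) (him : x.im ≠ 0) :
    ∃ f g : PSL2, DiscreteTopology (Subgroup.closure {f, g}) ∧
      Nonelementary (Subgroup.closure {f, g}) ∧ trSq f = x ∧ trComm f g = 0 := by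
  have hx2 : x ≠ 2 := by rintro rfl; exact him rfl
  obtain ⟨F, G, H, h1, h2, h3, h4, h5⟩ := realize h𝒪 (z := 0) hx 𝒪.zero_mem (by norm_num)
    (by rw [zero_add]; exact sub_ne_zero.2 hx2.symm)
  have htr : (tr F).im ≠ 0 := by
    intro h6
    apply him
    rw [← h1, pow_two, Complex.mul_im, h6]
    ring
  refine ⟨F, G, h5, ?_, h1, ?_⟩
  · have hF : (F : PSL2) ∈ Subgroup.closure {(F : PSL2), (G : PSL2)} :=
      Subgroup.subset_closure (by simp)
    have hG : (G : PSL2) ∈ Subgroup.closure {(F : PSL2), (G : PSL2)} :=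
      Subgroup.subset_closure (by simp)
    have hH : (H : PSL2) ∈ Subgroup.closure {(F : PSL2), (G : PSL2)} := by
      rw [← h4]
      exact Subgroup.mul_mem _ (Subgroup.mul_mem _ hG (Subgroup.inv_mem _ hF))
        (Subgroup.inv_mem _ hG)
    refine nonelementary_of hF hH htr (by rw [h2]; exact htr) ?_
    rw [tr_comm_fricke, h3, h2, h1]
    intro h6
    apply hx2
    linear_combination (1 / 2) * h6
  · rw [trComm_mk, tr_comm_eq, h4, h3]

end Pool.Agent.H811.Tan
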