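import Pool.Agent.H811.Tan.Examples

/-!
# Realization of the remaining values
-/

namespace Pool.Agent.H811.Tan

open Matrix Filter Topology

set_option linter.unusedVariables false
set_option linter.unusedSimpArgs false

theorem I_mem_gauss : Complex.I ∈ gaussRing := ⟨0, 1, by simp⟩

/-- The matrices in `SL(2, ℂ)` representing elements of `PGL(2, ℤ[i])`. -/
def gaussGroup (ζ : ℂ) (hζ : ζ ^ 2 = Complex.I) : Subgroup SL2 where
  carrier := {A | (∀ i j, A i j ∈ gaussRing) ∨ (∀ i j, ζ * A i j ∈ gaussRing)}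
  one_mem' := by
    left
    intro i j
    fin_cases i <;> fin_cases j
    · show (1 : SL2) 0 0 ∈ gaussRing
      rw [one_00]; exact gaussRing.one_mem
    · show (1 : SL2) 0 1 ∈ gaussRing
      rw [one_01]; exact gaussRing.zero_mem
    · show (1 : SL2) 1 0 ∈ gaussRing
      rw [one_10]; exact gaussRing.zero_mem
    · show (1 : SL2) 1 1 ∈ gaussRing
      rw [one_11]; exact gaussRing.one_mem
  mul_mem' := by
    intro A B hA hB
    have key : ∀ i j, (A * B) i j = A i 0 * B 0 j + A i 1 * B 1 j := by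
      intro i j
      simp [Matrix.mul_apply, Fin.sum_univ_two]
    rcases hA with hA | hA <;> rcases hB with hB | hB
    · left
      intro i j
      rw [key]
      exact gaussRing.add_mem (gaussRing.mul_mem (hA _ _) (hB _ _))
        (gaussRing.mul_mem (hA _ _) (hB _ _))
    · right
      intro i j
      rw [key]
      have : ζ * (A i 0 * B 0 j + A i 1 * B 1 j) = A i 0 * (ζ * B 0 j) + A i 1 * (ζ * B 1 j) := by
        ring
      rw [this]
      exact gaussRing.add_mem (gaussRing.mul_mem (hA _ _) (hB _ _))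
        (gaussRing.mul_mem (hA _ _) (hB _ _))
    · right
      intro i j
      rw [key]
      have : ζ * (A i 0 * B 0 j + A i 1 * B 1 j) = (ζ * A i 0) * B 0 j + (ζ * A i 1) * B 1 j := by
        ring
      rw [this]
      exact gaussRing.add_mem (gaussRing.mul_mem (hA _ _) (hB _ _))
        (gaussRing.mul_mem (hA _ _) (hB _ _))
    · left
      intro i j
      rw [key]
      have : A i 0 * B 0 j + A i 1 * B 1 j
          = (-Complex.I) * ((ζ * A i 0) * (ζ * B 0 j) + (ζ * A i 1) * (ζ * B 1 j)) := by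
        linear_combination (A i 0 * B 0 j + A i 1 * B 1 j) * (Complex.I * hζ + Complex.I_sq)
      rw [this]
      exact gaussRing.mul_mem (gaussRing.neg_mem I_mem_gauss)
        (gaussRing.add_mem (gaussRing.mul_mem (hA _ _) (hB _ _))
          (gaussRing.mul_mem (hA _ _) (hB _ _)))
  inv_mem' := by
    intro A hA
    have h00 := inv_00 A
    have h01 := inv_01 A
    have h10 := inv_10 A
    have h11 := inv_11 A
    rcases hA with hA | hA
    · left
      intro i j
      fin_cases i <;> fin_cases j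
      · show (A⁻¹) 0 0 ∈ gaussRing
        rw [h00]; exact hA _ _
      · show (A⁻¹) 0 1 ∈ gaussRing
        rw [h01]; exact gaussRing.neg_mem (hA _ _)
      · show (A⁻¹) 1 0 ∈ gaussRing
        rw [h10]; exact gaussRing.neg_mem (hA _ _)
      · show (A⁻¹) 1 1 ∈ gaussRing
        rw [h11]; exact hA _ _
    · right
      intro i j
      fin_cases i <;> fin_cases j
      · show ζ * (A⁻¹) 0 0 ∈ gaussRing
        rw [h00]; exact hA _ _
      · show ζ * (A⁻¹) 0 1 ∈ gaussRing
        rw [h01, mul_neg]; exact gaussRing.neg_mem (hA _ _)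
      · show ζ * (A⁻¹) 1 0 ∈ gaussRing
        rw [h10, mul_neg]; exact gaussRing.neg_mem (hA _ _)
      · show ζ * (A⁻¹) 1 1 ∈ gaussRing
        rw [h11]; exact hA _ _

/-- The group of matrices with entries in the Gaussian integers is discrete. -/
theorem near_one_gauss {u : ℕ → SL2} (hu : ∀ n i j, u n i j ∈ gaussRing)
    (h : ∀ i j, Tendsto (fun n => u n i j) atTop (𝓝 ((1 : SL2) i j))) :
    ∀ᶠ n in atTop, u n = 1 := by
  have hmem : ∀ i j, (1 : SL2) i j ∈ gaussRing := by
    intro i j
    fin_cases i <;> fin_cases j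
    · show (1 : SL2) 0 0 ∈ gaussRing
      rw [one_00]; exact gaussRing.one_mem
    · show (1 : SL2) 0 1 ∈ gaussRing
      rw [one_01]; exact gaussRing.zero_mem
    · show (1 : SL2) 1 0 ∈ gaussRing
      rw [one_10]; exact gaussRing.zero_mem
    · show (1 : SL2) 1 1 ∈ gaussRing
      rw [one_11]; exact gaussRing.one_mem
  have key : ∀ i j, ∀ᶠ n in atTop, u n i j = (1 : SL2) i j := by
    intro i j
    have h1 : Tendsto (fun n => ‖u n i j - (1 : SL2) i j‖) atTop (𝓝 0) := by
      have := (h i j).sub_const ((1 : SL2) i j)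
      rw [sub_self] at this
      exact tendsto_zero_iff_norm_tendsto_zero.1 this
    filter_upwards [h1.eventually (gt_mem_nhds (show (0 : ℝ) < 1 by norm_num))] with n hn
    exact sub_eq_zero.1 (discRing_gauss _ (gaussRing.sub_mem (hu n i j) (hmem i j)) hn)
  filter_upwards [key 0 0, key 0 1, key 1 0, key 1 1] with n h1 h2 h3 h4
  exact sl2_ext h1 h2 h3 h4

theorem disc_gaussGroup {ζ : ℂ} (hζ : ζ ^ 2 = Complex.I) : Disc (gaussGroup ζ hζ) := by
  intro u hu h
  have key : ∀ (A B : SL2) i j, (A * B) i j = A i 0 * B 0 j + A i 1 * B 1 j := by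
    intro A B i j
    simp [Matrix.mul_apply, Fin.sum_univ_two]
  have hsq : ∀ n i j, (u n * u n) i j ∈ gaussRing := by
    intro n i j
    rw [key]
    rcases hu n with h1 | h1
    · exact gaussRing.add_mem (gaussRing.mul_mem (h1 _ _) (h1 _ _))
        (gaussRing.mul_mem (h1 _ _) (h1 _ _))
    · have : u n i 0 * u n 0 j + u n i 1 * u n 1 j
          = (-Complex.I) * ((ζ * u n i 0) * (ζ * u n 0 j) + (ζ * u n i 1) * (ζ * u n 1 j)) := by
        linear_combination (u n i 0 * u n 0 j + u n i 1 * u n 1 j) *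
          (Complex.I * hζ + Complex.I_sq)
      rw [this]
      exact gaussRing.mul_mem (gaussRing.neg_mem I_mem_gauss)
        (gaussRing.add_mem (gaussRing.mul_mem (h1 _ _) (h1 _ _))
          (gaussRing.mul_mem (h1 _ _) (h1 _ _)))
  have hlim : ∀ i j, Tendsto (fun n => (u n * u n) i j) atTop (𝓝 ((1 : SL2) i j)) := by
    have t := tendsto_SL2 h
    have t2 : Tendsto (fun n => u n * u n) atTop (𝓝 (1 * 1)) := t.mul t
    rw [one_mul] at t2
    intro i j
    have hc : Continuous (fun A : SL2 => A i j) := by fun_prop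
    exact (hc.tendsto _).comp t2
  apply eventually_one_of_sq h
  filter_upwards [near_one_gauss hsq hlim] with n hn
  exact sq_eq_one hn

/-- An example with `tr² f = 2` and `tr [f, g] = 0`. -/
theorem realize_one : ∃ f g : PSL2, DiscreteTopology (Subgroup.closure {f, g}) ∧
      Nonelementary (Subgroup.closure {f, g}) ∧ trSq f = 2 ∧ trComm f g = 0 := by
  obtain ⟨ζ, hζ⟩ := IsAlgClosed.exists_pow_nat_eq Complex.I (n := 2) (by norm_num)
  have hI := Complex.I_sq
  have hζ4 : ζ ^ 4 = -1 := by linear_combination (ζ ^ 2 + Complex.I) * hζ + hI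
  let F : SL2 := mk4 ζ 0 0 (-ζ ^ 3) (by linear_combination -hζ4)
  let G : SL2 := mk4 (-Complex.I) (-Complex.I) (-Complex.I) 0 (by linear_combination -hI)
  have f00 : F 0 0 = ζ := rfl
  have f01 : F 0 1 = 0 := rfl
  have f10 : F 1 0 = 0 := rfl
  have f11 : F 1 1 = -ζ ^ 3 := rfl
  have g00 : G 0 0 = -Complex.I := rfl
  have g01 : G 0 1 = -Complex.I := rfl
  have g10 : G 1 0 = -Complex.I := rfl
  have g11 : G 1 1 = 0 := rfl
  have hI2 := gaussRing.neg_mem I_mem_gauss
  have hF : F ∈ gaussGroup ζ hζ := by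
    right
    intro i j
    fin_cases i <;> fin_cases j
    · show ζ * F 0 0 ∈ gaussRing
      rw [f00, show ζ * ζ = Complex.I by linear_combination hζ]; exact I_mem_gauss
    · show ζ * F 0 1 ∈ gaussRing
      rw [f01, mul_zero]; exact gaussRing.zero_mem
    · show ζ * F 1 0 ∈ gaussRing
      rw [f10, mul_zero]; exact gaussRing.zero_mem
    · show ζ * F 1 1 ∈ gaussRing
      rw [f11, show ζ * -ζ ^ 3 = 1 by linear_combination -hζ4]; exact gaussRing.one_mem
  have hG : G ∈ gaussGroup ζ hζ := by
    left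
    intro i j
    fin_cases i <;> fin_cases j
    · show G 0 0 ∈ gaussRing
      rw [g00]; exact hI2
    · show G 0 1 ∈ gaussRing
      rw [g01]; exact hI2
    · show G 1 0 ∈ gaussRing
      rw [g10]; exact hI2
    · show G 1 1 ∈ gaussRing
      rw [g11]; exact gaussRing.zero_mem
  have hm : (-1 : SL2) ∈ gaussGroup ζ hζ := by
    have : (-1 : SL2) = F * F * (F * F) := by
      refine sl2_ext ?_ ?_ ?_ ?_
      · simp only [mul_00, mul_01, mul_10, mul_11, f00, f01, f10, f11]
        simp only [Matrix.SpecialLinearGroup.coe_neg, Matrix.neg_apply, one_00]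
        linear_combination -hζ4
      · simp only [mul_00, mul_01, mul_10, mul_11, f00, f01, f10, f11]
        simp only [Matrix.SpecialLinearGroup.coe_neg, Matrix.neg_apply, one_01]
        ring
      · simp only [mul_00, mul_01, mul_10, mul_11, f00, f01, f10, f11]
        simp only [Matrix.SpecialLinearGroup.coe_neg, Matrix.neg_apply, one_10]
        ring
      · simp only [mul_00, mul_01, mul_10, mul_11, f00, f01, f10, f11]
        simp only [Matrix.SpecialLinearGroup.coe_neg, Matrix.neg_apply, one_11]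
        linear_combination (-(ζ ^ 8 - ζ ^ 4 + 1)) * hζ4
    rw [this]
    exact Subgroup.mul_mem _ (Subgroup.mul_mem _ hF hF) (Subgroup.mul_mem _ hF hF)
  have htrF : tr F ^ 2 = 2 := by
    unfold tr
    rw [f00, f11]
    linear_combination (ζ ^ 2 - 2) * hζ4
  have htrG : tr G = -Complex.I := by
    unfold tr
    rw [g00, g11, add_zero]
  refine ⟨F, G, discrete_closure (disc_gaussGroup hζ) hF hG hm, ?_, htrF, ?_⟩
  · have hF' : (F : PSL2) ∈ Subgroup.closure {(F : PSL2), (G : PSL2)} :=
      Subgroup.subset_closure (by simp)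
    have hG' : (G : PSL2) ∈ Subgroup.closure {(F : PSL2), (G : PSL2)} :=
      Subgroup.subset_closure (by simp)
    have him : (tr G).im ≠ 0 := by rw [htrG]; simp
    refine nonelementary_of (A := G) (B := F * G * F⁻¹) hG'
      (Subgroup.mul_mem _ (Subgroup.mul_mem _ hF' hG') (Subgroup.inv_mem _ hF'))
      him (by rw [tr_conj]; exact him) ?_
    have e : tr (G * (F * G * F⁻¹)) = -1 := by
      unfold tr
      simp only [mul_00, mul_01, mul_10, mul_11, inv_00, inv_01, inv_10, inv_11, f00, f01, f10,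
        f11, g00, g01, g10, g11]
      linear_combination (ζ ^ 2 - ζ ^ 4 + ζ ^ 6) * hI + (1 - ζ ^ 2) * hζ4
    rw [tr_comm_fricke, tr_conj, e, htrG]
    intro h
    have : (6 : ℂ) = 0 := by linear_combination (-1) * h + 3 * hI
    norm_num at this
  · rw [trComm_mk, tr_comm_eq, tr_comm_diag f01 f10, g01, g10, f00, f11]
    linear_combination (ζ ^ 2 + 2) * hζ4 - (ζ + ζ ^ 3) ^ 2 * hI

/-- An example with `tr² f = 0` and `tr [f, g] = 0`. -/
theorem realize_zero : ∃ f g : PSL2, DiscreteTopology (Subgroup.closure {f, g}) ∧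
      Nonelementary (Subgroup.closure {f, g}) ∧ trSq f = 0 ∧ trComm f g = 0 := by
  obtain ⟨t, ht⟩ := IsAlgClosed.exists_pow_nat_eq (1 + Complex.I) (n := 2) (by norm_num)
  obtain ⟨e, he⟩ := IsAlgClosed.exists_pow_nat_eq (t ^ 2 - 2) (n := 2) (by norm_num)
  have hI := Complex.I_sq
  let F : SL2 := mk4 Complex.I 0 0 (-Complex.I) (by linear_combination -hI)
  let G : SL2 := mk4 ((t + e) / 2) 1 (-1 / 2) ((t - e) / 2) (by linear_combination (-1 / 4) * he)
  have f00 : F 0 0 = Complex.I := rfl
  have f01 : F 0 1 = 0 := rfl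
  have f10 : F 1 0 = 0 := rfl
  have f11 : F 1 1 = -Complex.I := rfl
  have g00 : G 0 0 = (t + e) / 2 := rfl
  have g01 : G 0 1 = 1 := rfl
  have g10 : G 1 0 = -1 / 2 := rfl
  have g11 : G 1 1 = (t - e) / 2 := rfl
  have htrG : tr G = t := by unfold tr; rw [g00, g11]; ring
  have htrK : tr (F * G * F⁻¹) = t := by rw [tr_conj, htrG]
  have hGK : tr (G * (F * G * F⁻¹)) = 1 + Complex.I := by
    unfold tr
    simp only [mul_00, mul_01, mul_10, mul_11, inv_00, inv_01, inv_10, inv_11, f00, f01, f10,
      f11, g00, g01, g10, g11]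
    linear_combination (-((t ^ 2 + e ^ 2) / 2 + 1)) * hI + (1 / 2) * he + ht
  have hgi : (1 + Complex.I) ∈ gaussRing := ⟨1, 1, by simp⟩
  have hd := disc_lat discRing_gauss htrG htrK hGK (by rw [ht]; exact hgi) hgi
    (by intro h; have := congrArg Complex.im h; simp at this)
    (by rw [ht]; ring_nf; norm_num)
  set K := F * G * F⁻¹ with hK
  have hFF : F * F = -1 := by
    refine sl2_ext ?_ ?_ ?_ ?_
    · simp only [mul_00, mul_01, mul_10, mul_11, f00, f01, f10, f11]
      simp only [Matrix.SpecialLinearGroup.coe_neg, Matrix.neg_apply, one_00]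
      linear_combination hI
    · simp only [mul_00, mul_01, mul_10, mul_11, f00, f01, f10, f11]
      simp only [Matrix.SpecialLinearGroup.coe_neg, Matrix.neg_apply, one_01]
      ring
    · simp only [mul_00, mul_01, mul_10, mul_11, f00, f01, f10, f11]
      simp only [Matrix.SpecialLinearGroup.coe_neg, Matrix.neg_apply, one_10]
      ring
    · simp only [mul_00, mul_01, mul_10, mul_11, f00, f01, f10, f11]
      simp only [Matrix.SpecialLinearGroup.coe_neg, Matrix.neg_apply, one_11]
      linear_combination hI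
  set Γ₀ : Subgroup SL2 := Subgroup.closure {G, K, -1} with hΓ₀def
  have hG0 : G ∈ Γ₀ := Subgroup.subset_closure (by simp)
  have hK0 : K ∈ Γ₀ := Subgroup.subset_closure (by simp)
  have hm0 : (-1 : SL2) ∈ Γ₀ := Subgroup.subset_closure (by simp)
  have hFF0 : F * F ∈ Γ₀ := by rw [hFF]; exact hm0
  have hn1 : ∀ γ ∈ Γ₀, F * γ * F⁻¹ ∈ Γ₀ := by
    intro γ hγ
    induction hγ using Subgroup.closure_induction with
    | mem y hy =>
      rcases hy with rfl | rfl | rfl
      · exact hK0
      · have : F * (F * G * F⁻¹) * F⁻¹ = (F * F) * G * (F * F)⁻¹ := by group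
        rw [this, hFF]
        simpa using hG0
      · have : F * (-1) * F⁻¹ = -1 := by simp
        rw [this]; exact hm0
    | one => rw [mul_one, mul_inv_cancel]; exact Γ₀.one_mem
    | mul a b ha hb iha ihb =>
      have : F * (a * b) * F⁻¹ = (F * a * F⁻¹) * (F * b * F⁻¹) := by group
      rw [this]; exact Γ₀.mul_mem iha ihb
    | inv a ha ih =>
      have : F * a⁻¹ * F⁻¹ = (F * a * F⁻¹)⁻¹ := by group
      rw [this]; exact Γ₀.inv_mem ih
  have hn2 : ∀ γ ∈ Γ₀, F⁻¹ * γ * F ∈ Γ₀ := by
    intro γ hγ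
    have : F⁻¹ * γ * F = (F * F)⁻¹ * (F * γ * F⁻¹) * (F * F) := by group
    rw [this]
    exact Γ₀.mul_mem (Γ₀.mul_mem (Γ₀.inv_mem hFF0) (hn1 γ hγ)) hFF0
  have hΓ₁ := disc_extend hd hn1 hn2 hFF0
  refine ⟨F, G, discrete_closure hΓ₁ (Or.inr hFF0) (Or.inl hG0) (Or.inl hm0), ?_, ?_, ?_⟩
  · have hF' : (F : PSL2) ∈ Subgroup.closure {(F : PSL2), (G : PSL2)} :=
      Subgroup.subset_closure (by simp)
    have hG' : (G : PSL2) ∈ Subgroup.closure {(F : PSL2), (G : PSL2)} :=
      Subgroup.subset_closure (by simp)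
    have him : t.im ≠ 0 := by
      intro h
      have h2 := congrArg Complex.im ht
      rw [pow_two, Complex.mul_im, h] at h2
      simp at h2
    refine nonelementary_of (A := G) (B := K) hG'
      (Subgroup.mul_mem _ (Subgroup.mul_mem _ hF' hG') (Subgroup.inv_mem _ hF'))
      (by rw [htrG]; exact him) (by rw [htrK]; exact him) ?_
    rw [tr_comm_fricke, htrG, htrK, hGK]
    intro h
    have h2 : Complex.I = 1 := by
      linear_combination (1 / 2) * h - (1 / 2) * (1 - Complex.I) * ht
    have := congrArg Complex.im h2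
    simp at this
  · rw [trSq_mk]
    unfold tr
    rw [f00, f11]
    ring
  · rw [trComm_mk, tr_comm_eq, tr_comm_diag f01 f10, g01, g10, f00, f11]
    linear_combination 2 * hI

end Pool.Agent.H811.Tan
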