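import Pool.Agent.H811.Tan.Pair

/-!
# The square root of the commutator
-/

namespace Pool.Agent.H811.Tan

open Matrix Filter Topology

set_option linter.unusedVariables false
set_option linter.unusedSimpArgs false

/-- The group `Γ ∪ Γ e`, where `e` normalizes `Γ` and `e² ∈ Γ`. -/
def extend (Γ : Subgroup SL2) (e : SL2) (h1 : ∀ γ ∈ Γ, e * γ * e⁻¹ ∈ Γ)
    (h2 : ∀ γ ∈ Γ, e⁻¹ * γ * e ∈ Γ) (he : e * e ∈ Γ) : Subgroup SL2 where
  carrier := {γ | γ ∈ Γ ∨ γ * e ∈ Γ}
  one_mem' := Or.inl Γ.one_mem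
  mul_mem' := by
    rintro a b (ha | ha) (hb | hb)
    · exact Or.inl (Γ.mul_mem ha hb)
    · right
      rw [mul_assoc]; exact Γ.mul_mem ha hb
    · right
      have : a * b * e = (a * e) * (e⁻¹ * b * e) := by group
      rw [this]; exact Γ.mul_mem ha (h2 b hb)
    · left
      have : a * b = (a * e) * (e⁻¹ * (b * e) * e) * (e * e)⁻¹ := by group
      rw [this]; exact Γ.mul_mem (Γ.mul_mem ha (h2 _ hb)) (Γ.inv_mem he)
  inv_mem' := by
    rintro a (ha | ha)
    · exact Or.inl (Γ.inv_mem ha)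
    · right
      have : a⁻¹ * e = (e * (a * e)⁻¹ * e⁻¹) * (e * e) := by group
      show a⁻¹ * e ∈ Γ
      rw [this]; exact Γ.mul_mem (h1 _ (Γ.inv_mem ha)) he

/-- If the squares are eventually trivial and the sequence tends to `1`, then it is eventually
trivial. -/
theorem eventually_one_of_sq {u : ℕ → SL2}
    (h : ∀ i j, Tendsto (fun n => u n i j) atTop (𝓝 ((1 : SL2) i j)))
    (h2 : ∀ᶠ n in atTop, u n = 1 ∨ u n = -1) : ∀ᶠ n in atTop, u n = 1 := by
  have h00 := h 0 0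
  rw [one_00] at h00
  have hne : ∀ᶠ n in atTop, u n 0 0 ≠ -1 := by
    have : ∀ᶠ n in atTop, u n 0 0 ∈ ({-1} : Set ℂ)ᶜ :=
      h00.eventually (isOpen_compl_singleton.mem_nhds (by
        simp only [Set.mem_compl_iff, Set.mem_singleton_iff]
        norm_num))
    exact this
  filter_upwards [h2, hne] with n h3 h4
  rcases h3 with h3 | h3
  · exact h3
  · exfalso
    apply h4
    rw [h3]; simp

theorem disc_extend {Γ : Subgroup SL2} (hΓ : Disc Γ) {e : SL2} (h1 : ∀ γ ∈ Γ, e * γ * e⁻¹ ∈ Γ)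
    (h2 : ∀ γ ∈ Γ, e⁻¹ * γ * e ∈ Γ) (he : e * e ∈ Γ) : Disc (extend Γ e h1 h2 he) := by
  intro u hu h
  have hsq : ∀ n, u n * u n ∈ Γ := by
    intro n
    rcases hu n with h3 | h3
    · exact Γ.mul_mem h3 h3
    · have : u n * u n = (u n * e) * (e⁻¹ * (u n * e) * e) * (e * e)⁻¹ := by group
      rw [this]; exact Γ.mul_mem (Γ.mul_mem h3 (h2 _ h3)) (Γ.inv_mem he)
  have hlim : ∀ i j, Tendsto (fun n => (u n * u n) i j) atTop (𝓝 ((1 : SL2) i j)) := by
    have t := tendsto_SL2 h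
    have t2 : Tendsto (fun n => u n * u n) atTop (𝓝 (1 * 1)) := t.mul t
    rw [one_mul] at t2
    intro i j
    have hc : Continuous (fun A : SL2 => A i j) := by fun_prop
    exact (hc.tendsto _).comp t2
  refine eventually_one_of_sq h ?_
  filter_upwards [hΓ _ hsq hlim] with n hn
  exact sq_eq_one hn

theorem disc_mono {Γ Δ : Subgroup SL2} (hΓ : Disc Γ) (h : Δ ≤ Γ) : Disc Δ :=
  fun u hu hl => hΓ u (fun n => h (hu n)) hl

/-- A square root of `- F H`. -/
theorem exists_root {F H : SL2} (h : tr H = tr F) (hz : tr (F * H) ≠ 2) :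
    ∃ D : SL2, D * D = -(F * H) ∧ D * H * D⁻¹ = F ∧ D * F * D⁻¹ = F * H * F⁻¹ ∧
      tr D ^ 2 = 2 - tr (F * H) := by
  obtain ⟨δ, hδ⟩ := IsAlgClosed.exists_pow_nat_eq (2 - tr (F * H)) (n := 2) (by norm_num)
  have hδ0 : δ ≠ 0 := by
    rintro rfl
    apply hz
    linear_combination hδ
  have hF := det_eq F
  have hH := det_eq H
  have hFH := det_eq (F * H)
  have ht : H 1 1 = F 0 0 + F 1 1 - H 0 0 := by unfold tr at h; linear_combination h
  have hδ2 : δ ^ 2 = 2 - ((F * H) 0 0 + (F * H) 1 1) := hδ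
  have hdet : (((F * H) 0 0 - 1) / δ) * (((F * H) 1 1 - 1) / δ)
      - ((F * H) 0 1 / δ) * ((F * H) 1 0 / δ) = 1 := by
    field_simp
    linear_combination hFH - hδ2
  set D : SL2 := mk4 (((F * H) 0 0 - 1) / δ) ((F * H) 0 1 / δ) ((F * H) 1 0 / δ)
    (((F * H) 1 1 - 1) / δ) hdet with hD
  have d00 : D 0 0 = ((F * H) 0 0 - 1) / δ := rfl
  have d01 : D 0 1 = (F * H) 0 1 / δ := rfl
  have d10 : D 1 0 = (F * H) 1 0 / δ := rfl
  have d11 : D 1 1 = ((F * H) 1 1 - 1) / δ := rfl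
  have hF00 := mul_00 F H
  have hF01 := mul_01 F H
  have hF10 := mul_10 F H
  have hF11 := mul_11 F H
  unfold tr at h
  refine ⟨D, ?_, ?_, ?_, ?_⟩
  · refine sl2_ext ?_ ?_ ?_ ?_
    · rw [mul_00, d00, d01, d10]
      show _ = -((F * H) 0 0)
      field_simp
      linear_combination ((F * H) 0 0) * hδ2 - hFH
    · rw [mul_01, d00, d01, d11]
      show _ = -((F * H) 0 1)
      field_simp
      linear_combination ((F * H) 0 1) * hδ2
    · rw [mul_10, d00, d10, d11]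
      show _ = -((F * H) 1 0)
      field_simp
      linear_combination ((F * H) 1 0) * hδ2
    · rw [mul_11, d01, d10, d11]
      show _ = -((F * H) 1 1)
      field_simp
      linear_combination ((F * H) 1 1) * hδ2 - hFH
  · rw [mul_inv_eq_iff_eq_mul]
    refine sl2_ext ?_ ?_ ?_ ?_
    · rw [mul_00, mul_00 F D, d00, d01, d10, hF00, hF01, hF10]
      field_simp
      linear_combination (F 0 0 * H 0 0 + F 0 1 * H 1 0) * h - F 0 0 * hH + H 0 0 * hF
    · rw [mul_01, mul_01 F D, d00, d01, d11, hF00, hF01, hF11]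
      field_simp
      linear_combination (F 0 0 * H 0 1 + F 0 1 * H 1 1) * h - F 0 1 * hH + H 0 1 * hF
    · rw [mul_10, mul_10 F D, d00, d10, d11, hF00, hF10, hF11]
      field_simp
      linear_combination (F 1 0 * H 0 0 + F 1 1 * H 1 0) * h - F 1 0 * hH + H 1 0 * hF
    · rw [mul_11, mul_11 F D, d01, d10, d11, hF01, hF10, hF11]
      field_simp
      linear_combination (F 1 0 * H 0 1 + F 1 1 * H 1 1) * h - F 1 1 * hH + H 1 1 * hF
  · rw [mul_inv_eq_iff_eq_mul]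
    refine sl2_ext ?_ ?_ ?_ ?_
    · simp only [mul_00, mul_01, mul_10, mul_11, inv_00, inv_01, inv_10, inv_11, d00, d01, d10, d11]
      field_simp
      linear_combination (-(F 0 0 * H 0 0 + F 0 1 * H 1 0)) * h + F 0 0 * hH
        - ((F 0 0 * H 0 0 + F 0 1 * H 1 0) * H 0 0 + (F 0 0 * H 0 1 + F 0 1 * H 1 1) * H 1 0) * hF
    · simp only [mul_00, mul_01, mul_10, mul_11, inv_00, inv_01, inv_10, inv_11, d00, d01, d10, d11]
      field_simp
      linear_combination (-(F 0 0 * H 0 1 + F 0 1 * H 1 1)) * h + F 0 1 * hH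
        - ((F 0 0 * H 0 0 + F 0 1 * H 1 0) * H 0 1 + (F 0 0 * H 0 1 + F 0 1 * H 1 1) * H 1 1) * hF
    · simp only [mul_00, mul_01, mul_10, mul_11, inv_00, inv_01, inv_10, inv_11, d00, d01, d10, d11]
      field_simp
      linear_combination (-(F 1 0 * H 0 0 + F 1 1 * H 1 0)) * h + F 1 0 * hH
        - ((F 1 0 * H 0 0 + F 1 1 * H 1 0) * H 0 0 + (F 1 0 * H 0 1 + F 1 1 * H 1 1) * H 1 0) * hF
    · simp only [mul_00, mul_01, mul_10, mul_11, inv_00, inv_01, inv_10, inv_11, d00, d01, d10, d11]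
      field_simp
      linear_combination (-(F 1 0 * H 0 1 + F 1 1 * H 1 1)) * h + F 1 1 * hH
        - ((F 1 0 * H 0 0 + F 1 1 * H 1 0) * H 0 1 + (F 1 0 * H 0 1 + F 1 1 * H 1 1) * H 1 1) * hF
  · unfold tr
    rw [d00, d11]
    have e : (((F * H) 0 0 - 1) / δ + ((F * H) 1 1 - 1) / δ) ^ 2
      = (2 - ((F * H) 0 0 + (F * H) 1 1)) ^ 2 / δ ^ 2 := by field_simp; ring
    rw [e, ← hδ2]
    field_simp

end Pool.Agent.H811.Tan
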