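import Pool.Agent.H811.Tan.Defs

/-!
# The quadratic iteration for discrete subgroups of `SL(2, ℂ)`

For `F, H` in a discrete group with `tr F = tr H`, put `s = tr² F - 2`, `w = tr (F H) - 1`.
The passage `H ↦ H⁻¹ F⁻¹ H` changes `w` into `w² - s w + s`, so `v = w - s` becomes `v w`.
If the numbers `w` stay bounded by a constant less than `1`, then `v` vanishes at some time.
-/

namespace Pool.Agent.H811.Tan

open Matrix Filter Topology

set_option linter.unusedSimpArgs false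

theorem tr_mul_comm (A B : SL2) : tr (A * B) = tr (B * A) := by
  simp only [tr, mul_00, mul_11]; ring

theorem tr_inv (A : SL2) : tr A⁻¹ = tr A := by
  simp only [tr, inv_00, inv_11]; ring

theorem tr_conj (P A : SL2) : tr (P * A * P⁻¹) = tr A := by
  rw [tr_mul_comm, ← mul_assoc, inv_mul_cancel, one_mul]

theorem tendsto_SL2 {u : ℕ → SL2} {A : SL2} (h : ∀ i j, Tendsto (fun n => u n i j) atTop (𝓝 (A i j))) :
    Tendsto u atTop (𝓝 A) := by
  have hi := (Matrix.SpecialLinearGroup.isClosedEmbedding_val (n := Fin 2) (R := ℂ)).isInducing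
  refine hi.tendsto_nhds_iff.2 ?_
  exact tendsto_pi_nhds.2 fun i => tendsto_pi_nhds.2 fun j => h i j

/-- Sequential discreteness: a sequence in the group tending to `1` is eventually `1`. -/
def Disc (Γ : Subgroup SL2) : Prop :=
  ∀ u : ℕ → SL2, (∀ n, u n ∈ Γ) → (∀ i j, Tendsto (fun n => u n i j) atTop (𝓝 ((1 : SL2) i j))) →
    ∀ᶠ n in atTop, u n = 1

/-- In a discrete group a sequence tending to `1` is eventually `1`. -/
theorem disc_of_discrete {Γ : Subgroup SL2} (hΓ : DiscreteTopology Γ) : Disc Γ := by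
  intro u hu h
  have h1 : Tendsto u atTop (𝓝 1) := tendsto_SL2 h
  have h2 : Tendsto (fun n => (⟨u n, hu n⟩ : Γ)) atTop (𝓝 (1 : Γ)) := by
    rw [tendsto_subtype_rng]
    exact h1
  rw [nhds_discrete, tendsto_pure] at h2
  filter_upwards [h2] with n hn
  exact congrArg Subtype.val hn

/-- The iteration `H ↦ H⁻¹ F⁻¹ H`. -/
def nxt (F H : SL2) : SL2 := H⁻¹ * F⁻¹ * H

/-- The iterated sequence. -/
def Hs (F H : SL2) : ℕ → SL2
  | 0 => H
  | n + 1 => nxt F (Hs F H n)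

/-- `w = tr (F H) - 1`. -/
def ww (F H : SL2) : ℂ := tr (F * H) - 1

/-- `s = tr² F - 2`. -/
def ss (F : SL2) : ℂ := tr F ^ 2 - 2

theorem tr_nxt (F H : SL2) : tr (nxt F H) = tr F := by
  unfold nxt
  rw [tr_mul_comm, ← mul_assoc, mul_inv_cancel, one_mul, tr_inv]

theorem tr_Hs (F H : SL2) (h : tr H = tr F) (n : ℕ) : tr (Hs F H n) = tr F := by
  induction n with
  | zero => exact h
  | succ n ih => exact tr_nxt F _

/-- Fricke's identity for the trace of a commutator. -/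
theorem fricke (A B : SL2) :
    tr (A * B * A⁻¹ * B⁻¹) = tr A ^ 2 + tr B ^ 2 + tr (A * B) ^ 2 - tr A * tr B * tr (A * B) - 2 := by
  have h1 := det_eq A
  have h2 := det_eq B
  have key : tr (A * B * A⁻¹ * B⁻¹) = tr A ^ 2 * (B 0 0 * B 1 1 - B 0 1 * B 1 0)
      + tr B ^ 2 * (A 0 0 * A 1 1 - A 0 1 * A 1 0) + tr (A * B) ^ 2 - tr A * tr B * tr (A * B)
      - 2 * (A 0 0 * A 1 1 - A 0 1 * A 1 0) * (B 0 0 * B 1 1 - B 0 1 * B 1 0) := by
    simp only [tr, mul_00, mul_01, mul_10, mul_11, inv_00, inv_01, inv_10, inv_11]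
    ring
  rw [key, h1, h2]
  ring

theorem ww_nxt (F H : SL2) (h : tr H = tr F) :
    ww F (nxt F H) = ww F H ^ 2 - ss F * ww F H + ss F := by
  unfold ww ss nxt
  have e : tr (F * (H⁻¹ * F⁻¹ * H)) = tr (H * F * H⁻¹ * F⁻¹) := by
    have : F * (H⁻¹ * F⁻¹ * H) = (F * H⁻¹ * F⁻¹) * H := by group
    rw [this, tr_mul_comm]
    congr 1
    group
  rw [e, fricke, tr_mul_comm H F, h]
  ring

/-- The iteration, conjugated by powers of `F`. -/
def Ks (F H : SL2) : ℕ → SL2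
  | 0 => H
  | n + 1 => F * nxt F (Ks F H n) * F⁻¹

theorem Ks_mem {Γ : Subgroup SL2} {F H : SL2} (hF : F ∈ Γ) (hH : H ∈ Γ) (n : ℕ) :
    Ks F H n ∈ Γ := by
  induction n with
  | zero => exact hH
  | succ n ih =>
    exact Γ.mul_mem (Γ.mul_mem hF (Γ.mul_mem (Γ.mul_mem (Γ.inv_mem ih) (Γ.inv_mem hF)) ih))
      (Γ.inv_mem hF)

theorem Ks_add (F H : SL2) (N n : ℕ) : Ks F (Ks F H N) n = Ks F H (N + n) := by
  induction n with
  | zero => rfl
  | succ n ih => rw [Ks, ih]; rfl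

theorem tr_Ks (F H : SL2) (h : tr H = tr F) (n : ℕ) : tr (Ks F H n) = tr F := by
  induction n with
  | zero => exact h
  | succ n ih => rw [Ks, tr_conj, tr_nxt]

theorem ww_Ks (F H : SL2) (h : tr H = tr F) (n : ℕ) :
    ww F (Ks F H (n + 1)) = ww F (Ks F H n) ^ 2 - ss F * ww F (Ks F H n) + ss F := by
  rw [← ww_nxt F _ (tr_Ks F H h n)]
  unfold ww
  rw [Ks]
  have : F * (F * nxt F (Ks F H n) * F⁻¹) = F * (F * nxt F (Ks F H n)) * F⁻¹ := by group
  rw [this, tr_conj]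

/-- `v = w - s`. -/
theorem vv_Ks (F H : SL2) (h : tr H = tr F) (n : ℕ) :
    ww F (Ks F H (n + 1)) - ss F = (ww F (Ks F H n) - ss F) * ww F (Ks F H n) := by
  rw [ww_Ks F H h n]; ring

section diag

variable {F : SL2} (h01 : F 0 1 = 0) (h10 : F 1 0 = 0)
include h01 h10

theorem diag_det : F 0 0 * F 1 1 = 1 := by
  have := det_eq F
  rw [h01, h10] at this
  linear_combination this

theorem diag_ww (H : SL2) : ww F H = F 0 0 * H 0 0 + F 1 1 * H 1 1 - 1 := by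
  unfold ww tr
  rw [mul_00, mul_11, h01, h10]; ring

theorem diag_ss : ss F = F 0 0 ^ 2 + F 1 1 ^ 2 := by
  unfold ss tr
  linear_combination 2 * diag_det h01 h10

theorem step_01 (H : SL2) (h : tr H = tr F) :
    (F * nxt F H * F⁻¹) 0 1 = H 0 1 * (1 + F 0 0 ^ 2 * (ww F H - ss F)) := by
  have hd := diag_det h01 h10
  rw [diag_ww h01 h10, diag_ss h01 h10]
  unfold nxt
  simp only [mul_00, mul_01, mul_10, mul_11, inv_00, inv_01, inv_10, inv_11]
  unfold tr at h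
  have h3 : H 1 1 = F 0 0 + F 1 1 - H 0 0 := by linear_combination h
  rw [h3, h01, h10]
  linear_combination (H 0 1 * (- F 0 0 ^ 2 + F 0 0 * F 1 1 + 1)) * hd

theorem step_10 (H : SL2) (h : tr H = tr F) :
    (F * nxt F H * F⁻¹) 1 0 = H 1 0 * (1 + F 1 1 ^ 2 * (ww F H - ss F)) := by
  have hd := diag_det h01 h10
  rw [diag_ww h01 h10, diag_ss h01 h10]
  unfold nxt
  simp only [mul_00, mul_01, mul_10, mul_11, inv_00, inv_01, inv_10, inv_11]
  unfold tr at h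
  have h3 : H 1 1 = F 0 0 + F 1 1 - H 0 0 := by linear_combination h
  rw [h3, h01, h10]
  linear_combination (H 1 0 * (- F 1 1 ^ 2 + F 0 0 * F 1 1 + 1)) * hd

theorem entry_00 (H : SL2) (h : tr H = tr F) :
    (F 0 0 - F 1 1) * H 0 0 = ww F H - F 1 1 ^ 2 := by
  have hd := diag_det h01 h10
  rw [diag_ww h01 h10]
  unfold tr at h
  have h3 : H 1 1 = F 0 0 + F 1 1 - H 0 0 := by linear_combination h
  rw [h3]
  linear_combination -hd

theorem entry_11 (H : SL2) (h : tr H = tr F) :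
    (F 1 1 - F 0 0) * H 1 1 = ww F H - F 0 0 ^ 2 := by
  have hd := diag_det h01 h10
  rw [diag_ww h01 h10]
  unfold tr at h
  have h3 : H 0 0 = F 0 0 + F 1 1 - H 1 1 := by linear_combination h
  rw [h3]
  linear_combination -hd

end diag

theorem bounded_prod {q v : ℕ → ℂ} {a : ℂ} {ρ V : ℝ} (hρ0 : 0 ≤ ρ) (hρ : ρ < 1)
    (hV : 0 ≤ V) (hv : ∀ n, ‖v n‖ ≤ V * ρ ^ n) (hq : ∀ n, q (n + 1) = q n * (1 + a * v n)) :
    ∃ C, ∀ n, ‖q n‖ ≤ C := by
  have h1 : ∀ n, ‖q n‖ ≤ ‖q 0‖ * Real.exp (‖a‖ * V * ∑ j ∈ Finset.range n, ρ ^ j) := by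
    intro n
    induction n with
    | zero => simp
    | succ n ih =>
      rw [hq n, norm_mul, Finset.sum_range_succ, mul_add, Real.exp_add, ← mul_assoc]
      refine mul_le_mul ih ?_ (norm_nonneg _) (by positivity)
      calc ‖1 + a * v n‖ ≤ ‖(1 : ℂ)‖ + ‖a * v n‖ := norm_add_le _ _
        _ ≤ 1 + ‖a‖ * V * ρ ^ n := by
          rw [norm_one, norm_mul, mul_assoc]
          gcongr
          exact hv n
        _ ≤ Real.exp (‖a‖ * V * ρ ^ n) := by
          have := Real.add_one_le_exp (‖a‖ * V * ρ ^ n)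
          linarith
  refine ⟨‖q 0‖ * Real.exp (‖a‖ * V * (1 - ρ)⁻¹), fun n => (h1 n).trans ?_⟩
  gcongr
  exact (summable_geometric_of_lt_one hρ0 hρ).sum_le_tsum _ (fun i _ => pow_nonneg hρ0 i) |>.trans
    (tsum_geometric_of_lt_one hρ0 hρ).le

theorem tendsto_bdd_mul {a b : ℕ → ℂ} {C : ℝ} (ha : ∀ n, ‖a n‖ ≤ C)
    (hb : Tendsto b atTop (𝓝 0)) : Tendsto (fun n => a n * b n) atTop (𝓝 0) := by
  have h1 : Tendsto (fun n => C * ‖b n‖) atTop (𝓝 0) := by
    have := (tendsto_zero_iff_norm_tendsto_zero.1 hb).const_mul C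
    simpa using this
  refine squeeze_zero_norm (fun n => ?_) h1
  rw [norm_mul]
  exact mul_le_mul_of_nonneg_right (ha n) (norm_nonneg _)

/-- The iteration in the case of a diagonal matrix `F`. -/
theorem iter_diag {Γ : Subgroup SL2} (hΓ : Disc Γ) {F H : SL2} (hF : F ∈ Γ)
    (hH : H ∈ Γ) (h01 : F 0 1 = 0) (h10 : F 1 0 = 0) (hne : F 0 0 ≠ F 1 1) (h : tr H = tr F)
    {ρ : ℝ} (hρ : ρ < 1) (hw : ∀ n, ‖ww F (Ks F H n)‖ ≤ ρ) :
    ∃ n, ww F (Ks F H n) = ss F := by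
  have hρ0 : 0 ≤ ρ := (norm_nonneg _).trans (hw 0)
  set v : ℕ → ℂ := fun n => ww F (Ks F H n) - ss F with hvdef
  have hv1 : ∀ n, v (n + 1) = v n * ww F (Ks F H n) := fun n => vv_Ks F H h n
  have hv : ∀ n, ‖v n‖ ≤ ‖v 0‖ * ρ ^ n := by
    intro n
    induction n with
    | zero => simp
    | succ n ih =>
      rw [hv1, norm_mul, pow_succ, ← mul_assoc]
      exact mul_le_mul ih (hw n) (norm_nonneg _) (by positivity)
  have hv0 : Tendsto v atTop (𝓝 0) := by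
    refine squeeze_zero_norm hv ?_
    simpa using (tendsto_pow_atTop_nhds_zero_of_lt_one hρ0 hρ).const_mul ‖v 0‖
  have hv0' : Tendsto (fun n => v (n + 1)) atTop (𝓝 0) := hv0.comp (tendsto_add_atTop_nat 1)
  -- the entries
  have hK : ∀ n, tr (Ks F H n) = tr F := tr_Ks F H h
  have hq : ∀ n, (Ks F H (n + 1)) 0 1 = (Ks F H n) 0 1 * (1 + F 0 0 ^ 2 * v n) :=
    fun n => step_01 h01 h10 _ (hK n)
  have hr : ∀ n, (Ks F H (n + 1)) 1 0 = (Ks F H n) 1 0 * (1 + F 1 1 ^ 2 * v n) :=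
    fun n => step_10 h01 h10 _ (hK n)
  have hδ : F 0 0 - F 1 1 ≠ 0 := sub_ne_zero.2 hne
  have hδ' : F 1 1 - F 0 0 ≠ 0 := sub_ne_zero.2 hne.symm
  have hp : ∀ n, (Ks F H n) 0 0 = (F 0 0 - F 1 1)⁻¹ * (v n + (ss F - F 1 1 ^ 2)) := by
    intro n
    rw [eq_inv_mul_iff_mul_eq₀ hδ, entry_00 h01 h10 _ (hK n)]
    simp only [hvdef]; ring
  have ht : ∀ n, (Ks F H n) 1 1 = (F 1 1 - F 0 0)⁻¹ * (v n + (ss F - F 0 0 ^ 2)) := by
    intro n
    rw [eq_inv_mul_iff_mul_eq₀ hδ', entry_11 h01 h10 _ (hK n)]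
    simp only [hvdef]; ring
  obtain ⟨Cq, hCq⟩ := bounded_prod (q := fun n => (Ks F H n) 0 1) hρ0 hρ (norm_nonneg _) hv hq
  obtain ⟨Cr, hCr⟩ := bounded_prod (q := fun n => (Ks F H n) 1 0) hρ0 hρ (norm_nonneg _) hv hr
  have hvb : ∀ n, ‖v n‖ ≤ ‖v 0‖ := fun n => (hv n).trans
    (mul_le_of_le_one_right (norm_nonneg _) (pow_le_one₀ hρ0 hρ.le))
  obtain ⟨Cp, hCp⟩ : ∃ C, ∀ n, ‖(Ks F H n) 0 0‖ ≤ C := by
    refine ⟨‖(F 0 0 - F 1 1)⁻¹‖ * (‖v 0‖ + ‖ss F - F 1 1 ^ 2‖), fun n => ?_⟩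
    rw [hp n, norm_mul]
    gcongr
    exact (norm_add_le _ _).trans (by gcongr; exact hvb n)
  obtain ⟨Ct, hCt⟩ : ∃ C, ∀ n, ‖(Ks F H n) 1 1‖ ≤ C := by
    refine ⟨‖(F 1 1 - F 0 0)⁻¹‖ * (‖v 0‖ + ‖ss F - F 0 0 ^ 2‖), fun n => ?_⟩
    rw [ht n, norm_mul]
    gcongr
    exact (norm_add_le _ _).trans (by gcongr; exact hvb n)
  -- differences
  have dp : Tendsto (fun n => (Ks F H n) 0 0 - (Ks F H (n + 1)) 0 0) atTop (𝓝 0) := by
    have : (fun n => (Ks F H n) 0 0 - (Ks F H (n + 1)) 0 0)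
        = fun n => (F 0 0 - F 1 1)⁻¹ * (v n - v (n + 1)) := by
      funext n; rw [hp n, hp (n + 1)]; ring
    rw [this]
    simpa using (hv0.sub hv0').const_mul (F 0 0 - F 1 1)⁻¹
  have dt : Tendsto (fun n => (Ks F H n) 1 1 - (Ks F H (n + 1)) 1 1) atTop (𝓝 0) := by
    have : (fun n => (Ks F H n) 1 1 - (Ks F H (n + 1)) 1 1)
        = fun n => (F 1 1 - F 0 0)⁻¹ * (v n - v (n + 1)) := by
      funext n; rw [ht n, ht (n + 1)]; ring
    rw [this]
    simpa using (hv0.sub hv0').const_mul (F 1 1 - F 0 0)⁻¹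
  have dq : Tendsto (fun n => (Ks F H n) 0 1 - (Ks F H (n + 1)) 0 1) atTop (𝓝 0) := by
    have : (fun n => (Ks F H n) 0 1 - (Ks F H (n + 1)) 0 1)
        = fun n => (Ks F H n) 0 1 * (- F 0 0 ^ 2 * v n) := by
      funext n; rw [hq n]; ring
    rw [this]
    exact tendsto_bdd_mul hCq (by simpa using hv0.const_mul (- F 0 0 ^ 2))
  have dr : Tendsto (fun n => (Ks F H n) 1 0 - (Ks F H (n + 1)) 1 0) atTop (𝓝 0) := by
    have : (fun n => (Ks F H n) 1 0 - (Ks F H (n + 1)) 1 0)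
        = fun n => (Ks F H n) 1 0 * (- F 1 1 ^ 2 * v n) := by
      funext n; rw [hr n]; ring
    rw [this]
    exact tendsto_bdd_mul hCr (by simpa using hv0.const_mul (- F 1 1 ^ 2))
  have hCp' : ∀ n, ‖(Ks F H (n + 1)) 0 0‖ ≤ Cp := fun n => hCp _
  have hCq' : ∀ n, ‖(Ks F H (n + 1)) 0 1‖ ≤ Cq := fun n => hCq _
  have hCr' : ∀ n, ‖(Ks F H (n + 1)) 1 0‖ ≤ Cr := fun n => hCr _
  have hCt' : ∀ n, ‖(Ks F H (n + 1)) 1 1‖ ≤ Ct := fun n => hCt _
  have hev := hΓ (fun n => (Ks F H (n + 1))⁻¹ * Ks F H n)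
    (fun n => Γ.mul_mem (Γ.inv_mem (Ks_mem hF hH _)) (Ks_mem hF hH _)) (by
      intro i j
      have e11 : ∀ n, (Ks F H (n + 1)) 0 0 * (Ks F H (n + 1)) 1 1
          - (Ks F H (n + 1)) 0 1 * (Ks F H (n + 1)) 1 0 = 1 := fun n => det_eq _
      fin_cases i <;> fin_cases j
      · show Tendsto (fun n => ((Ks F H (n + 1))⁻¹ * Ks F H n) 0 0) atTop (𝓝 ((1 : SL2) 0 0))
        have : (fun n => ((Ks F H (n + 1))⁻¹ * Ks F H n) 0 0) = fun n =>
            1 + ((Ks F H (n + 1)) 1 1 * ((Ks F H n) 0 0 - (Ks F H (n + 1)) 0 0)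
              - (Ks F H (n + 1)) 0 1 * ((Ks F H n) 1 0 - (Ks F H (n + 1)) 1 0)) := by
          funext n
          rw [mul_00, inv_00, inv_01]
          linear_combination e11 n
        rw [this, one_00]
        have := (tendsto_bdd_mul hCt' dp).sub (tendsto_bdd_mul hCq' dr)
        simpa using this.const_add 1
      · show Tendsto (fun n => ((Ks F H (n + 1))⁻¹ * Ks F H n) 0 1) atTop (𝓝 ((1 : SL2) 0 1))
        have : (fun n => ((Ks F H (n + 1))⁻¹ * Ks F H n) 0 1) = fun n =>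
            ((Ks F H (n + 1)) 1 1 * ((Ks F H n) 0 1 - (Ks F H (n + 1)) 0 1)
              - (Ks F H (n + 1)) 0 1 * ((Ks F H n) 1 1 - (Ks F H (n + 1)) 1 1)) := by
          funext n
          rw [mul_01, inv_00, inv_01]
          ring
        rw [this, one_01]
        have := (tendsto_bdd_mul hCt' dq).sub (tendsto_bdd_mul hCq' dt)
        simpa using this
      · show Tendsto (fun n => ((Ks F H (n + 1))⁻¹ * Ks F H n) 1 0) atTop (𝓝 ((1 : SL2) 1 0))
        have : (fun n => ((Ks F H (n + 1))⁻¹ * Ks F H n) 1 0) = fun n =>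
            ((Ks F H (n + 1)) 0 0 * ((Ks F H n) 1 0 - (Ks F H (n + 1)) 1 0)
              - (Ks F H (n + 1)) 1 0 * ((Ks F H n) 0 0 - (Ks F H (n + 1)) 0 0)) := by
          funext n
          rw [mul_10, inv_10, inv_11]
          ring
        rw [this, one_10]
        have := (tendsto_bdd_mul hCp' dr).sub (tendsto_bdd_mul hCr' dp)
        simpa using this
      · show Tendsto (fun n => ((Ks F H (n + 1))⁻¹ * Ks F H n) 1 1) atTop (𝓝 ((1 : SL2) 1 1))
        have : (fun n => ((Ks F H (n + 1))⁻¹ * Ks F H n) 1 1) = fun n =>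
            1 + ((Ks F H (n + 1)) 0 0 * ((Ks F H n) 1 1 - (Ks F H (n + 1)) 1 1)
              - (Ks F H (n + 1)) 1 0 * ((Ks F H n) 0 1 - (Ks F H (n + 1)) 0 1)) := by
          funext n
          rw [mul_11, inv_10, inv_11]
          linear_combination e11 n
        rw [this, one_11]
        have := (tendsto_bdd_mul hCp' dt).sub (tendsto_bdd_mul hCr' dq)
        simpa using this.const_add 1)
  obtain ⟨n, hn⟩ := hev.exists
  refine ⟨n, ?_⟩
  have h1 : Ks F H n = Ks F H (n + 1) := (inv_mul_eq_one.1 hn).symm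
  have h2 : v (n + 1) = v n := by simp only [hvdef]; rw [← h1]
  have h3 : v n * (ww F (Ks F H n) - 1) = 0 := by linear_combination h2 - hv1 n
  rcases mul_eq_zero.1 h3 with h4 | h4
  · exact sub_eq_zero.1 h4
  · exfalso
    have h5 : ww F (Ks F H n) = 1 := sub_eq_zero.1 h4
    have h6 := hw n
    rw [h5, norm_one] at h6
    linarith

/-- The conjugate subgroup `P Γ P⁻¹`. -/
def cj (P : SL2) (Γ : Subgroup SL2) : Subgroup SL2 := Γ.map (MulAut.conj P).toMonoidHom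

theorem mem_cj {P A : SL2} {Γ : Subgroup SL2} : P * A * P⁻¹ ∈ cj P Γ ↔ A ∈ Γ := by
  unfold cj
  rw [Subgroup.mem_map]
  constructor
  · rintro ⟨B, hB, h⟩
    have : P * B * P⁻¹ = P * A * P⁻¹ := h
    have : B = A := by
      have h2 := congrArg (fun X => P⁻¹ * X * P) this
      simpa [mul_assoc] using h2
    rwa [this] at hB
  · exact fun h => ⟨A, h, rfl⟩

theorem disc_cj {P : SL2} {Γ : Subgroup SL2} (hΓ : Disc Γ) : Disc (cj P Γ) := by
  intro u hu h
  have h1 : ∀ n, P⁻¹ * u n * P ∈ Γ := by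
    intro n
    rw [← mem_cj (P := P)]
    have : P * (P⁻¹ * u n * P) * P⁻¹ = u n := by group
    rw [this]
    exact hu n
  have h2 : ∀ i j, Tendsto (fun n => (P⁻¹ * u n * P) i j) atTop (𝓝 ((1 : SL2) i j)) := by
    have t := tendsto_SL2 h
    have t2 : Tendsto (fun n => P⁻¹ * u n * P) atTop (𝓝 (P⁻¹ * 1 * P)) :=
      (t.const_mul _).mul_const _
    have t3 : P⁻¹ * (1 : SL2) * P = 1 := by group
    rw [t3] at t2
    intro i j
    have hc : Continuous (fun A : SL2 => A i j) := by fun_prop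
    exact (hc.tendsto _).comp t2
  filter_upwards [hΓ _ h1 h2] with n hn
  have := congrArg (fun X => P * X * P⁻¹) hn
  simpa [mul_assoc] using this

/-- The element of `SL(2, ℂ)` with given entries. -/
def mk4 (a b c d : ℂ) (h : a * d - b * c = 1) : SL2 :=
  ⟨!![a, b; c, d], by rw [Matrix.det_fin_two_of]; exact h⟩

@[simp] theorem mk4_00 (a b c d : ℂ) (h : a * d - b * c = 1) : (mk4 a b c d h) 0 0 = a := rfl
@[simp] theorem mk4_01 (a b c d : ℂ) (h : a * d - b * c = 1) : (mk4 a b c d h) 0 1 = b := rfl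
@[simp] theorem mk4_10 (a b c d : ℂ) (h : a * d - b * c = 1) : (mk4 a b c d h) 1 0 = c := rfl
@[simp] theorem mk4_11 (a b c d : ℂ) (h : a * d - b * c = 1) : (mk4 a b c d h) 1 1 = d := rfl

/-- Diagonalization. -/
theorem exists_diag (F : SL2) (hF : tr F ^ 2 ≠ 4) :
    ∃ P : SL2, (P * F * P⁻¹) 0 1 = 0 ∧ (P * F * P⁻¹) 1 0 = 0 := by
  have hdet := det_eq F
  by_cases hc : F 1 0 = 0
  · have hne : F 0 0 - F 1 1 ≠ 0 := by
      intro h
      apply hF
      unfold tr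
      rw [hc] at hdet
      linear_combination (F 0 0 - F 1 1) * h + 4 * hdet
    refine ⟨mk4 1 (F 0 1 / (F 0 0 - F 1 1)) 0 1 (by ring), ?_, ?_⟩
    · simp only [mul_00, mul_01, mul_10, mul_11, inv_00, inv_01, inv_10, inv_11, mk4_00, mk4_01,
        mk4_10, mk4_11, hc]
      field_simp
      ring
    · simp only [mul_00, mul_01, mul_10, mul_11, inv_00, inv_01, inv_10, inv_11, mk4_00, mk4_01,
        mk4_10, mk4_11, hc]
      ring
  · obtain ⟨d, hd⟩ := IsAlgClosed.exists_pow_nat_eq (tr F ^ 2 - 4) (n := 2) (by norm_num)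
    have hd0 : d ≠ 0 := by
      rintro rfl
      apply hF
      linear_combination -hd
    obtain ⟨k, hk⟩ := IsAlgClosed.exists_pow_nat_eq ((F 1 0 * (-d))⁻¹) (n := 2) (by norm_num)
    have hk2 : k ^ 2 * (F 1 0 * (-d)) = 1 := by
      rw [hk]
      exact inv_mul_cancel₀ (mul_ne_zero hc (neg_ne_zero.2 hd0))
    unfold tr at hd
    refine ⟨mk4 (k * F 1 0) (k * ((F 0 0 + F 1 1 + d) / 2 - F 0 0)) (k * F 1 0)
      (k * ((F 0 0 + F 1 1 - d) / 2 - F 0 0)) (by linear_combination hk2), ?_, ?_⟩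
    · simp only [mul_00, mul_01, mul_10, mul_11, inv_00, inv_01, inv_10, inv_11, mk4_00, mk4_01,
        mk4_10, mk4_11]
      linear_combination k ^ 2 * F 1 0 * (-(1 / 4) * hd - hdet)
    · simp only [mul_00, mul_01, mul_10, mul_11, inv_00, inv_01, inv_10, inv_11, mk4_00, mk4_01,
        mk4_10, mk4_11]
      linear_combination k ^ 2 * F 1 0 * ((1 / 4) * hd + hdet)

theorem Ks_conj (P F H : SL2) (n : ℕ) :
    Ks (P * F * P⁻¹) (P * H * P⁻¹) n = P * Ks F H n * P⁻¹ := by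
  induction n with
  | zero => rfl
  | succ n ih =>
    rw [Ks, ih, Ks]
    unfold nxt
    group

theorem ww_conj (P F H : SL2) : ww (P * F * P⁻¹) (P * H * P⁻¹) = ww F H := by
  unfold ww
  have : P * F * P⁻¹ * (P * H * P⁻¹) = P * (F * H) * P⁻¹ := by group
  rw [this, tr_conj]

theorem ss_conj (P F : SL2) : ss (P * F * P⁻¹) = ss F := by
  unfold ss; rw [tr_conj]

/-- The iteration: if the `w`'s are bounded by a constant less than `1` from some time on, then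
`w = s` at some time. -/
theorem iter {Γ : Subgroup SL2} (hΓ : Disc Γ) {F H : SL2} (hF : F ∈ Γ) (hH : H ∈ Γ)
    (hx : tr F ^ 2 ≠ 4) (h : tr H = tr F) {ρ : ℝ} (hρ : ρ < 1) (N : ℕ)
    (hw : ∀ n, N ≤ n → ‖ww F (Ks F H n)‖ ≤ ρ) :
    ∃ n, ww F (Ks F H n) = ss F := by
  obtain ⟨P, h01, h10⟩ := exists_diag F hx
  have hne : (P * F * P⁻¹) 0 0 ≠ (P * F * P⁻¹) 1 1 := by
    intro he
    apply hx
    rw [← tr_conj P F]
    have hd := diag_det h01 h10
    unfold tr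
    rw [← he] at hd ⊢
    linear_combination 4 * hd
  have key := iter_diag (disc_cj (P := P) hΓ) (F := P * F * P⁻¹) (H := P * Ks F H N * P⁻¹)
    (mem_cj.2 hF) (mem_cj.2 (Ks_mem hF hH N)) h01 h10 hne (by rw [tr_conj, tr_conj, tr_Ks F H h])
    hρ (by
      intro n
      rw [Ks_conj, ww_conj, Ks_add]
      exact hw _ (Nat.le_add_right _ _))
  obtain ⟨n, hn⟩ := key
  rw [Ks_conj, ww_conj, ss_conj, Ks_add] at hn
  exact ⟨_, hn⟩

end Pool.Agent.H811.Tan
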