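import Pool.Agent.H811.Tan.PSL

/-!
# Discrete groups from rings of integers of imaginary quadratic fields
-/

namespace Pool.Agent.H811.Tan

open Matrix Filter Topology

set_option linter.unusedVariables false
set_option linter.unusedSimpArgs false

/-- A subring of `ℂ` whose nonzero elements have absolute value at least one. -/
def DiscRing (𝒪 : Subring ℂ) : Prop := ∀ r ∈ 𝒪, ‖r‖ < 1 → r = 0

theorem R_inj {F H : SL2} {t z : ℂ} (hF : tr F = t) (hH : tr H = t) (hz : tr (F * H) = z)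
    (h1 : z ≠ 2) (h2 : z + 2 - t ^ 2 ≠ 0) {α β γ δ : ℂ} (h : R F H α β γ δ = 0) :
    α = 0 ∧ β = 0 ∧ γ = 0 ∧ δ = 0 := by
  have e1 := trace_R hF hH hz α β γ δ
  have e2 := trace_R hF hH hz (-β) (α + t * β) (-δ) (γ + t * δ)
  rw [← F_mul_R hF hH hz, h] at e2
  have e3 := trace_R hF hH hz (β * (z - t ^ 2) - γ - t * δ) (t * β + δ)
    (α + t * β + t * γ + z * δ) (-β)
  rw [← H_mul_R hF hH hz, h] at e3
  rw [h] at e1
  simp only [mul_zero, Matrix.zero_apply, add_zero] at e1 e2 e3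
  -- the fourth equation
  have e4 := trace_R hF hH hz (-(t * β + δ)) (β * (z - t ^ 2) - γ - t * δ + t * (t * β + δ))
    (-(-β)) (α + t * β + t * γ + z * δ + t * (-β))
  rw [← F_mul_R hF hH hz, ← H_mul_R hF hH hz, h] at e4
  simp only [mul_zero, Matrix.zero_apply, add_zero] at e4
  have hz2 : z - 2 ≠ 0 := sub_ne_zero.2 h1
  have s1 : (z + 2 - t ^ 2) * (β - γ) = 0 := by linear_combination e2 - e3
  have s2 : β = γ := sub_eq_zero.1 ((mul_eq_zero.1 s1).resolve_left h2)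
  subst s2
  have s3 : (z - 2) * (2 * β + t * δ) = 0 := by
    linear_combination (-2) * e2 + t * e1
  have s4 : 2 * β + t * δ = 0 := (mul_eq_zero.1 s3).resolve_left hz2
  have s5 : (z - 2) * ((z + 2 - t ^ 2) * δ) = 0 := by
    linear_combination (-2) * e4 + z * e1 - (z - 2) * t * s4
  have s6 : δ = 0 := (mul_eq_zero.1 ((mul_eq_zero.1 s5).resolve_left hz2)).resolve_left h2
  subst s6
  have s7 : β = 0 := by
    have : (2 : ℂ) * β = 0 := by linear_combination s4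
    exact (mul_eq_zero.1 this).resolve_left (by norm_num)
  subst s7
  have s8 : α = 0 := by
    have : (2 : ℂ) * α = 0 := by linear_combination -e1
    exact (mul_eq_zero.1 this).resolve_left (by norm_num)
  exact ⟨s8, rfl, rfl, rfl⟩

/-- The coordinates are continuous functions of the matrix. -/
theorem coord_tendsto {F H : SL2} {t z : ℂ} (hF : tr F = t) (hH : tr H = t) (hz : tr (F * H) = z)
    (h1 : z ≠ 2) (h2 : z + 2 - t ^ 2 ≠ 0) {u : ℕ → SL2}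
    (hu : ∀ i j, Tendsto (fun n => u n i j) atTop (𝓝 ((1 : SL2) i j)))
    {α β γ δ : ℕ → ℂ} (h : ∀ n, ((u n : SL2) : Matrix (Fin 2) (Fin 2) ℂ) = R F H (α n) (β n) (γ n) (δ n)) :
    Tendsto β atTop (𝓝 0) ∧ Tendsto γ atTop (𝓝 0) ∧ Tendsto δ atTop (𝓝 0) := by
  let L : (Fin 4 → ℂ) →ₗ[ℂ] (Fin 2 → Fin 2 → ℂ) :=
    { toFun := fun v => fun i j => (R F H (v 0) (v 1) (v 2) (v 3)) i j
      map_add' := by
        intro v w
        funext i j
        simp only [R, Pi.add_apply, Matrix.add_apply, Matrix.smul_apply, smul_eq_mul]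
        ring
      map_smul' := by
        intro c v
        funext i j
        simp only [R, Pi.smul_apply, Matrix.add_apply, Matrix.smul_apply, smul_eq_mul,
          RingHom.id_apply]
        ring }
  have hL : ∀ v i j, L v i j = (R F H (v 0) (v 1) (v 2) (v 3)) i j := fun v i j => rfl
  have hinj : Function.Injective L := by
    rw [injective_iff_map_eq_zero]
    intro v hv
    have h0 : R F H (v 0) (v 1) (v 2) (v 3) = 0 := by
      ext i j
      rw [← hL, hv]; rfl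
    obtain ⟨a, b, c, d⟩ := R_inj hF hH hz h1 h2 h0
    funext i
    fin_cases i
    · exact a
    · exact b
    · exact c
    · exact d
  let e : (Fin 4 → ℂ) ≃ₗ[ℂ] (Fin 2 → Fin 2 → ℂ) := LinearEquiv.ofInjectiveOfFinrankEq L hinj (by
    simp [Module.finrank_pi_fintype])
  have he : ∀ v, e v = L v := fun v => rfl
  have hc : Continuous e.symm := LinearMap.continuous_of_finiteDimensional e.symm.toLinearMap
  have ht : Tendsto (fun n => (fun i j => u n i j : Fin 2 → Fin 2 → ℂ)) atTop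
      (𝓝 (fun i j => (1 : SL2) i j)) :=
    tendsto_pi_nhds.2 fun i => tendsto_pi_nhds.2 fun j => hu i j
  have hs : ∀ n, e.symm (fun i j => u n i j) = ![α n, β n, γ n, δ n] := by
    intro n
    rw [LinearEquiv.symm_apply_eq, he]
    funext i j
    rw [hL]
    have := congrFun (congrFun (h n) i) j
    simpa using this
  have hs1 : e.symm (fun i j => (1 : SL2) i j) = ![1, 0, 0, 0] := by
    rw [LinearEquiv.symm_apply_eq, he]
    funext i j
    rw [hL]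
    have := congrFun (congrFun (one_eq_R F H) i) j
    simpa using this
  have ht2 := (hc.tendsto _).comp ht
  rw [hs1] at ht2
  have ht3 : Tendsto (fun n => (![α n, β n, γ n, δ n] : Fin 4 → ℂ)) atTop (𝓝 ![1, 0, 0, 0]) := by
    refine ht2.congr ?_
    intro n
    exact hs n
  rw [tendsto_pi_nhds] at ht3
  exact ⟨by simpa using ht3 1, by simpa using ht3 2, by simpa using ht3 3⟩

/-- Matrices with coordinates in the graded lattice. -/
def InLat (𝒪 : Subring ℂ) (t : ℂ) (F H K : SL2) : Prop :=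
  ∃ a b c d : ℂ, a ∈ 𝒪 ∧ b ∈ 𝒪 ∧ c ∈ 𝒪 ∧ d ∈ 𝒪 ∧
    ((K : Matrix (Fin 2) (Fin 2) ℂ) = R F H a (t * b) (t * c) d ∨
      (K : Matrix (Fin 2) (Fin 2) ℂ) = R F H (t * a) b c (t * d))

section lat

variable {𝒪 : Subring ℂ} {F H : SL2} {t z : ℂ} (hF : tr F = t) (hH : tr H = t)
  (hz : tr (F * H) = z) (hx : t ^ 2 ∈ 𝒪) (hz' : z ∈ 𝒪)

theorem inLat_one : InLat 𝒪 t F H 1 :=
  ⟨1, 0, 0, 0, 𝒪.one_mem, 𝒪.zero_mem, 𝒪.zero_mem, 𝒪.zero_mem, Or.inl (by
    rw [one_eq_R F H, mul_zero])⟩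

theorem neg_R (α β γ δ : ℂ) : -(R F H α β γ δ) = R F H (-α) (-β) (-γ) (-δ) := by
  unfold R; module

theorem inLat_neg {K : SL2} (hK : InLat 𝒪 t F H K) : InLat 𝒪 t F H (-1 * K) := by
  obtain ⟨a, b, c, d, ha, hb, hc, hd, h | h⟩ := hK
  · refine ⟨-a, -b, -c, -d, 𝒪.neg_mem ha, 𝒪.neg_mem hb, 𝒪.neg_mem hc, 𝒪.neg_mem hd, Or.inl ?_⟩
    rw [neg_one_mul, Matrix.SpecialLinearGroup.coe_neg, h, neg_R]
    congr 1 <;> ring
  · refine ⟨-a, -b, -c, -d, 𝒪.neg_mem ha, 𝒪.neg_mem hb, 𝒪.neg_mem hc, 𝒪.neg_mem hd, Or.inr ?_⟩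
    rw [neg_one_mul, Matrix.SpecialLinearGroup.coe_neg, h, neg_R]
    congr 1 <;> ring

include hF hH hz hx

theorem inLat_F {K : SL2} (hK : InLat 𝒪 t F H K) : InLat 𝒪 t F H (F * K) := by
  obtain ⟨a, b, c, d, ha, hb, hc, hd, h | h⟩ := hK
  · refine ⟨-b, a + t ^ 2 * b, -d, c + d, 𝒪.neg_mem hb, 𝒪.add_mem ha (𝒪.mul_mem hx hb),
      𝒪.neg_mem hd, 𝒪.add_mem hc hd, Or.inr ?_⟩
    rw [Matrix.SpecialLinearGroup.coe_mul, h, F_mul_R hF hH hz]
    congr 1 <;> ring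
  · refine ⟨-b, a + b, -d, c + t ^ 2 * d, 𝒪.neg_mem hb, 𝒪.add_mem ha hb,
      𝒪.neg_mem hd, 𝒪.add_mem hc (𝒪.mul_mem hx hd), Or.inl ?_⟩
    rw [Matrix.SpecialLinearGroup.coe_mul, h, F_mul_R hF hH hz]
    congr 1 <;> ring

theorem inLat_Finv {K : SL2} (hK : InLat 𝒪 t F H K) : InLat 𝒪 t F H (F⁻¹ * K) := by
  obtain ⟨a, b, c, d, ha, hb, hc, hd, h | h⟩ := hK
  · refine ⟨a + b, -a, t ^ 2 * c + d, -c, 𝒪.add_mem ha hb, 𝒪.neg_mem ha,
      𝒪.add_mem (𝒪.mul_mem hx hc) hd, 𝒪.neg_mem hc, Or.inr ?_⟩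
    rw [Matrix.SpecialLinearGroup.coe_mul, h, Finv_mul_R hF hH hz]
    congr 1 <;> ring
  · refine ⟨t ^ 2 * a + b, -a, c + d, -c, 𝒪.add_mem (𝒪.mul_mem hx ha) hb, 𝒪.neg_mem ha,
      𝒪.add_mem hc hd, 𝒪.neg_mem hc, Or.inl ?_⟩
    rw [Matrix.SpecialLinearGroup.coe_mul, h, Finv_mul_R hF hH hz]
    congr 1 <;> ring

include hz'

theorem inLat_H {K : SL2} (hK : InLat 𝒪 t F H K) : InLat 𝒪 t F H (H * K) := by
  have m := fun {a b} => @Subring.mul_mem ℂ _ 𝒪 a b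
  have ad := fun {a b} => @Subring.add_mem ℂ _ 𝒪 a b
  have sb := fun {a b} => @Subring.sub_mem ℂ _ 𝒪 a b
  obtain ⟨a, b, c, d, ha, hb, hc, hd, h | h⟩ := hK
  · refine ⟨b * (z - t ^ 2) - c - d, t ^ 2 * b + d, a + t ^ 2 * b + t ^ 2 * c + z * d, -b,
      sb (sb (m hb (sb hz' hx)) hc) hd, ad (m hx hb) hd,
      ad (ad (ad ha (m hx hb)) (m hx hc)) (m hz' hd), 𝒪.neg_mem hb, Or.inr ?_⟩
    rw [Matrix.SpecialLinearGroup.coe_mul, h, H_mul_R hF hH hz]
    congr 1 <;> ring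
  · refine ⟨b * (z - t ^ 2) - c - t ^ 2 * d, b + d, a + b + c + z * d, -b,
      sb (sb (m hb (sb hz' hx)) hc) (m hx hd), ad hb hd,
      ad (ad (ad ha hb) hc) (m hz' hd), 𝒪.neg_mem hb, Or.inl ?_⟩
    rw [Matrix.SpecialLinearGroup.coe_mul, h, H_mul_R hF hH hz]
    congr 1 <;> ring

theorem inLat_Hinv {K : SL2} (hK : InLat 𝒪 t F H K) : InLat 𝒪 t F H (H⁻¹ * K) := by
  have m := fun {a b} => @Subring.mul_mem ℂ _ 𝒪 a b
  have ad := fun {a b} => @Subring.add_mem ℂ _ 𝒪 a b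
  have sb := fun {a b} => @Subring.sub_mem ℂ _ 𝒪 a b
  obtain ⟨a, b, c, d, ha, hb, hc, hd, h | h⟩ := hK
  · refine ⟨a - b * (z - t ^ 2) + c + d, -d, -(a + t ^ 2 * b + z * d), d + b,
      ad (ad (sb ha (m hb (sb hz' hx))) hc) hd, 𝒪.neg_mem hd,
      𝒪.neg_mem (ad (ad ha (m hx hb)) (m hz' hd)), ad hd hb, Or.inr ?_⟩
    rw [Matrix.SpecialLinearGroup.coe_mul, h, Hinv_mul_R hF hH hz]
    congr 1 <;> ring
  · refine ⟨t ^ 2 * a - b * (z - t ^ 2) + c + t ^ 2 * d, -d, -(a + b + z * d), t ^ 2 * d + b,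
      ad (ad (sb (m hx ha) (m hb (sb hz' hx))) hc) (m hx hd), 𝒪.neg_mem hd,
      𝒪.neg_mem (ad (ad ha hb) (m hz' hd)), ad (m hx hd) hb, Or.inl ?_⟩
    rw [Matrix.SpecialLinearGroup.coe_mul, h, Hinv_mul_R hF hH hz]
    congr 1 <;> ring

theorem inLat_closure {K : SL2} (hK : K ∈ Subgroup.closure ({F, H, -1} : Set SL2)) :
    InLat 𝒪 t F H K := by
  induction hK using Subgroup.closure_induction_left with
  | one => exact inLat_one
  | mul_left x hx' y hy ih =>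
    rcases hx' with rfl | rfl | rfl
    · exact inLat_F hF hH hz hx ih
    · exact inLat_H hF hH hz hx hz' ih
    · exact inLat_neg ih
  | inv_mul_cancel x hx' y hy ih =>
    rcases hx' with rfl | rfl | rfl
    · exact inLat_Finv hF hH hz hx ih
    · exact inLat_Hinv hF hH hz hx hz' ih
    · have : ((-1 : SL2))⁻¹ = -1 := by simp
      rw [this]
      exact inLat_neg ih

end lat

theorem small_eq_zero {𝒪 : Subring ℂ} (h𝒪 : DiscRing 𝒪) {t b β : ℂ} (hb : b ∈ 𝒪)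
    (hβ : β = b ∨ β = t * b) (h1 : ‖β‖ < 1) (h2 : t ≠ 0 → ‖β‖ < ‖t‖) : β = 0 := by
  rcases hβ with rfl | rfl
  · exact h𝒪 _ hb h1
  · by_cases ht : t = 0
    · rw [ht, zero_mul]
    · have h3 := h2 ht
      rw [norm_mul] at h3
      have h4 : 0 < ‖t‖ := norm_pos_iff.2 ht
      have h5 : ‖b‖ < 1 := by
        by_contra h6
        push Not at h6
        nlinarith
      rw [h𝒪 _ hb h5, mul_zero]

/-- The group generated by an irreducible pair with integral traces is discrete. -/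
theorem disc_lat {𝒪 : Subring ℂ} (h𝒪 : DiscRing 𝒪) {F H : SL2} {t z : ℂ} (hF : tr F = t)
    (hH : tr H = t) (hz : tr (F * H) = z) (hx : t ^ 2 ∈ 𝒪) (hz' : z ∈ 𝒪) (h1 : z ≠ 2)
    (h2 : z + 2 - t ^ 2 ≠ 0) : Disc (Subgroup.closure ({F, H, -1} : Set SL2)) := by
  intro u hu hlim
  have hlat : ∀ n, InLat 𝒪 t F H (u n) := fun n => inLat_closure hF hH hz hx hz' (hu n)
  have hlat' : ∀ n, ∃ q : Fin 4 → ℂ, ((u n : SL2) : Matrix (Fin 2) (Fin 2) ℂ)
      = R F H (q 0) (q 1) (q 2) (q 3) ∧ ∀ i, ∃ b ∈ 𝒪, q i = b ∨ q i = t * b := by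
    intro n
    obtain ⟨a, b, c, d, ha, hb, hc, hd, h | h⟩ := hlat n
    · refine ⟨![a, t * b, t * c, d], h, ?_⟩
      intro i
      fin_cases i
      · exact ⟨a, ha, Or.inl rfl⟩
      · exact ⟨b, hb, Or.inr rfl⟩
      · exact ⟨c, hc, Or.inr rfl⟩
      · exact ⟨d, hd, Or.inl rfl⟩
    · refine ⟨![t * a, b, c, t * d], h, ?_⟩
      intro i
      fin_cases i
      · exact ⟨a, ha, Or.inr rfl⟩
      · exact ⟨b, hb, Or.inl rfl⟩
      · exact ⟨c, hc, Or.inl rfl⟩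
      · exact ⟨d, hd, Or.inr rfl⟩
  choose q hq hq2 using hlat'
  obtain ⟨t1, t2, t3⟩ := coord_tendsto hF hH hz h1 h2 hlim (α := fun n => q n 0)
    (β := fun n => q n 1) (γ := fun n => q n 2) (δ := fun n => q n 3) hq
  have small : ∀ {b : ℕ → ℂ}, Tendsto b atTop (𝓝 0) →
      ∀ᶠ n in atTop, ‖b n‖ < 1 ∧ (t ≠ 0 → ‖b n‖ < ‖t‖) := by
    intro b hb
    have hn : Tendsto (fun n => ‖b n‖) atTop (𝓝 0) := tendsto_zero_iff_norm_tendsto_zero.1 hb
    have e1 : ∀ᶠ n in atTop, ‖b n‖ < 1 := hn.eventually (gt_mem_nhds (by norm_num))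
    by_cases ht : t = 0
    · filter_upwards [e1] with n h3
      exact ⟨h3, fun h4 => absurd ht h4⟩
    · have e2 : ∀ᶠ n in atTop, ‖b n‖ < ‖t‖ := hn.eventually (gt_mem_nhds (norm_pos_iff.2 ht))
      filter_upwards [e1, e2] with n h3 h4
      exact ⟨h3, fun _ => h4⟩
  apply eventually_one_of_sq hlim
  filter_upwards [small t1, small t2, small t3] with n s1 s2 s3
  obtain ⟨b1, hb1, hb1'⟩ := hq2 n 1
  obtain ⟨b2, hb2, hb2'⟩ := hq2 n 2
  obtain ⟨b3, hb3, hb3'⟩ := hq2 n 3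
  have z1 : q n 1 = 0 := small_eq_zero h𝒪 hb1 hb1' s1.1 s1.2
  have z2 : q n 2 = 0 := small_eq_zero h𝒪 hb2 hb2' s2.1 s2.2
  have z3 : q n 3 = 0 := small_eq_zero h𝒪 hb3 hb3' s3.1 s3.2
  have hmat := hq n
  rw [z1, z2, z3] at hmat
  have e00 : u n 0 0 = q n 0 := by rw [hmat]; simp [R]
  have e01 : u n 0 1 = 0 := by rw [hmat]; simp [R]
  have e10 : u n 1 0 = 0 := by rw [hmat]; simp [R]
  have e11 : u n 1 1 = q n 0 := by rw [hmat]; simp [R]
  have hdet := det_eq (u n)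
  rw [e00, e01, e10, e11] at hdet
  apply sq_eq_one
  refine sl2_ext ?_ ?_ ?_ ?_
  · rw [mul_00, e00, e01, one_00]; linear_combination hdet
  · rw [mul_01, e00, e01, one_01]; ring
  · rw [mul_10, e10, e00, one_10]; ring
  · rw [mul_11, e11, e10, one_11]; linear_combination hdet

end Pool.Agent.H811.Tan
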