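import Pool.Agent.H811.Tan.Values
import Pool.Agent.H811.Tan.Defs

/-!
# The equality cases in `PSL(2, ℂ)`
-/

namespace Pool.Agent.H811.Tan

open Matrix Filter Topology
open scoped LinearAlgebra.Projectivization

set_option linter.unusedVariables false
set_option linter.unusedSimpArgs false

theorem trSq_mk (A : SL2) : trSq (A : PSL2) = tr A ^ 2 := rfl

theorem trComm_mk (A B : SL2) : trComm (A : PSL2) (B : PSL2) = tr (A⁻¹ * B⁻¹ * A * B) := rfl

/-- The preimage in `SL(2, ℂ)`. -/
def pre (Γ : Subgroup PSL2) : Subgroup SL2 := Γ.comap (QuotientGroup.mk' (Subgroup.center SL2))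

theorem mem_pre {Γ : Subgroup PSL2} {A : SL2} : A ∈ pre Γ ↔ (A : PSL2) ∈ Γ := Iff.rfl

theorem mk_eq_one {A : SL2} (h : (A : PSL2) = 1) : A = 1 ∨ A = -1 :=
  center_cases ((QuotientGroup.eq_one_iff A).1 h)

theorem mk_neg_one : ((-1 : SL2) : PSL2) = 1 := (QuotientGroup.eq_one_iff _).2 neg_one_mem_center

theorem neg_one_mem_pre (Γ : Subgroup PSL2) : (-1 : SL2) ∈ pre Γ := by
  rw [mem_pre, mk_neg_one]
  exact Γ.one_mem

theorem disc_pre {Γ : Subgroup PSL2} (hΓ : DiscreteTopology Γ) : Disc (pre Γ) := by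
  intro u hu h
  have h1 : Tendsto u atTop (𝓝 1) := tendsto_SL2 h
  have hc : Continuous (fun A : SL2 => (A : PSL2)) := continuous_quot_mk
  have h2 : Tendsto (fun n => ((u n : SL2) : PSL2)) atTop (𝓝 ((1 : SL2) : PSL2)) :=
    (hc.tendsto 1).comp h1
  have h3 : Tendsto (fun n => (⟨((u n : SL2) : PSL2), hu n⟩ : Γ)) atTop (𝓝 (1 : Γ)) := by
    rw [tendsto_subtype_rng]
    exact h2
  rw [nhds_discrete, tendsto_pure] at h3
  apply eventually_one_of_sq h
  filter_upwards [h3] with n hn
  exact mk_eq_one (congrArg Subtype.val hn)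

theorem not_nonelementary {f g : PSL2} {S : Set Sphere} (hS : S.Finite) (hS0 : S.Nonempty)
    (hf : ∀ p ∈ S, f • p ∈ S ∧ f⁻¹ • p ∈ S) (hg : ∀ p ∈ S, g • p ∈ S ∧ g⁻¹ • p ∈ S) :
    ¬ Nonelementary (Subgroup.closure {f, g}) := by
  have key : ∀ γ ∈ Subgroup.closure {f, g}, ∀ p ∈ S, γ • p ∈ S ∧ γ⁻¹ • p ∈ S := by
    intro γ hγ
    induction hγ using Subgroup.closure_induction with
    | mem x hx =>
      rcases hx with rfl | rfl
      · exact hf
      · exact hg
    | one => intro p hp; simp [hp]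
    | mul x y hx hy ihx ihy =>
      intro p hp
      rw [mul_smul, _root_.mul_inv_rev, mul_smul]
      exact ⟨(ihx _ (ihy p hp).1).1, (ihy _ (ihx p hp).2).2⟩
    | inv x hx ih =>
      intro p hp
      rw [inv_inv]
      exact ⟨(ih p hp).2, (ih p hp).1⟩
  intro hne
  obtain ⟨γ, hγ, p, hp, hp2⟩ := hne S hS hS0
  exact hp2 (key γ hγ p hp).1

theorem ne_zero_e0 : (![1, 0] : Fin 2 → ℂ) ≠ 0 := by
  intro h
  have := congrFun h 0
  simp at this

theorem ne_zero_e1 : (![0, 1] : Fin 2 → ℂ) ≠ 0 := by
  intro h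
  have := congrFun h 1
  simp at this

/-- The point `∞` of the sphere. -/
noncomputable def pInf : Sphere := Projectivization.mk ℂ ![1, 0] ne_zero_e0

/-- The point `0` of the sphere. -/
noncomputable def pZero : Sphere := Projectivization.mk ℂ ![0, 1] ne_zero_e1

theorem smul_vec (A : SL2) (v : Fin 2 → ℂ) :
    A • v = ![A 0 0 * v 0 + A 0 1 * v 1, A 1 0 * v 0 + A 1 1 * v 1] := by
  rw [Matrix.SpecialLinearGroup.smul_def, Matrix.smul_eq_mulVec]
  funext i
  fin_cases i <;> simp [Matrix.mulVec, dotProduct, Fin.sum_univ_two]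

theorem smul_eq_iff (A : SL2) (v : Fin 2 → ℂ) (hv : v ≠ 0) :
    (A : PSL2) • (Projectivization.mk ℂ v hv : Sphere) = Projectivization.mk ℂ v hv ↔
      (A 0 0 * v 0 + A 0 1 * v 1) * v 1 = (A 1 0 * v 0 + A 1 1 * v 1) * v 0 := by
  rw [Matrix.ProjectiveSpecialLinearGroup.smul_proj_mk, Projectivization.smul_mk,
    Projectivization.mk_eq_mk_iff']
  constructor
  · rintro ⟨a, ha⟩
    rw [smul_vec] at ha
    have h0 := congrFun ha 0
    have h1 := congrFun ha 1
    simp at h0 h1
    rw [← h0, ← h1]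
    ring
  · intro h
    rw [smul_vec]
    by_cases h0 : v 0 = 0
    · have h1 : v 1 ≠ 0 := by
        intro h1
        apply hv
        funext i; fin_cases i
        · exact h0
        · exact h1
      refine ⟨(A 1 0 * v 0 + A 1 1 * v 1) / v 1, ?_⟩
      funext i; fin_cases i
      · simp
        field_simp
        linear_combination -h
      · simp
        field_simp
    · refine ⟨(A 0 0 * v 0 + A 0 1 * v 1) / v 0, ?_⟩
      funext i; fin_cases i
      · simp
        field_simp
      · simp
        field_simp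
        linear_combination h

theorem smul_pInf_iff (A : SL2) : (A : PSL2) • pInf = pInf ↔ A 1 0 = 0 := by
  unfold pInf
  rw [smul_eq_iff]
  simp [eq_comm]

theorem smul_pZero_iff (A : SL2) : (A : PSL2) • pZero = pZero ↔ A 0 1 = 0 := by
  unfold pZero
  rw [smul_eq_iff]
  simp

/-- The fixed points of a diagonal matrix. -/
theorem fix_diag {A : SL2} (h01 : A 0 1 = 0) (h10 : A 1 0 = 0) (hne : A 0 0 ≠ A 1 1) (p : Sphere)
    (hp : (A : PSL2) • p = p) : p = pInf ∨ p = pZero := by
  induction p using Projectivization.ind with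
  | h v hv =>
    rw [smul_eq_iff, h01, h10] at hp
    have h1 : (A 0 0 - A 1 1) * (v 0 * v 1) = 0 := by linear_combination hp
    have h2 : v 0 * v 1 = 0 := (mul_eq_zero.1 h1).resolve_left (sub_ne_zero.2 hne)
    rcases mul_eq_zero.1 h2 with h3 | h3
    · right
      unfold pZero
      rw [Projectivization.mk_eq_mk_iff']
      refine ⟨v 1, ?_⟩
      funext i; fin_cases i
      · simp [h3]
      · simp
    · left
      unfold pInf
      rw [Projectivization.mk_eq_mk_iff']
      refine ⟨v 0, ?_⟩
      funext i; fin_cases i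
      · simp
      · simp [h3]

theorem coe_mul' (A B : SL2) : ((A * B : SL2) : PSL2) = (A : PSL2) * (B : PSL2) := rfl
theorem coe_inv' (A : SL2) : ((A⁻¹ : SL2) : PSL2) = (A : PSL2)⁻¹ := rfl

/-- The fixed points of an element form a finite nonempty set. -/
theorem fix_finite {F : SL2} (hx : tr F ^ 2 ≠ 4) :
    {p : Sphere | (F : PSL2) • p = p}.Finite ∧ {p : Sphere | (F : PSL2) • p = p}.Nonempty := by
  obtain ⟨P, h01, h10⟩ := exists_diag F hx
  have hne : (P * F * P⁻¹) 0 0 ≠ (P * F * P⁻¹) 1 1 := by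
    intro he
    apply hx
    rw [← tr_conj P F]
    have hd := diag_det h01 h10
    unfold tr
    rw [← he] at hd ⊢
    linear_combination 4 * hd
  constructor
  · apply Set.Finite.subset (s := {(P : PSL2)⁻¹ • pInf, (P : PSL2)⁻¹ • pZero}) (by simp)
    intro p hp
    have h1 : ((P * F * P⁻¹ : SL2) : PSL2) • ((P : PSL2) • p) = (P : PSL2) • p := by
      rw [coe_mul', coe_mul', coe_inv', mul_smul, mul_smul, inv_smul_smul, hp]
    rcases fix_diag h01 h10 hne _ h1 with h2 | h2
    · left; rw [← h2, inv_smul_smul]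
    · right
      show p = (P : PSL2)⁻¹ • pZero
      rw [← h2, inv_smul_smul]
  · refine ⟨(P : PSL2)⁻¹ • pInf, ?_⟩
    have h1 := (smul_pInf_iff _).2 h10
    rw [coe_mul', coe_mul', coe_inv', mul_smul, mul_smul] at h1
    show (F : PSL2) • (P : PSL2)⁻¹ • pInf = (P : PSL2)⁻¹ • pInf
    rw [eq_inv_smul_iff, h1]

/-- If `g f⁻¹ g⁻¹ = f` then the group is elementary. -/
theorem elementary_of_inv {F G : SL2} (hx : tr F ^ 2 ≠ 4) (h : G * F⁻¹ * G⁻¹ = F) :
    ¬ Nonelementary (Subgroup.closure {(F : PSL2), (G : PSL2)}) := by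
  obtain ⟨h1, h2⟩ := fix_finite hx
  have hinv : ∀ p : Sphere, (F : PSL2) • p = p → (F : PSL2)⁻¹ • p = p := by
    intro p hp
    rw [inv_smul_eq_iff, hp]
  refine not_nonelementary h1 h2 ?_ ?_
  · intro p hp
    have hp' : (F : PSL2) • p = p := hp
    have hp2 := hinv p hp'
    rw [hp', hp2]
    exact ⟨hp, hp⟩
  · intro p hp
    have hp' : (F : PSL2) • p = p := hp
    have hp2 := hinv p hp'
    constructor
    · show (F : PSL2) • ((G : PSL2) • p) = (G : PSL2) • p
      have e : (F : PSL2) * (G : PSL2) = (G : PSL2) * (F : PSL2)⁻¹ := by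
        rw [← coe_mul', ← coe_inv', ← coe_mul']
        congr 1
        nth_rw 1 [← h]
        group
      rw [← mul_smul, e, mul_smul, hp2]
    · show (F : PSL2) • ((G : PSL2)⁻¹ • p) = (G : PSL2)⁻¹ • p
      have e : (F : PSL2) * (G : PSL2)⁻¹ = (G : PSL2)⁻¹ * (F : PSL2)⁻¹ := by
        rw [← coe_inv', ← coe_inv', ← coe_mul', ← coe_mul']
        congr 1
        have : F⁻¹ = G * F * G⁻¹ := by
          nth_rw 1 [← h]
          group
        rw [this]
        group
      rw [← mul_smul, e, mul_smul, hp2]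

theorem tr_comm_diag {F G : SL2} (h01 : F 0 1 = 0) (h10 : F 1 0 = 0) :
    tr (F * (G * F⁻¹ * G⁻¹)) = 2 - G 0 1 * G 1 0 * (F 0 0 - F 1 1) ^ 2 := by
  have hd := diag_det h01 h10
  have hG := det_eq G
  unfold tr
  simp only [mul_00, mul_01, mul_10, mul_11, inv_00, inv_01, inv_10, inv_11, h01, h10]
  linear_combination (2 * G 0 0 * G 1 1 - 2 * G 0 1 * G 1 0) * hd + 2 * hG

/-- If `tr [f, g] = 2` then the group is elementary. -/
theorem elementary_of_two {F G : SL2} (hx : tr F ^ 2 ≠ 4) (h : tr (F⁻¹ * G⁻¹ * F * G) = 2) :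
    ¬ Nonelementary (Subgroup.closure {(F : PSL2), (G : PSL2)}) := by
  rw [tr_comm_eq] at h
  obtain ⟨P, h01, h10⟩ := exists_diag F hx
  have hne : (P * F * P⁻¹) 0 0 ≠ (P * F * P⁻¹) 1 1 := by
    intro he
    apply hx
    rw [← tr_conj P F]
    have hd := diag_det h01 h10
    unfold tr
    rw [← he] at hd ⊢
    linear_combination 4 * hd
  have e := tr_comm_diag (G := P * G * P⁻¹) h01 h10
  have e2 : (P * F * P⁻¹) * ((P * G * P⁻¹) * (P * F * P⁻¹)⁻¹ * (P * G * P⁻¹)⁻¹)
      = P * (F * (G * F⁻¹ * G⁻¹)) * P⁻¹ := by group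
  rw [e2, tr_conj, h] at e
  have hbc : (P * G * P⁻¹) 0 1 * (P * G * P⁻¹) 1 0 = 0 := by
    have h3 : (P * G * P⁻¹) 0 1 * (P * G * P⁻¹) 1 0 *
      ((P * F * P⁻¹) 0 0 - (P * F * P⁻¹) 1 1) ^ 2 = 0 := by linear_combination e
    exact (mul_eq_zero.1 h3).resolve_right (pow_ne_zero _ (sub_ne_zero.2 hne))
  have gen : ∀ q : Sphere, ((P * F * P⁻¹ : SL2) : PSL2) • q = q →
      ((P * G * P⁻¹ : SL2) : PSL2) • q = q →
      ¬ Nonelementary (Subgroup.closure {(F : PSL2), (G : PSL2)}) := by
    intro q hq1 hq2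
    have hq1' : (F : PSL2) • ((P : PSL2)⁻¹ • q) = (P : PSL2)⁻¹ • q := by
      rw [coe_mul', coe_mul', coe_inv', mul_smul, mul_smul] at hq1
      rw [eq_inv_smul_iff, hq1]
    have hq2' : (G : PSL2) • ((P : PSL2)⁻¹ • q) = (P : PSL2)⁻¹ • q := by
      rw [coe_mul', coe_mul', coe_inv', mul_smul, mul_smul] at hq2
      rw [eq_inv_smul_iff, hq2]
    have hq1'' : (F : PSL2)⁻¹ • ((P : PSL2)⁻¹ • q) = (P : PSL2)⁻¹ • q := by
      rw [inv_smul_eq_iff, hq1']
    have hq2'' : (G : PSL2)⁻¹ • ((P : PSL2)⁻¹ • q) = (P : PSL2)⁻¹ • q := by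
      rw [inv_smul_eq_iff, hq2']
    refine not_nonelementary (S := {(P : PSL2)⁻¹ • q}) (Set.finite_singleton _)
      (Set.singleton_nonempty _) ?_ ?_
    · rintro p rfl
      exact ⟨hq1', hq1''⟩
    · rintro p rfl
      exact ⟨hq2', hq2''⟩
  rcases mul_eq_zero.1 hbc with h4 | h4
  · exact gen pZero ((smul_pZero_iff _).2 h01) ((smul_pZero_iff _).2 h4)
  · exact gen pInf ((smul_pInf_iff _).2 h10) ((smul_pInf_iff _).2 h4)

/-- The roots of unity of order dividing four or six, different from `1`. -/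
theorem roots {w : ℂ} (h : w ^ 4 = 1 ∨ w ^ 6 = 1) :
    w = 1 ∨ w = -1 ∨ w = Complex.I ∨ w = -Complex.I ∨
      w = (1 + Real.sqrt 3 * Complex.I) / 2 ∨ w = (1 - Real.sqrt 3 * Complex.I) / 2 ∨
      w = (-1 + Real.sqrt 3 * Complex.I) / 2 ∨ w = (-1 - Real.sqrt 3 * Complex.I) / 2 := by
  have hI := Complex.I_sq
  have h3 : ((Real.sqrt 3 : ℝ) : ℂ) ^ 2 = 3 := by
    rw [← Complex.ofReal_pow, Real.sq_sqrt (by norm_num)]; norm_num
  rcases h with h | h
  · have h1 : (w - 1) * ((w + 1) * ((w - Complex.I) * (w + Complex.I))) = 0 := by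
      linear_combination h - (w ^ 2 - 1) * hI
    rcases mul_eq_zero.1 h1 with h2 | h2
    · left; linear_combination h2
    rcases mul_eq_zero.1 h2 with h2 | h2
    · right; left; linear_combination h2
    rcases mul_eq_zero.1 h2 with h2 | h2
    · right; right; left; linear_combination h2
    · right; right; right; left; linear_combination h2
  · have h1 : (w - 1) * ((w + 1) * (((w - (1 + Real.sqrt 3 * Complex.I) / 2) *
        (w - (1 - Real.sqrt 3 * Complex.I) / 2)) * ((w - (-1 + Real.sqrt 3 * Complex.I) / 2) *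
        (w - (-1 - Real.sqrt 3 * Complex.I) / 2)))) = 0 := by
      have e1 : (w - (1 + Real.sqrt 3 * Complex.I) / 2) * (w - (1 - Real.sqrt 3 * Complex.I) / 2)
          = w ^ 2 - w + 1 := by
        linear_combination (-Real.sqrt 3 ^ 2 / 4) * hI + (1 / 4) * h3
      have e2 : (w - (-1 + Real.sqrt 3 * Complex.I) / 2) * (w - (-1 - Real.sqrt 3 * Complex.I) / 2)
          = w ^ 2 + w + 1 := by
        linear_combination (-Real.sqrt 3 ^ 2 / 4) * hI + (1 / 4) * h3
      rw [e1, e2]
      linear_combination h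
    rcases mul_eq_zero.1 h1 with h2 | h2
    · left; linear_combination h2
    rcases mul_eq_zero.1 h2 with h2 | h2
    · right; left; linear_combination h2
    rcases mul_eq_zero.1 h2 with h2 | h2
    · rcases mul_eq_zero.1 h2 with h2 | h2
      · right; right; right; right; left; linear_combination h2
      · right; right; right; right; right; left; linear_combination h2
    · rcases mul_eq_zero.1 h2 with h2 | h2
      · right; right; right; right; right; right; left; linear_combination h2
      · right; right; right; right; right; right; right; linear_combination h2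

theorem four_ne_of_norm {x : ℂ} (h : ‖x - 2‖ ≤ 1) : x ≠ 4 := by
  rintro rfl
  norm_num at h

theorem tan_necessary {f g : PSL2} (hd : DiscreteTopology (Subgroup.closure {f, g}))
    (hne : Nonelementary (Subgroup.closure {f, g})) (h1 : trComm f g ≠ 1)
    (h2 : ‖trSq f - 2‖ + ‖trComm f g - 1‖ = 1) :
    trSq f = 2 ∧ trComm f g ∈ tanValues := by
  induction f using QuotientGroup.induction_on with
  | H F =>
  induction g using QuotientGroup.induction_on with
  | H G =>
  rw [trSq_mk, trComm_mk] at h2 ⊢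
  rw [trComm_mk] at h1
  have hΓ := disc_pre hd
  have hF : F ∈ pre (Subgroup.closure {(F : PSL2), (G : PSL2)}) :=
    Subgroup.subset_closure (by simp)
  have hG : G ∈ pre (Subgroup.closure {(F : PSL2), (G : PSL2)}) :=
    Subgroup.subset_closure (by simp)
  have hx4 : tr F ^ 2 ≠ 4 := four_ne_of_norm (by linarith [norm_nonneg (tr (F⁻¹ * G⁻¹ * F * G) - 1)])
  rcases thmA hΓ hF hG h1 h2 with ⟨h3, h4⟩ | h3
  · refine ⟨h3, ?_⟩
    have hz2 : tr (F⁻¹ * G⁻¹ * F * G) ≠ 2 := fun h5 => elementary_of_two hx4 h5 hne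
    generalize tr (F⁻¹ * G⁻¹ * F * G) = z at *
    unfold tanValues
    simp only [Set.mem_insert_iff, Set.mem_singleton_iff]
    rcases roots h4 with h | h | h | h | h | h | h | h
    · exact absurd (by linear_combination h) hz2
    · left; linear_combination h
    · right; left; linear_combination h
    · right; right; left; linear_combination h
    · right; right; right; right; right; left; linear_combination h
    · right; right; right; right; right; right; linear_combination h
    · right; right; right; left; linear_combination h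
    · right; right; right; right; left; linear_combination h
  · exact absurd hne (elementary_of_inv hx4 h3)

theorem gmt_necessary {f g : PSL2} (hd : DiscreteTopology (Subgroup.closure {f, g}))
    (hne : Nonelementary (Subgroup.closure {f, g})) (h1 : trSq f ≠ 1)
    (h2 : ‖trSq f - 1‖ + ‖trComm f g‖ = 1) :
    trComm f g = 0 ∧ trSq f ∈ gmtValues := by
  induction f using QuotientGroup.induction_on with
  | H F =>
  induction g using QuotientGroup.induction_on with
  | H G =>
  rw [trSq_mk, trComm_mk] at h2 ⊢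
  rw [trSq_mk] at h1
  have hΓ := disc_pre hd
  have hF : F ∈ pre (Subgroup.closure {(F : PSL2), (G : PSL2)}) :=
    Subgroup.subset_closure (by simp)
  have hG : G ∈ pre (Subgroup.closure {(F : PSL2), (G : PSL2)}) :=
    Subgroup.subset_closure (by simp)
  have hx4 : tr F ^ 2 ≠ 4 := by
    intro h3
    rw [h3] at h2
    norm_num at h2
    linarith [norm_nonneg (tr (F⁻¹ * G⁻¹ * F * G))]
  rcases thmB hΓ (neg_one_mem_pre _) hF hG h1 h2 with ⟨h3, h4⟩ | h3
  · refine ⟨h3, ?_⟩
    generalize tr F ^ 2 = x at *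
    unfold gmtValues
    simp only [Set.mem_insert_iff, Set.mem_singleton_iff]
    rcases roots h4 with h | h | h | h | h | h | h | h
    · left; linear_combination -h
    · right; left; linear_combination -h
    · right; right; right; left; linear_combination -h
    · right; right; left; linear_combination -h
    · right; right; right; right; right; left; linear_combination -h
    · right; right; right; right; left; linear_combination -h
    · right; right; right; right; right; right; right; linear_combination -h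
    · right; right; right; right; right; right; left; linear_combination -h
  · exact absurd hne (elementary_of_inv hx4 h3)

theorem norm_one_of_pow {w : ℂ} (h : w ^ 12 = 1) : ‖w‖ = 1 := by
  have h1 : ‖w‖ ^ 12 = 1 := by rw [← norm_pow, h, norm_one]
  exact (pow_eq_one_iff_of_nonneg (norm_nonneg _) (by norm_num)).1 h1

end Pool.Agent.H811.Tan
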