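import Pool.Agent.H811.Tan.Circle

/-!
# The extremal pairs: the general theorem
-/

namespace Pool.Agent.H811.Tan

open Matrix Filter Topology ComplexConjugate

set_option linter.unusedVariables false
set_option linter.unusedSimpArgs false

/-- Products of conjugates. -/
def Ts (F T : SL2) : ℕ → SL2
  | 0 => T
  | n + 1 => F * Ts F T n * F⁻¹ * (F⁻¹ * Ts F T n * F)

theorem Ts_mem {Γ : Subgroup SL2} {F T : SL2} (hF : F ∈ Γ) (hT : T ∈ Γ) (n : ℕ) :
    Ts F T n ∈ Γ := by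
  induction n with
  | zero => exact hT
  | succ n ih =>
    exact Γ.mul_mem (Γ.mul_mem (Γ.mul_mem hF ih) (Γ.inv_mem hF))
      (Γ.mul_mem (Γ.mul_mem (Γ.inv_mem hF) ih) hF)

theorem Ts_upper {F T : SL2} (h01 : F 0 1 = 0) (h10 : F 1 0 = 0) (t00 : T 0 0 = 1)
    (t10 : T 1 0 = 0) (t11 : T 1 1 = 1) (n : ℕ) :
    (Ts F T n) 0 0 = 1 ∧ (Ts F T n) 0 1 = ss F ^ n * T 0 1 ∧ (Ts F T n) 1 0 = 0 ∧
      (Ts F T n) 1 1 = 1 := by
  have hd := diag_det h01 h10
  have hs := diag_ss h01 h10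
  induction n with
  | zero => exact ⟨t00, by simp [Ts], t10, t11⟩
  | succ n ih =>
    obtain ⟨i1, i2, i3, i4⟩ := ih
    rw [hs] at i2
    rw [hs, pow_succ]
    refine ⟨?_, ?_, ?_, ?_⟩
    · rw [Ts]
      simp only [mul_00, mul_01, mul_10, mul_11, inv_00, inv_01, inv_10, inv_11, h01, h10, i1, i2,
        i3, i4]
      linear_combination (F 0 0 * F 1 1 + 1) * hd
    · rw [Ts]
      simp only [mul_00, mul_01, mul_10, mul_11, inv_00, inv_01, inv_10, inv_11, h01, h10, i1, i2,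
        i3, i4]
      linear_combination ((F 0 0 ^ 2 + F 1 1 ^ 2) ^ n * T 0 1 * (F 0 0 ^ 2 + F 1 1 ^ 2)) * hd
    · rw [Ts]
      simp only [mul_00, mul_01, mul_10, mul_11, inv_00, inv_01, inv_10, inv_11, h01, h10, i1, i2,
        i3, i4]
      ring
    · rw [Ts]
      simp only [mul_00, mul_01, mul_10, mul_11, inv_00, inv_01, inv_10, inv_11, h01, h10, i1, i2,
        i3, i4]
      linear_combination (F 0 0 * F 1 1 + 1) * hd

theorem Ts_lower {F T : SL2} (h01 : F 0 1 = 0) (h10 : F 1 0 = 0) (t00 : T 0 0 = 1)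
    (t01 : T 0 1 = 0) (t11 : T 1 1 = 1) (n : ℕ) :
    (Ts F T n) 0 0 = 1 ∧ (Ts F T n) 0 1 = 0 ∧ (Ts F T n) 1 0 = ss F ^ n * T 1 0 ∧
      (Ts F T n) 1 1 = 1 := by
  have hd := diag_det h01 h10
  have hs := diag_ss h01 h10
  induction n with
  | zero => exact ⟨t00, t01, by simp [Ts], t11⟩
  | succ n ih =>
    obtain ⟨i1, i2, i3, i4⟩ := ih
    rw [hs] at i3
    rw [hs, pow_succ]
    refine ⟨?_, ?_, ?_, ?_⟩
    · rw [Ts]
      simp only [mul_00, mul_01, mul_10, mul_11, inv_00, inv_01, inv_10, inv_11, h01, h10, i1, i2,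
        i3, i4]
      linear_combination (F 0 0 * F 1 1 + 1) * hd
    · rw [Ts]
      simp only [mul_00, mul_01, mul_10, mul_11, inv_00, inv_01, inv_10, inv_11, h01, h10, i1, i2,
        i3, i4]
      ring
    · rw [Ts]
      simp only [mul_00, mul_01, mul_10, mul_11, inv_00, inv_01, inv_10, inv_11, h01, h10, i1, i2,
        i3, i4]
      linear_combination ((F 0 0 ^ 2 + F 1 1 ^ 2) ^ n * T 1 0 * (F 0 0 ^ 2 + F 1 1 ^ 2)) * hd
    · rw [Ts]
      simp only [mul_00, mul_01, mul_10, mul_11, inv_00, inv_01, inv_10, inv_11, h01, h10, i1, i2,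
        i3, i4]
      linear_combination (F 0 0 * F 1 1 + 1) * hd

theorem tendsto_geom {s τ : ℂ} (hs : ‖s‖ < 1) : Tendsto (fun n : ℕ => s ^ n * τ) atTop (𝓝 0) := by
  simpa using (tendsto_pow_atTop_nhds_zero_of_norm_lt_one hs).mul_const τ

theorem Ts_upper_trivial {Γ : Subgroup SL2} (hΓ : Disc Γ) {F T : SL2} (hF : F ∈ Γ) (hT : T ∈ Γ)
    (h01 : F 0 1 = 0) (h10 : F 1 0 = 0) (t00 : T 0 0 = 1) (t10 : T 1 0 = 0) (t11 : T 1 1 = 1)
    (hs0 : ss F ≠ 0) (hs1 : ‖ss F‖ < 1) : T 0 1 = 0 := by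
  have hent := Ts_upper h01 h10 t00 t10 t11
  have hev := hΓ (Ts F T) (Ts_mem hF hT) (by
    intro i j
    fin_cases i <;> fin_cases j
    · show Tendsto (fun n => (Ts F T n) 0 0) atTop (𝓝 ((1 : SL2) 0 0))
      simp only [(hent _).1, one_00]; exact tendsto_const_nhds
    · show Tendsto (fun n => (Ts F T n) 0 1) atTop (𝓝 ((1 : SL2) 0 1))
      simp only [(hent _).2.1, one_01]; exact tendsto_geom hs1
    · show Tendsto (fun n => (Ts F T n) 1 0) atTop (𝓝 ((1 : SL2) 1 0))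
      simp only [(hent _).2.2.1, one_10]; exact tendsto_const_nhds
    · show Tendsto (fun n => (Ts F T n) 1 1) atTop (𝓝 ((1 : SL2) 1 1))
      simp only [(hent _).2.2.2, one_11]; exact tendsto_const_nhds)
  obtain ⟨n, hn⟩ := hev.exists
  have h1 := (hent n).2.1
  rw [hn, one_01] at h1
  rcases mul_eq_zero.1 h1.symm with h2 | h2
  · exact absurd h2 (pow_ne_zero n hs0)
  · exact h2

theorem Ts_lower_trivial {Γ : Subgroup SL2} (hΓ : Disc Γ) {F T : SL2} (hF : F ∈ Γ) (hT : T ∈ Γ)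
    (h01 : F 0 1 = 0) (h10 : F 1 0 = 0) (t00 : T 0 0 = 1) (t01 : T 0 1 = 0) (t11 : T 1 1 = 1)
    (hs0 : ss F ≠ 0) (hs1 : ‖ss F‖ < 1) : T 1 0 = 0 := by
  have hent := Ts_lower h01 h10 t00 t01 t11
  have hev := hΓ (Ts F T) (Ts_mem hF hT) (by
    intro i j
    fin_cases i <;> fin_cases j
    · show Tendsto (fun n => (Ts F T n) 0 0) atTop (𝓝 ((1 : SL2) 0 0))
      simp only [(hent _).1, one_00]; exact tendsto_const_nhds
    · show Tendsto (fun n => (Ts F T n) 0 1) atTop (𝓝 ((1 : SL2) 0 1))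
      simp only [(hent _).2.1, one_01]; exact tendsto_const_nhds
    · show Tendsto (fun n => (Ts F T n) 1 0) atTop (𝓝 ((1 : SL2) 1 0))
      simp only [(hent _).2.2.1, one_10]; exact tendsto_geom hs1
    · show Tendsto (fun n => (Ts F T n) 1 1) atTop (𝓝 ((1 : SL2) 1 1))
      simp only [(hent _).2.2.2, one_11]; exact tendsto_const_nhds)
  obtain ⟨n, hn⟩ := hev.exists
  have h1 := (hent n).2.2.1
  rw [hn, one_10] at h1
  rcases mul_eq_zero.1 h1.symm with h2 | h2
  · exact absurd h2 (pow_ne_zero n hs0)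
  · exact h2

/-- Lemma P for a diagonal matrix. -/
theorem lemmaP_diag {Γ : Subgroup SL2} (hΓ : Disc Γ) {F H : SL2} (hF : F ∈ Γ) (hH : H ∈ Γ)
    (h01 : F 0 1 = 0) (h10 : F 1 0 = 0) (hne : F 0 0 ≠ F 1 1) (h : tr H = tr F)
    (hw : ww F H = ss F - 1) (hs0 : ss F ≠ 0) (hs1 : ‖ss F‖ < 1) : H = F := by
  have hd := diag_det h01 h10
  have hs := diag_ss h01 h10
  have hδ : F 0 0 - F 1 1 ≠ 0 := sub_ne_zero.2 hne
  have ha : H 0 0 = F 0 0 := by
    have := entry_00 h01 h10 H h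
    rw [hw, hs] at this
    apply mul_left_cancel₀ hδ
    linear_combination this + hd
  have hdd : H 1 1 = F 1 1 := by
    unfold tr at h
    linear_combination h - ha
  have hbc : H 0 1 * H 1 0 = 0 := by
    have := det_eq H
    rw [ha, hdd] at this
    linear_combination hd - this
  have hT : F * H⁻¹ ∈ Γ := Γ.mul_mem hF (Γ.inv_mem hH)
  have t00 : (F * H⁻¹) 0 0 = 1 := by
    simp only [mul_00, inv_00, inv_10, h01, hdd]; linear_combination hd
  have t11 : (F * H⁻¹) 1 1 = 1 := by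
    simp only [mul_11, inv_01, inv_11, h10, ha]; linear_combination hd
  have l0 : F 0 0 ≠ 0 := left_ne_zero_of_mul (by rw [hd]; exact one_ne_zero)
  have m0 : F 1 1 ≠ 0 := right_ne_zero_of_mul (by rw [hd]; exact one_ne_zero)
  have t01 : (F * H⁻¹) 0 1 = - (F 0 0 * H 0 1) := by
    simp only [mul_01, inv_01, inv_11, h01]; ring
  have t10 : (F * H⁻¹) 1 0 = - (F 1 1 * H 1 0) := by
    simp only [mul_10, inv_00, inv_10, h10]; ring
  have hb : H 0 1 = 0 ∧ H 1 0 = 0 := by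
    rcases mul_eq_zero.1 hbc with hb | hc
    · refine ⟨hb, ?_⟩
      have := Ts_lower_trivial hΓ hF hT h01 h10 t00 (by rw [t01, hb]; ring) t11 hs0 hs1
      rw [t10] at this
      have h2 := neg_eq_zero.1 this
      exact (mul_eq_zero.1 h2).resolve_left m0
    · refine ⟨?_, hc⟩
      have := Ts_upper_trivial hΓ hF hT h01 h10 t00 (by rw [t10, hc]; ring) t11 hs0 hs1
      rw [t01] at this
      have h2 := neg_eq_zero.1 this
      exact (mul_eq_zero.1 h2).resolve_left l0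
  exact sl2_ext ha (by rw [hb.1, h01]) (by rw [hb.2, h10]) hdd

/-- Lemma P. -/
theorem lemmaP {Γ : Subgroup SL2} (hΓ : Disc Γ) {F H : SL2} (hF : F ∈ Γ) (hH : H ∈ Γ)
    (h : tr H = tr F) (hw : ww F H = ss F - 1) (hs0 : ss F ≠ 0) (hs1 : ‖ss F‖ < 1) : H = F := by
  have hx := ss_ne hs1
  obtain ⟨P, h01, h10⟩ := exists_diag F hx
  have hne : (P * F * P⁻¹) 0 0 ≠ (P * F * P⁻¹) 1 1 := by
    intro he
    apply hx
    rw [← tr_conj P F]
    have hd := diag_det h01 h10
    unfold tr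
    rw [← he] at hd ⊢
    linear_combination 4 * hd
  have key := lemmaP_diag (disc_cj (P := P) hΓ) (F := P * F * P⁻¹) (H := P * H * P⁻¹)
    (mem_cj.2 hF) (mem_cj.2 hH) h01 h10 hne (by rw [tr_conj, tr_conj, h])
    (by rw [ww_conj, ss_conj, hw]) (by rw [ss_conj]; exact hs0) (by rw [ss_conj]; exact hs1)
  have := congrArg (fun X => P⁻¹ * X * P) key
  simpa [mul_assoc] using this

/-- The theorem on extremal pairs. -/
theorem core {Γ : Subgroup SL2} (hΓ : Disc Γ) {F H : SL2} (hF : F ∈ Γ) (hH : H ∈ Γ)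
    (h : tr H = tr F) (hw0 : ww F H ≠ 0) (heq : ‖ss F‖ + ‖ww F H‖ = 1) :
    (ss F = 0 ∧ (ww F H ^ 4 = 1 ∨ ww F H ^ 6 = 1)) ∨ H = F := by
  by_cases hs0 : ss F = 0
  · left
    refine ⟨hs0, circle hΓ hF hH h hs0 ?_⟩
    rw [hs0, norm_zero, zero_add] at heq
    exact heq
  right
  have hsp : 0 < ‖ss F‖ := norm_pos_iff.2 hs0
  have hwp : 0 < ‖ww F H‖ := norm_pos_iff.2 hw0
  have hs1 : ‖ss F‖ < 1 := by linarith
  have hv0 : ‖ww F H - ss F‖ ≤ 1 := (norm_sub_le _ _).trans (by linarith)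
  have e1 : ww F (Ks F H 1) - ss F = (ww F H - ss F) * ww F H := vv_Ks F H h 0
  have hv1 : ‖ww F (Ks F H 1) - ss F‖ ≤ ‖ww F H‖ := by
    rw [e1, norm_mul]
    exact mul_le_of_le_one_left (norm_nonneg _) hv0
  -- from time one on
  have key : ∀ n, ‖ww F (Ks F H (n + 1)) - ss F‖ ≤ ‖ww F H‖ ∧ ‖ww F (Ks F H (n + 1))‖ ≤ 1 := by
    intro n
    induction n with
    | zero =>
      refine ⟨hv1, ?_⟩
      have : ww F (Ks F H (0 + 1)) = (ww F (Ks F H 1) - ss F) + ss F := by ring_nf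
      rw [this]
      exact (norm_add_le _ _).trans (by linarith)
    | succ n ih =>
      have h1 : ‖ww F (Ks F H (n + 1 + 1)) - ss F‖ ≤ ‖ww F H‖ := by
        rw [vv_Ks F H h (n + 1), norm_mul]
        exact (mul_le_of_le_one_right (norm_nonneg _) ih.2).trans ih.1
      refine ⟨h1, ?_⟩
      have : ww F (Ks F H (n + 1 + 1)) = (ww F (Ks F H (n + 1 + 1)) - ss F) + ss F := by ring
      rw [this]
      exact (norm_add_le _ _).trans (by linarith)
  rcases (key 0).2.eq_or_lt with hw1 | hw1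
  · -- the equality case
    have hw1' : ‖ww F (Ks F H 1)‖ = 1 := hw1
    have e2 : ww F (Ks F H 1) = (ww F H - ss F) * ww F H + ss F := by linear_combination e1
    have hle : ‖ww F (Ks F H 1)‖ ≤ ‖ww F H - ss F‖ * ‖ww F H‖ + ‖ss F‖ := by
      rw [e2]
      exact (norm_add_le _ _).trans (by rw [norm_mul])
    have hv0' : ‖ww F H - ss F‖ = 1 := by
      refine le_antisymm hv0 ?_
      by_contra hlt
      push Not at hlt
      have : ‖ww F H - ss F‖ * ‖ww F H‖ < 1 * ‖ww F H‖ := mul_lt_mul_of_pos_right hlt hwp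
      linarith
    have r1 : SameRay ℝ (ww F H) (-ss F) := by
      rw [sameRay_iff_norm_add, norm_neg, ← sub_eq_add_neg, hv0']
      linarith
    have r1' := sameRay_iff_norm_smul_eq.1 r1
    rw [norm_neg] at r1'
    have r2 : SameRay ℝ ((ww F H - ss F) * ww F H) (ss F) := by
      rw [sameRay_iff_norm_add, ← e2, hw1', norm_mul, hv0', one_mul]
      linarith
    have r2' := sameRay_iff_norm_smul_eq.1 r2
    rw [norm_mul, hv0', one_mul] at r2'
    simp only [Complex.real_smul] at r1' r2'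
    have hwc : ((‖ww F H‖ : ℝ) : ℂ) ≠ 0 := by exact_mod_cast hwp.ne'
    have h3 : ((‖ww F H‖ : ℝ) : ℂ) * ss F * (ww F H - (ss F - 1)) = 0 := by
      linear_combination r2' - (ww F H - ss F) * r1'
    have h4 : ww F H = ss F - 1 := by
      rcases mul_eq_zero.1 h3 with h5 | h5
      · exact absurd h5 (mul_ne_zero hwc hs0)
      · linear_combination h5
    exact lemmaP hΓ hF hH h h4 hs0 hs1
  · exfalso
    have hw1' : ‖ww F (Ks F H 1)‖ < 1 := hw1
    have hv2 : ‖ww F (Ks F H 2) - ss F‖ + ‖ss F‖ < 1 := by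
      have e2 : ww F (Ks F H 2) - ss F = (ww F (Ks F H 1) - ss F) * ww F (Ks F H 1) :=
        vv_Ks F H h 1
      rw [e2, norm_mul]
      rcases (norm_nonneg (ww F (Ks F H 1) - ss F)).eq_or_lt with h5 | h5
      · rw [← h5, zero_mul]; linarith
      · have : ‖ww F (Ks F H 1) - ss F‖ * ‖ww F (Ks F H 1)‖
            < ‖ww F (Ks F H 1) - ss F‖ * 1 := mul_lt_mul_of_pos_left hw1' h5
        linarith
    have key2 : ∀ n, ‖ww F (Ks F H (n + 2)) - ss F‖ ≤ ‖ww F (Ks F H 2) - ss F‖ := by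
      intro n
      induction n with
      | zero => exact le_rfl
      | succ n ih =>
        have e3 := vv_Ks F H h (n + 2)
        rw [show n + 1 + 2 = n + 2 + 1 by ring, e3, norm_mul]
        exact (mul_le_of_le_one_right (norm_nonneg _) (key (n + 1)).2).trans ih
    have hex : ∃ n, ww F (Ks F H n) = ss F := by
      refine iter hΓ hF hH (ss_ne hs1) h hv2 2 ?_
      intro n hn
      obtain ⟨m, rfl⟩ := Nat.exists_eq_add_of_le' hn
      have : ww F (Ks F H (m + 2)) = (ww F (Ks F H (m + 2)) - ss F) + ss F := by ring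
      rw [this]
      exact (norm_add_le _ _).trans (by linarith [key2 m])
    classical
    have hn := Nat.find_spec hex
    have hmin := fun m => Nat.find_min hex (m := m)
    generalize Nat.find hex = n at hn hmin
    rcases n with _ | m
    · have hn' : ww F H = ss F := hn
      exact no_braid hΓ hF hH h hn' hs0 (by rw [hn'] at heq; linarith)
    · have hvm : ww F (Ks F H m) - ss F ≠ 0 := sub_ne_zero.2 (hmin m (Nat.lt_succ_self m))
      have h5 := vv_Ks F H h m
      rw [hn, sub_self] at h5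
      have hwm : ww F (Ks F H m) = 0 := (mul_eq_zero.1 h5.symm).resolve_left hvm
      rcases m with _ | k
      · exact hw0 hwm
      · have h6 := (key k).1
        rw [hwm, zero_sub, norm_neg] at h6
        exact no_braid hΓ hF (Ks_mem hF hH _) (tr_Ks F H h _) hn hs0 (by linarith)

end Pool.Agent.H811.Tan
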