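import Pool.Agent.H811.Tan.Lattice

/-!
# Discreteness in `PSL(2, ℂ)`, nonelementary groups, and examples
-/

namespace Pool.Agent.H811.Tan

open Matrix Filter Topology
open scoped LinearAlgebra.Projectivization

set_option linter.unusedVariables false
set_option linter.unusedSimpArgs false

instance : FirstCountableTopology SL2 :=
  haveI : FirstCountableTopology (Matrix (Fin 2) (Fin 2) ℂ) :=
    inferInstanceAs (FirstCountableTopology (Fin 2 → Fin 2 → ℂ))
  (Matrix.SpecialLinearGroup.isClosedEmbedding_val (n := Fin 2)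
    (R := ℂ)).isInducing.firstCountableTopology

theorem isolated_of_disc {Γ : Subgroup SL2} (hΓ : Disc Γ) :
    ∀ᶠ A in 𝓝 (1 : SL2), A ∈ Γ → A = 1 := by
  by_contra hcon
  rw [Filter.not_eventually] at hcon
  obtain ⟨u, hu, hu2⟩ := exists_seq_forall_of_frequently hcon
  have hu3 : ∀ n, u n ∈ Γ ∧ u n ≠ 1 := by
    intro n
    have := hu2 n
    push Not at this
    exact this
  have hlim : ∀ i j, Tendsto (fun n => u n i j) atTop (𝓝 ((1 : SL2) i j)) := by
    intro i j
    have hc : Continuous (fun A : SL2 => A i j) := by fun_prop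
    exact (hc.tendsto _).comp hu
  obtain ⟨n, hn⟩ := (hΓ u (fun n => (hu3 n).1) hlim).exists
  exact (hu3 n).2 hn

/-- If the preimage of `Γ` is contained in a discrete subgroup of `SL(2, ℂ)`, then `Γ` is
discrete. -/
theorem discrete_of_disc {Γ : Subgroup PSL2} (hΓ : Disc (pre Γ)) : DiscreteTopology Γ := by
  have h1 := isolated_of_disc hΓ
  have hopen : IsOpenMap (fun A : SL2 => (A : PSL2)) := QuotientGroup.isOpenMap_coe
  rw [discreteTopology_iff_isOpen_singleton_one]
  obtain ⟨V, hV1, hV2, hV3⟩ := eventually_nhds_iff.1 h1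
  have hW : IsOpen ((fun A : SL2 => (A : PSL2)) '' V) := hopen V hV2
  have : ({1} : Set Γ) = Subtype.val ⁻¹' ((fun A : SL2 => (A : PSL2)) '' V) := by
    ext γ
    simp only [Set.mem_singleton_iff, Set.mem_preimage, Set.mem_image]
    constructor
    · rintro rfl
      exact ⟨1, hV3, rfl⟩
    · rintro ⟨A, hA, hAγ⟩
      have hA2 : A ∈ pre Γ := by
        rw [mem_pre, hAγ]
        exact γ.2
      have hA3 := hV1 A hA hA2
      apply Subtype.ext
      rw [← hAγ, hA3]
      rfl
  rw [this]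
  exact hW.preimage continuous_subtype_val

/-- The preimage of a group generated by two elements. -/
theorem pre_closure_le {F G : SL2} {Δ : Subgroup SL2} (hF : F ∈ Δ) (hG : G ∈ Δ)
    (hm : (-1 : SL2) ∈ Δ) : pre (Subgroup.closure {(F : PSL2), (G : PSL2)}) ≤ Δ := by
  intro A hA
  rw [mem_pre] at hA
  have key : ∀ a : PSL2, a ∈ Subgroup.closure {(F : PSL2), (G : PSL2)} →
      ∃ B ∈ Δ, (B : PSL2) = a := by
    intro a ha
    induction ha using Subgroup.closure_induction with
    | mem x hx =>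
      rcases hx with rfl | rfl
      · exact ⟨F, hF, rfl⟩
      · exact ⟨G, hG, rfl⟩
    | one => exact ⟨1, Δ.one_mem, rfl⟩
    | mul x y hx hy ihx ihy =>
      obtain ⟨B, hB, rfl⟩ := ihx
      obtain ⟨C, hC, rfl⟩ := ihy
      exact ⟨B * C, Δ.mul_mem hB hC, rfl⟩
    | inv x hx ih =>
      obtain ⟨B, hB, rfl⟩ := ih
      exact ⟨B⁻¹, Δ.inv_mem hB, rfl⟩
  obtain ⟨B, hB, hBA⟩ := key _ hA
  have h2 : ((B⁻¹ * A : SL2) : PSL2) = 1 := by
    rw [coe_mul', coe_inv', hBA, inv_mul_cancel]
  rcases mk_eq_one h2 with h3 | h3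
  · rw [← inv_mul_eq_one.1 h3]
    exact hB
  · have : A = B * (-1) := by rw [← h3]; group
    rw [this]
    exact Δ.mul_mem hB hm

theorem discrete_closure {F G : SL2} {Δ : Subgroup SL2} (hΔ : Disc Δ) (hF : F ∈ Δ) (hG : G ∈ Δ)
    (hm : (-1 : SL2) ∈ Δ) : DiscreteTopology (Subgroup.closure {(F : PSL2), (G : PSL2)}) :=
  discrete_of_disc (disc_mono hΔ (pre_closure_le hF hG hm))

/-- Powers of a diagonal matrix. -/
theorem diag_pow {A : SL2} (h01 : A 0 1 = 0) (h10 : A 1 0 = 0) (n : ℕ) :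
    (A ^ n) 0 0 = A 0 0 ^ n ∧ (A ^ n) 0 1 = 0 ∧ (A ^ n) 1 0 = 0 ∧ (A ^ n) 1 1 = A 1 1 ^ n := by
  induction n with
  | zero => simp
  | succ n ih =>
    obtain ⟨i1, i2, i3, i4⟩ := ih
    refine ⟨?_, ?_, ?_, ?_⟩
    · rw [pow_succ, mul_00, i1, i2, h10]; ring
    · rw [pow_succ, mul_01, i1, i2, h01]; ring
    · rw [pow_succ, mul_10, i3, i4, h10]; ring
    · rw [pow_succ, mul_11, i3, i4, h01]; ring

theorem smul_mk_eq (A : SL2) (v : Fin 2 → ℂ) (hv : v ≠ 0) :
    (A : PSL2) • (Projectivization.mk ℂ v hv : Sphere)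
      = Projectivization.mk ℂ (A • v) ((smul_ne_zero_iff_ne A).mpr hv) := rfl

/-- A finite invariant set consists of fixed points of every element with nonreal trace. -/
theorem finite_orbit {A : SL2} (hA : (tr A).im ≠ 0) {S : Set Sphere} (hS : S.Finite)
    (hinv : ∀ n : ℕ, ∀ p ∈ S, ((A ^ n : SL2) : PSL2) • p ∈ S) (p : Sphere) (hp : p ∈ S) :
    (A : PSL2) • p = p := by
  have hx : tr A ^ 2 ≠ 4 := by
    intro h
    have h1 : (tr A - 2) * (tr A + 2) = 0 := by linear_combination h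
    rcases mul_eq_zero.1 h1 with h2 | h2
    · apply hA
      rw [sub_eq_zero.1 h2]; rfl
    · apply hA
      rw [eq_neg_of_add_eq_zero_left h2]
      simp
  obtain ⟨P, h01, h10⟩ := exists_diag A hx
  set B := P * A * P⁻¹ with hB
  have hd := diag_det h01 h10
  have htr : tr B = tr A := tr_conj P A
  have hnorm : ‖B 0 0‖ ≠ 1 := by
    intro h1
    apply hA
    rw [← htr]
    have h2 : B 1 1 = (starRingEnd ℂ) (B 0 0) := by
      have h3 : B 0 0 * (starRingEnd ℂ) (B 0 0) = 1 := by
        rw [Complex.mul_conj, Complex.normSq_eq_norm_sq, h1]; norm_num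
      have h4 : B 0 0 ≠ 0 := left_ne_zero_of_mul (by rw [hd]; exact one_ne_zero)
      apply mul_left_cancel₀ h4
      rw [hd, h3]
    unfold tr
    rw [h2]
    simp
  -- the orbit
  have hq : ∀ n : ℕ, ((B ^ n : SL2) : PSL2) • ((P : PSL2) • p) ∈ (fun q => (P : PSL2) • q) '' S := by
    intro n
    refine ⟨((A ^ n : SL2) : PSL2) • p, hinv n p hp, ?_⟩
    have : B ^ n = P * A ^ n * P⁻¹ := by rw [hB, conj_pow]
    rw [this, coe_mul', coe_mul', coe_inv']
    simp only [mul_smul, inv_smul_smul]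
  have hfin : ((fun q => (P : PSL2) • q) '' S).Finite := hS.image _
  have hfix : (B : PSL2) • ((P : PSL2) • p) = (P : PSL2) • p := by
    generalize (P : PSL2) • p = q at hq
    induction q using Projectivization.ind with
    | h v hv =>
      rw [smul_eq_iff, h01, h10]
      by_contra hne
      have hv0 : v 0 ≠ 0 := by
        intro h; apply hne; rw [h]; ring
      have hv1 : v 1 ≠ 0 := by
        intro h; apply hne; rw [h]; ring
      have hni : ¬ Function.Injective (fun n : ℕ =>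
          (⟨((B ^ n : SL2) : PSL2) • (Projectivization.mk ℂ v hv : Sphere), hq n⟩ :
            ((fun q => (P : PSL2) • q) '' S))) := by
        intro hinj
        have : Finite ((fun q => (P : PSL2) • q) '' S) := hfin
        exact not_injective_infinite_finite _ hinj
      rw [Function.Injective] at hni
      push Not at hni
      obtain ⟨n, m, hnm, hne2⟩ := hni
      have hnm' := congrArg Subtype.val hnm
      simp only at hnm'
      rw [smul_mk_eq, smul_mk_eq, Projectivization.mk_eq_mk_iff'] at hnm'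
      obtain ⟨a, ha⟩ := hnm'
      obtain ⟨n1, n2, n3, n4⟩ := diag_pow h01 h10 n
      obtain ⟨m1, m2, m3, m4⟩ := diag_pow h01 h10 m
      rw [smul_vec, smul_vec, n1, n2, n3, n4, m1, m2, m3, m4] at ha
      have a0 := congrFun ha 0
      have a1 := congrFun ha 1
      simp at a0 a1
      have b0 : a * B 0 0 ^ m = B 0 0 ^ n := by
        apply mul_right_cancel₀ hv0
        linear_combination a0
      have b1 : a * B 1 1 ^ m = B 1 1 ^ n := by
        apply mul_right_cancel₀ hv1
        linear_combination a1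
      have hdm : B 0 0 ^ m * B 1 1 ^ m = 1 := by rw [← mul_pow, hd, one_pow]
      have hdn : B 0 0 ^ n * B 1 1 ^ n = 1 := by rw [← mul_pow, hd, one_pow]
      have c1 : a ^ 2 = 1 := by
        have : a ^ 2 * (B 0 0 ^ m * B 1 1 ^ m) = B 0 0 ^ n * B 1 1 ^ n := by
          rw [← b0, ← b1]; ring
        rwa [hdm, hdn, mul_one] at this
      have c2 : ‖a‖ = 1 := by
        have : ‖a‖ ^ 2 = 1 := by rw [← norm_pow, c1, norm_one]
        exact (pow_eq_one_iff_of_nonneg (norm_nonneg _) (by norm_num)).1 this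
      have c3 : ‖B 0 0‖ ^ m = ‖B 0 0‖ ^ n := by
        rw [← norm_pow, ← norm_pow, ← b0, norm_mul, c2, one_mul]
      have hpos : 0 < ‖B 0 0‖ := norm_pos_iff.2
        (left_ne_zero_of_mul (by rw [hd]; exact one_ne_zero))
      exact hne2 (pow_right_injective₀ hpos hnorm c3).symm
  have e : ((B : SL2) : PSL2) * (P : PSL2) = (P : PSL2) * (A : PSL2) := by
    rw [← coe_mul', ← coe_mul', hB]
    congr 1
    group
  rw [← mul_smul, e, mul_smul] at hfix
  exact (MulAction.injective (P : PSL2)) hfix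

/-- The criterion for nonelementary groups. -/
theorem nonelementary_of {Γ : Subgroup PSL2} {A B : SL2} (hA : (A : PSL2) ∈ Γ)
    (hB : (B : PSL2) ∈ Γ) (htA : (tr A).im ≠ 0) (htB : (tr B).im ≠ 0)
    (h : tr (A⁻¹ * B⁻¹ * A * B) ≠ 2) : Nonelementary Γ := by
  intro S hS hS0
  by_contra hcon
  push Not at hcon
  obtain ⟨p, hp⟩ := hS0
  have hAn : ∀ n : ℕ, ((A ^ n : SL2) : PSL2) ∈ Γ := by
    intro n
    have : ((A ^ n : SL2) : PSL2) = (A : PSL2) ^ n := rfl
    rw [this]; exact Γ.pow_mem hA n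
  have hBn : ∀ n : ℕ, ((B ^ n : SL2) : PSL2) ∈ Γ := by
    intro n
    have : ((B ^ n : SL2) : PSL2) = (B : PSL2) ^ n := rfl
    rw [this]; exact Γ.pow_mem hB n
  have h1 := finite_orbit htA hS (fun n q hq => hcon _ (hAn n) q hq) p hp
  have h2 := finite_orbit htB hS (fun n q hq => hcon _ (hBn n) q hq) p hp
  apply h
  have hx : tr A ^ 2 ≠ 4 := by
    intro h
    have h1 : (tr A - 2) * (tr A + 2) = 0 := by linear_combination h
    rcases mul_eq_zero.1 h1 with h2 | h2
    · apply htA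
      rw [sub_eq_zero.1 h2]; rfl
    · apply htA
      rw [eq_neg_of_add_eq_zero_left h2]
      simp
  obtain ⟨P, h01, h10⟩ := exists_diag A hx
  have hne : (P * A * P⁻¹) 0 0 ≠ (P * A * P⁻¹) 1 1 := by
    intro he
    apply hx
    rw [← tr_conj P A]
    have hd := diag_det h01 h10
    unfold tr
    rw [← he] at hd ⊢
    linear_combination 4 * hd
  have h1' : ((P * A * P⁻¹ : SL2) : PSL2) • ((P : PSL2) • p) = (P : PSL2) • p := by
    rw [coe_mul', coe_mul', coe_inv', mul_smul, mul_smul, inv_smul_smul, h1]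
  have h2' : ((P * B * P⁻¹ : SL2) : PSL2) • ((P : PSL2) • p) = (P : PSL2) • p := by
    rw [coe_mul', coe_mul', coe_inv', mul_smul, mul_smul, inv_smul_smul, h2]
  rw [tr_comm_eq]
  have e2 : (P * A * P⁻¹) * ((P * B * P⁻¹) * (P * A * P⁻¹)⁻¹ * (P * B * P⁻¹)⁻¹)
      = P * (A * (B * A⁻¹ * B⁻¹)) * P⁻¹ := by group
  rw [← tr_conj P, ← e2, tr_comm_diag h01 h10]
  rcases fix_diag h01 h10 hne _ h1' with h3 | h3
  · rw [h3, smul_pInf_iff] at h2'
    rw [h2']; ring
  · rw [h3, smul_pZero_iff] at h2'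
    rw [h2']; ring

end Pool.Agent.H811.Tan
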