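import Pool.Agent.H811.Tan.Extend

/-!
# The equality cases of the two inequalities, in `SL(2, ℂ)`
-/

namespace Pool.Agent.H811.Tan

open Matrix Filter Topology

set_option linter.unusedVariables false
set_option linter.unusedSimpArgs false

theorem tr_comm_eq (F G : SL2) : tr (F⁻¹ * G⁻¹ * F * G) = tr (F * (G * F⁻¹ * G⁻¹)) := by
  have h1 : F⁻¹ * G⁻¹ * F * G = F⁻¹ * G⁻¹ * (F⁻¹)⁻¹ * (G⁻¹)⁻¹ := by group
  have h2 : F * (G * F⁻¹ * G⁻¹) = F * G * F⁻¹ * G⁻¹ := by group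
  rw [h1, h2, fricke, fricke, tr_inv, tr_inv]
  have h3 : tr (F⁻¹ * G⁻¹) = tr (F * G) := by
    rw [← _root_.mul_inv_rev, tr_inv, tr_mul_comm]
  rw [h3]

/-- The equality case of the first inequality. -/
theorem thmA {Γ : Subgroup SL2} (hΓ : Disc Γ) {F G : SL2} (hF : F ∈ Γ) (hG : G ∈ Γ)
    (h1 : tr (F⁻¹ * G⁻¹ * F * G) ≠ 1)
    (h2 : ‖tr F ^ 2 - 2‖ + ‖tr (F⁻¹ * G⁻¹ * F * G) - 1‖ = 1) :
    (tr F ^ 2 = 2 ∧ ((tr (F⁻¹ * G⁻¹ * F * G) - 1) ^ 4 = 1 ∨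
      (tr (F⁻¹ * G⁻¹ * F * G) - 1) ^ 6 = 1)) ∨ G * F⁻¹ * G⁻¹ = F := by
  rw [tr_comm_eq] at h1 h2 ⊢
  rcases core hΓ hF (Ks_one_mem hF hG) (tr_word F G) (sub_ne_zero.2 h1) h2 with ⟨h3, h4⟩ | h3
  · left
    refine ⟨?_, h4⟩
    unfold ss at h3
    linear_combination h3
  · exact Or.inr h3

/-- The equality case of the second inequality. -/
theorem thmB {Γ : Subgroup SL2} (hΓ : Disc Γ) (hm : -1 ∈ Γ) {F G : SL2} (hF : F ∈ Γ) (hG : G ∈ Γ)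
    (h1 : tr F ^ 2 ≠ 1)
    (h2 : ‖tr F ^ 2 - 1‖ + ‖tr (F⁻¹ * G⁻¹ * F * G)‖ = 1) :
    (tr (F⁻¹ * G⁻¹ * F * G) = 0 ∧ ((1 - tr F ^ 2) ^ 4 = 1 ∨
      (1 - tr F ^ 2) ^ 6 = 1)) ∨ G * F⁻¹ * G⁻¹ = F := by
  rw [tr_comm_eq] at h2 ⊢
  set H := G * F⁻¹ * G⁻¹ with hHdef
  have hH : H ∈ Γ := Ks_one_mem hF hG
  have htr : tr H = tr F := tr_word F G
  have hz2 : tr (F * H) ≠ 2 := by
    intro h3
    rw [h3] at h2
    norm_num at h2
    linarith [norm_nonneg (tr F ^ 2 - 1)]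
  obtain ⟨D, hD1, hD2, hD3, hD4⟩ := exists_root htr hz2
  -- the group generated by `F`, `H`, `-1`
  set Γ₀ : Subgroup SL2 := Subgroup.closure {F, H, -1} with hΓ₀def
  have hF0 : F ∈ Γ₀ := Subgroup.subset_closure (by simp)
  have hH0 : H ∈ Γ₀ := Subgroup.subset_closure (by simp)
  have hm0 : (-1 : SL2) ∈ Γ₀ := Subgroup.subset_closure (by simp)
  have hle : Γ₀ ≤ Γ := by
    rw [hΓ₀def, Subgroup.closure_le]
    rintro x (rfl | rfl | rfl)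
    · exact hF
    · exact hH
    · exact hm
  have hΓ₀ : Disc Γ₀ := disc_mono hΓ hle
  have hDD : D * D ∈ Γ₀ := by
    rw [hD1, ← neg_one_mul]
    exact Γ₀.mul_mem hm0 (Γ₀.mul_mem hF0 hH0)
  have hn1 : ∀ γ ∈ Γ₀, D * γ * D⁻¹ ∈ Γ₀ := by
    intro γ hγ
    induction hγ using Subgroup.closure_induction with
    | mem x hx =>
      rcases hx with rfl | rfl | rfl
      · rw [hD3]
        exact Γ₀.mul_mem (Γ₀.mul_mem hF0 hH0) (Γ₀.inv_mem hF0)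
      · rw [hD2]; exact hF0
      · have : D * (-1) * D⁻¹ = -1 := by simp
        rw [this]; exact hm0
    | one => rw [mul_one, mul_inv_cancel]; exact Γ₀.one_mem
    | mul x y hx hy ihx ihy =>
      have : D * (x * y) * D⁻¹ = (D * x * D⁻¹) * (D * y * D⁻¹) := by group
      rw [this]; exact Γ₀.mul_mem ihx ihy
    | inv x hx ih =>
      have : D * x⁻¹ * D⁻¹ = (D * x * D⁻¹)⁻¹ := by group
      rw [this]; exact Γ₀.inv_mem ih
  have hn2 : ∀ γ ∈ Γ₀, D⁻¹ * γ * D ∈ Γ₀ := by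
    intro γ hγ
    have : D⁻¹ * γ * D = (D * D)⁻¹ * (D * γ * D⁻¹) * (D * D) := by group
    rw [this]
    exact Γ₀.mul_mem (Γ₀.mul_mem (Γ₀.inv_mem hDD) (hn1 γ hγ)) hDD
  have hΓ₁ := disc_extend hΓ₀ hn1 hn2 hDD
  set Γ₁ := extend Γ₀ D hn1 hn2 hDD with hΓ₁def
  have hD' : D ∈ Γ₁ := Or.inr hDD
  have hF1 : F ∈ Γ₁ := Or.inl hF0
  have hE : F⁻¹ * D * F ∈ Γ₁ := Γ₁.mul_mem (Γ₁.mul_mem (Γ₁.inv_mem hF1) hD') hF1
  have hprod : D * (F⁻¹ * D * F) = -(F * F) := by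
    have e1 : D * F⁻¹ * D⁻¹ = F * H⁻¹ * F⁻¹ := by
      have : D * F⁻¹ * D⁻¹ = (D * F * D⁻¹)⁻¹ := by group
      rw [this, hD3]; group
    have e2 : D * (F⁻¹ * D * F) = (D * F⁻¹ * D⁻¹) * (D * D) * F := by group
    rw [e2, e1, hD1]
    rw [mul_neg, neg_mul]
    congr 1
    group
  have htrE : tr (F⁻¹ * D * F) = tr D := by
    have := tr_conj F⁻¹ D
    rwa [inv_inv] at this
  have hneg : ∀ A : SL2, tr (-A) = - tr A := by
    intro A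
    unfold tr
    simp only [Matrix.SpecialLinearGroup.coe_neg, Matrix.neg_apply]
    ring
  have htrDE : ww D (F⁻¹ * D * F) = 1 - tr F ^ 2 := by
    unfold ww
    rw [hprod, hneg]
    have hd := det_eq F
    unfold tr
    rw [mul_00, mul_11]
    linear_combination 2 * hd
  have hssD : ss D = - tr (F * H) := by
    unfold ss
    rw [hD4]; ring
  have hw0 : ww D (F⁻¹ * D * F) ≠ 0 := by
    rw [htrDE]
    exact sub_ne_zero.2 (Ne.symm h1)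
  have heq : ‖ss D‖ + ‖ww D (F⁻¹ * D * F)‖ = 1 := by
    rw [htrDE, hssD, norm_neg, norm_sub_rev]
    linarith
  rcases core hΓ₁ hD' hE htrE hw0 heq with ⟨h3, h4⟩ | h3
  · left
    rw [hssD] at h3
    rw [htrDE] at h4
    exact ⟨neg_eq_zero.1 h3, h4⟩
  · right
    rw [h3, hD1] at hprod
    have h5 : F * H = F * F := neg_inj.1 hprod
    exact mul_left_cancel h5

end Pool.Agent.H811.Tan
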