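import Pool.Agent.H811.Tan.Iter

/-!
# Traces of words in two elements of `SL(2, ℂ)` with equal traces
-/

namespace Pool.Agent.H811.Tan

open Matrix

set_option linter.unusedVariables false
set_option linter.unusedSimpArgs false

/-- The matrix `α + β F + γ H + δ F H`. -/
def R (F H : SL2) (α β γ δ : ℂ) : Matrix (Fin 2) (Fin 2) ℂ :=
  α • 1 + β • (F : Matrix (Fin 2) (Fin 2) ℂ) + γ • (H : Matrix (Fin 2) (Fin 2) ℂ)
    + δ • ((F : Matrix (Fin 2) (Fin 2) ℂ) * (H : Matrix (Fin 2) (Fin 2) ℂ))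

theorem cayley (F : SL2) : (F : Matrix (Fin 2) (Fin 2) ℂ) * F = tr F • (F : Matrix (Fin 2) (Fin 2) ℂ) - 1 := by
  have h := det_eq F
  unfold tr
  ext i j
  fin_cases i <;> fin_cases j <;> simp [Matrix.mul_apply, Fin.sum_univ_two] <;>
    first | linear_combination -h | ring

theorem coe_inv_eq (F : SL2) : ((F⁻¹ : SL2) : Matrix (Fin 2) (Fin 2) ℂ)
    = tr F • (1 : Matrix (Fin 2) (Fin 2) ℂ) - F := by
  unfold tr
  ext i j
  fin_cases i <;> fin_cases j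
  · show (F⁻¹) 0 0 = _
    rw [inv_00]; simp
  · show (F⁻¹) 0 1 = _
    rw [inv_01]; simp
  · show (F⁻¹) 1 0 = _
    rw [inv_10]; simp
  · show (F⁻¹) 1 1 = _
    rw [inv_11]; simp

theorem hf_eq (F H : SL2) : (H : Matrix (Fin 2) (Fin 2) ℂ) * F
    = tr H • (F : Matrix (Fin 2) (Fin 2) ℂ) + tr F • (H : Matrix (Fin 2) (Fin 2) ℂ)
      + (tr (F * H) - tr F * tr H) • (1 : Matrix (Fin 2) (Fin 2) ℂ)
      - (F : Matrix (Fin 2) (Fin 2) ℂ) * H := by
  unfold tr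
  rw [mul_00, mul_11]
  ext i j
  fin_cases i <;> fin_cases j <;> simp [Matrix.mul_apply, Fin.sum_univ_two] <;> ring

theorem hfh_eq (F H : SL2) : (H : Matrix (Fin 2) (Fin 2) ℂ) * ((F : Matrix (Fin 2) (Fin 2) ℂ) * H)
    = tr (F * H) • (H : Matrix (Fin 2) (Fin 2) ℂ) - tr F • (1 : Matrix (Fin 2) (Fin 2) ℂ)
      + (F : Matrix (Fin 2) (Fin 2) ℂ) := by
  have h := det_eq H
  unfold tr
  rw [mul_00, mul_11]
  ext i j
  fin_cases i <;> fin_cases j <;> simp [Matrix.mul_apply, Fin.sum_univ_two]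
  · linear_combination (-F 1 1) * h
  · linear_combination (F 0 1) * h
  · linear_combination (F 1 0) * h
  · linear_combination (-F 0 0) * h

theorem F_mul_R {F H : SL2} {t z : ℂ} (hF : tr F = t) (hH : tr H = t) (hz : tr (F * H) = z)
    (α β γ δ : ℂ) : (F : Matrix (Fin 2) (Fin 2) ℂ) * R F H α β γ δ
      = R F H (-β) (α + t * β) (-δ) (γ + t * δ) := by
  have h1 := cayley F
  rw [hF] at h1
  unfold R
  simp only [mul_add, mul_smul_comm, mul_one, ← mul_assoc, h1, sub_mul, smul_mul_assoc, one_mul]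
  module

theorem H_mul_R {F H : SL2} {t z : ℂ} (hF : tr F = t) (hH : tr H = t) (hz : tr (F * H) = z)
    (α β γ δ : ℂ) : (H : Matrix (Fin 2) (Fin 2) ℂ) * R F H α β γ δ
      = R F H (β * (z - t ^ 2) - γ - t * δ) (t * β + δ) (α + t * β + t * γ + z * δ) (-β) := by
  have h1 := cayley H
  have h2 := hf_eq F H
  have h3 := hfh_eq F H
  rw [hF, hz] at h3
  rw [hF, hH, hz] at h2
  rw [hH] at h1
  unfold R
  simp only [mul_add, mul_smul_comm, mul_one, h1, h2, h3]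
  module

theorem Finv_mul_R {F H : SL2} {t z : ℂ} (hF : tr F = t) (hH : tr H = t) (hz : tr (F * H) = z)
    (α β γ δ : ℂ) : ((F⁻¹ : SL2) : Matrix (Fin 2) (Fin 2) ℂ) * R F H α β γ δ
      = R F H (t * α + β) (-α) (t * γ + δ) (-γ) := by
  rw [coe_inv_eq, sub_mul, F_mul_R hF hH hz, hF, smul_mul_assoc, one_mul]
  unfold R
  module

theorem Hinv_mul_R {F H : SL2} {t z : ℂ} (hF : tr F = t) (hH : tr H = t) (hz : tr (F * H) = z)
    (α β γ δ : ℂ) : ((H⁻¹ : SL2) : Matrix (Fin 2) (Fin 2) ℂ) * R F H α β γ δ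
      = R F H (t * α - β * (z - t ^ 2) + γ + t * δ) (-δ) (-α - t * β - z * δ) (t * δ + β) := by
  rw [coe_inv_eq, sub_mul, H_mul_R hF hH hz, hH, smul_mul_assoc, one_mul]
  unfold R
  module

theorem trace_R {F H : SL2} {t z : ℂ} (hF : tr F = t) (hH : tr H = t) (hz : tr (F * H) = z)
    (α β γ δ : ℂ) : (R F H α β γ δ) 0 0 + (R F H α β γ δ) 1 1
      = 2 * α + t * β + t * γ + z * δ := by
  rw [← hz]
  nth_rw 2 [← hH]
  rw [← hF]
  unfold R tr
  rw [mul_00, mul_11]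
  simp [Matrix.mul_apply, Fin.sum_univ_two]
  ring

theorem one_eq_R (F H : SL2) : ((1 : SL2) : Matrix (Fin 2) (Fin 2) ℂ) = R F H 1 0 0 0 := by
  unfold R; simp

theorem tr_of_coe {F H K : SL2} {t z : ℂ} (hF : tr F = t) (hH : tr H = t) (hz : tr (F * H) = z)
    {α β γ δ : ℂ} (hK : (K : Matrix (Fin 2) (Fin 2) ℂ) = R F H α β γ δ) :
    tr K = 2 * α + t * β + t * γ + z * δ := by
  unfold tr
  rw [hK, trace_R hF hH hz]

/-- The trace of the product of `F` and the conjugate of `F⁻¹` by `K`. -/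
theorem ww_word (F K : SL2) : ww F (K * F⁻¹ * K⁻¹)
    = tr F ^ 2 + tr K ^ 2 + tr (F * K) ^ 2 - tr F * tr K * tr (F * K) - 3 := by
  unfold ww
  have : F * (K * F⁻¹ * K⁻¹) = F * K * F⁻¹ * K⁻¹ := by group
  rw [this, fricke]
  ring

theorem tr_word (F K : SL2) : tr (K * F⁻¹ * K⁻¹) = tr F := by
  rw [tr_conj, tr_inv]

/-- The word used for groups with `tr (F H) = tr² F - 1`. -/
theorem word_braid {F H : SL2} {t : ℂ} (hF : tr F = t) (hH : tr H = t)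
    (hz : tr (F * H) = t ^ 2 - 1) :
    ww F ((H⁻¹ * (H⁻¹ * (H⁻¹ * (F⁻¹ * (F⁻¹ * (H⁻¹ * (H⁻¹ * (F⁻¹ * (H * (H * 1)))))))))) * F⁻¹ *
      (H⁻¹ * (H⁻¹ * (H⁻¹ * (F⁻¹ * (F⁻¹ * (H⁻¹ * (H⁻¹ * (F⁻¹ * (H * (H * 1))))))))))⁻¹) - ss F
      = ss F ^ 4 * (2 - ss F - 5 * ss F ^ 2 + 3 * ss F ^ 4 + ss F ^ 5) := by
  set K : SL2 := (H⁻¹ * (H⁻¹ * (H⁻¹ * (F⁻¹ * (F⁻¹ * (H⁻¹ * (H⁻¹ * (F⁻¹ * (H * (H * 1))))))))))
    with hKdef
  have e1 : tr K = t ^ 6 - 4 * t ^ 4 + 4 * t ^ 2 - 1 := by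
    have := tr_of_coe hF hH hz (K := K) (by
      rw [hKdef]
      simp only [Matrix.SpecialLinearGroup.coe_mul, one_eq_R F H, F_mul_R hF hH hz,
        H_mul_R hF hH hz, Finv_mul_R hF hH hz, Hinv_mul_R hF hH hz]
      rfl)
    rw [this]
    ring
  have e2 : tr (F * K) = t ^ 9 - 7 * t ^ 7 + 18 * t ^ 5 - 20 * t ^ 3 + 7 * t := by
    have := tr_of_coe hF hH hz (K := F * K) (by
      rw [hKdef]
      simp only [Matrix.SpecialLinearGroup.coe_mul, one_eq_R F H, F_mul_R hF hH hz,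
        H_mul_R hF hH hz, Finv_mul_R hF hH hz, Hinv_mul_R hF hH hz]
      rfl)
    rw [this]
    ring
  rw [ww_word, e1, e2]
  unfold ss
  rw [hF]
  ring

/-- The first word used when `F` has order four. -/
theorem word_one {F H : SL2} {t z : ℂ} (hF : tr F = t) (hH : tr H = t)
    (hz : tr (F * H) = z) (ht : t ^ 2 = 2) :
    ww F ((H * (F * (H⁻¹ * (F⁻¹ * (H * 1))))) * F⁻¹ * (H * (F * (H⁻¹ * (F⁻¹ * (H * 1)))))⁻¹)
      = (z - 1) ^ 6 + (z - 1) ^ 4 - 1 := by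
  set K : SL2 := (H * (F * (H⁻¹ * (F⁻¹ * (H * 1))))) with hKdef
  have e1 : tr K = -3 * t + t * z ^ 2 + 2 * t ^ 3 - t ^ 3 * z := by
    have := tr_of_coe hF hH hz (K := K) (by
      rw [hKdef]
      simp only [Matrix.SpecialLinearGroup.coe_mul, one_eq_R F H, F_mul_R hF hH hz,
        H_mul_R hF hH hz, Finv_mul_R hF hH hz, Hinv_mul_R hF hH hz]
      rfl)
    rw [this]
    ring
  have e2 : tr (F * K) = -3 * z + z ^ 3 + 2 * t ^ 2 * z - t ^ 2 * z ^ 2 := by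
    have := tr_of_coe hF hH hz (K := F * K) (by
      rw [hKdef]
      simp only [Matrix.SpecialLinearGroup.coe_mul, one_eq_R F H, F_mul_R hF hH hz,
        H_mul_R hF hH hz, Finv_mul_R hF hH hz, Hinv_mul_R hF hH hz]
      rfl)
    rw [this]
    ring
  rw [ww_word, e1, e2, hF]
  linear_combination (2 + (-5) * z + 6 * z^2 + (-12) * z^3 + 11 * z^4 + (-3) * z^5 + (-4) * t^2
    + 2 * t^2 * z + 12 * t^2 * z^2 + (-12) * t^2 * z^3 + 3 * t^2 * z^4 + 4 * t^4 + (-8) * t^4 * z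
    + 5 * t^4 * z^2 + (-1) * t^4 * z^3) * ht

/-- The second word used when `F` has order four. -/
theorem word_two {F H : SL2} {t z : ℂ} (hF : tr F = t) (hH : tr H = t)
    (hz : tr (F * H) = z) (ht : t ^ 2 = 2) :
    ww F ((H * (F⁻¹ * (H * (F * (H⁻¹ * 1))))) * F⁻¹ * (H * (F⁻¹ * (H * (F * (H⁻¹ * 1)))))⁻¹)
      = ((z - 1) ^ 3 - (z - 1) ^ 2 + 1) ^ 2 := by
  set K : SL2 := (H * (F⁻¹ * (H * (F * (H⁻¹ * 1))))) with hKdef
  have e1 : tr K = t := by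
    have := tr_of_coe hF hH hz (K := K) (by
      rw [hKdef]
      simp only [Matrix.SpecialLinearGroup.coe_mul, one_eq_R F H, F_mul_R hF hH hz,
        H_mul_R hF hH hz, Finv_mul_R hF hH hz, Hinv_mul_R hF hH hz]
      rfl)
    rw [this]
    ring
  have e2 : tr (F * K) = (-3) * z + 1 * z^3 + 4 * t^2 + 2 * t^2 * z + (-2) * t^2 * z^2
      + (-2) * t^4 + 1 * t^4 * z := by
    have := tr_of_coe hF hH hz (K := F * K) (by
      rw [hKdef]
      simp only [Matrix.SpecialLinearGroup.coe_mul, one_eq_R F H, F_mul_R hF hH hz,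
        H_mul_R hF hH hz, Finv_mul_R hF hH hz, Hinv_mul_R hF hH hz]
      rfl)
    rw [this]
    ring
  rw [ww_word, e1, e2, hF]
  linear_combination (2 + (-5) * z + 12 * z^2 + (-21) * z^3 + 16 * z^4 + (-4) * z^5
    + 8 * t^2 * z + 12 * t^2 * z^2 + (-20) * t^2 * z^3 + 6 * t^2 * z^4 + (-6) * t^4
    + (-9) * t^4 * z + 14 * t^4 * z^2 + (-4) * t^4 * z^3 + 4 * t^6 + (-4) * t^6 * z
    + 1 * t^6 * z^2) * ht

/-- The third word used when `F` has order four. -/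
theorem word_three {F H : SL2} {t z : ℂ} (hF : tr F = t) (hH : tr H = t)
    (hz : tr (F * H) = z) (ht : t ^ 2 = 2) :
    ww F ((H * (F * (H * (F⁻¹ * (H⁻¹ * 1))))) * F⁻¹ * (H * (F * (H * (F⁻¹ * (H⁻¹ * 1)))))⁻¹)
      = ((z - 1) ^ 3 + (z - 1) ^ 2 - 1) ^ 2 := by
  set K : SL2 := (H * (F * (H * (F⁻¹ * (H⁻¹ * 1))))) with hKdef
  have e1 : tr K = t := by
    have := tr_of_coe hF hH hz (K := K) (by
      rw [hKdef]
      simp only [Matrix.SpecialLinearGroup.coe_mul, one_eq_R F H, F_mul_R hF hH hz,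
        H_mul_R hF hH hz, Finv_mul_R hF hH hz, Hinv_mul_R hF hH hz]
      rfl)
    rw [this]
    ring
  have e2 : tr (F * K) = (-3) * z + 1 * z^3 + 2 * t^2 * z + (-1) * t^2 * z^2 := by
    have := tr_of_coe hF hH hz (K := F * K) (by
      rw [hKdef]
      simp only [Matrix.SpecialLinearGroup.coe_mul, one_eq_R F H, F_mul_R hF hH hz,
        H_mul_R hF hH hz, Finv_mul_R hF hH hz, Hinv_mul_R hF hH hz]
      rfl)
    rw [this]
    ring
  rw [ww_word, e1, e2, hF]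
  linear_combination (2 + (-1) * z + (-2) * z^2 + (-3) * z^3 + 6 * z^4 + (-2) * z^5
    + (-2) * t^2 * z + 5 * t^2 * z^2 + (-4) * t^2 * z^3 + 1 * t^2 * z^4) * ht

end Pool.Agent.H811.Tan
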